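import Mathlib

/-!
MP_009fd8_ag, EveryField: Artin-Schreier classes in a finite field of characteristic 2.
-/

namespace Pool.Agent.MP009fd8E

/-- The map `z ↦ z ^ 2 + z` in characteristic 2. -/
def AS1_hom (k : Type*) [Field k] [CharP k 2] : k →+ k where
  toFun z := z ^ 2 + z
  map_zero' := by simp
  map_add' a b := by
    rw [add_pow_char]
    ring

theorem AS1_card_ker (k : Type*) [Field k] [CharP k 2] : Nat.card (AS1_hom k).ker = 2 := by
  have : ((AS1_hom k).ker : Set k) = {0, 1} := by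
    ext z
    simp only [SetLike.mem_coe, AddMonoidHom.mem_ker, Set.mem_insert_iff, Set.mem_singleton_iff]
    change z ^ 2 + z = 0 ↔ _
    rw [show z ^ 2 + z = z * (z + 1) by ring, mul_eq_zero]
    refine or_congr Iff.rfl ?_
    rw [← CharTwo.sub_eq_add, sub_eq_zero]
  have h2 : Nat.card (AS1_hom k).ker = Set.ncard ({0, 1} : Set k) := by
    rw [← this]
    rfl
  rw [h2, Set.ncard_pair zero_ne_one]

theorem AS1_index (k : Type*) [Field k] [Finite k] [CharP k 2] : (AS1_hom k).range.index = 2 := by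
  have h1 := (AS1_hom k).ker.card_mul_index
  have h2 := (AS1_hom k).range.card_mul_index
  rw [AddSubgroup.index_ker, AS1_card_ker] at h1
  have h3 : 0 < Nat.card (AS1_hom k).range := Nat.card_pos
  have h4 : Nat.card (AS1_hom k).range * (AS1_hom k).range.index =
      Nat.card (AS1_hom k).range * 2 := by
    rw [h2, ← h1, mul_comm]
  exact Nat.eq_of_mul_eq_mul_left h3 h4

theorem AS1_aux {k : Type*} [Field k] [Finite k] [CharP k 2] (l1 l2 : k)
    (h1 : l1 ≠ 0) (h2 : l2 ≠ 0) (h : l1 ≠ l2) :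
    ∃ x : k, l1 * x ∈ (AS1_hom k).range ∧ l2 * x ∉ (AS1_hom k).range := by
  have hidx := AS1_index k
  have hadd : ∀ a b : k, a + b ∈ (AS1_hom k).range ↔
      (a ∈ (AS1_hom k).range ↔ b ∈ (AS1_hom k).range) :=
    fun a b => AddSubgroup.add_mem_iff_of_index_two hidx
  obtain ⟨c, hc⟩ : ∃ c, c ∉ (AS1_hom k).range := by
    by_contra hcon
    push Not at hcon
    have : (AS1_hom k).range = ⊤ := eq_top_iff.2 fun x _ => hcon x
    rw [this, AddSubgroup.index_top] at hidx
    exact absurd hidx (by norm_num)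
  by_contra hcon
  push Not at hcon
  have key : ∀ l : k, l ≠ 0 → l * (l⁻¹ * c) = c := fun l hl => by
    rw [← mul_assoc, mul_inv_cancel₀ hl, one_mul]
  have hx0 : l1 * (l1⁻¹ * c) ∉ (AS1_hom k).range := by rwa [key l1 h1]
  by_cases h20 : l2 * (l1⁻¹ * c) ∈ (AS1_hom k).range
  · have hall : ∀ x, l2 * x ∈ (AS1_hom k).range := by
      intro x
      by_cases hx : l1 * x ∈ (AS1_hom k).range
      · exact hcon x hx
      · have h3 := hcon (x + l1⁻¹ * c) (by
          rw [mul_add, hadd]
          exact iff_of_false hx hx0)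
        rw [mul_add, hadd] at h3
        exact h3.2 h20
    have := hall (l2⁻¹ * c)
    rw [key l2 h2] at this
    exact hc this
  · have hall : ∀ x, (l1 + l2) * x ∈ (AS1_hom k).range := by
      intro x
      rw [add_mul, hadd]
      constructor
      · exact hcon x
      · intro hx2
        by_contra hx
        have h3 := hcon (x + l1⁻¹ * c) (by
          rw [mul_add, hadd]
          exact iff_of_false hx hx0)
        rw [mul_add, hadd] at h3
        exact h20 (h3.1 hx2)
    have h12 : l1 + l2 ≠ 0 := by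
      rw [← CharTwo.sub_eq_add]
      exact sub_ne_zero.2 h
    have := hall ((l1 + l2)⁻¹ * c)
    rw [key _ h12] at this
    exact hc this

/-- Proof: H = {z^2 + z} is a subgroup of index 2 (the kernel of z -> z^2 + z is {0, 1}). The
subgroups H1 = {m : l1 m in H}, H2 = {m : l2 m in H} have index 2; if they were equal then
(l1 + l2) m would be in H for all m (AddSubgroup.add_mem_iff_of_index_two), but l1 + l2 is
nonzero and H is not everything. So there are x in H1 not in H2 and y in H2 not in H1, and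
0, x, y, x + y realise all four combinations. -/
theorem exists_as {k : Type*} [Field k] [Finite k] [CharP k 2] (l1 l2 w1 w2 : k)
    (h1 : l1 ≠ 0) (h2 : l2 ≠ 0) (h : l1 ≠ l2) :
    ∃ m z1 z2 : k, w1 + l1 * m = z1 ^ 2 + z1 ∧ w2 + l2 * m = z2 ^ 2 + z2 := by
  have hidx := AS1_index k
  have hadd : ∀ a b : k, a + b ∈ (AS1_hom k).range ↔
      (a ∈ (AS1_hom k).range ↔ b ∈ (AS1_hom k).range) :=
    fun a b => AddSubgroup.add_mem_iff_of_index_two hidx
  obtain ⟨x, hx1, hx2⟩ := AS1_aux l1 l2 h1 h2 h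
  obtain ⟨y, hy2, hy1⟩ := AS1_aux l2 l1 h2 h1 h.symm
  suffices hs : ∃ m, w1 + l1 * m ∈ (AS1_hom k).range ∧ w2 + l2 * m ∈ (AS1_hom k).range by
    obtain ⟨m, ⟨z1, hz1⟩, ⟨z2, hz2⟩⟩ := hs
    exact ⟨m, z1, z2, hz1.symm, hz2.symm⟩
  have h0 : (0 : k) ∈ (AS1_hom k).range := (AS1_hom k).range.zero_mem
  by_cases hw1 : w1 ∈ (AS1_hom k).range <;> by_cases hw2 : w2 ∈ (AS1_hom k).range
  · exact ⟨0, by simpa using hw1, by simpa using hw2⟩
  · exact ⟨x, by rw [hadd]; tauto, by rw [hadd]; tauto⟩
  · exact ⟨y, by rw [hadd]; tauto, by rw [hadd]; tauto⟩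
  · exact ⟨x + y, by rw [hadd, mul_add, hadd]; tauto, by rw [hadd, mul_add, hadd]; tauto⟩

end Pool.Agent.MP009fd8E
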