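import Pool.Agent.Lib.MP_009fd8_agM.Glob
import Pool.Agent.Lib.MP_009fd8_agE.AS1

/-!
MP_009fd8_ag, EveryField: Artin-Schreier classes at a place above 2.
-/

namespace Pool.Agent.MP009fd8E

open IsDedekindDomain NumberField Pool.Agent.MP009fd8 Pool.Agent.MP009fd8M

variable {K : Type*} [Field K] [NumberField K]

private theorem as2_mem (v : HeightOneSpectrum (𝓞 K)) (a : 𝓞 K) :
    a ∈ v.asIdeal ↔
      Valued.v (algebraMap K (v.adicCompletion K) (algebraMap (𝓞 K) K a)) < 1 := by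
  rw [val_completion]
  exact (v.valuation_lt_one_iff_mem (K := K) a).symm

universe u in
private theorem as2_res {L : Type u} [Field L] [NumberField L] (v : HeightOneSpectrum (𝓞 L))
    (h2 : (2 : 𝓞 L) ∈ v.asIdeal) :
    ∃ (k : Type u) (_ : Field k) (_ : Finite k) (_ : CharP k 2) (φ : 𝓞 L →+* k),
      Function.Surjective φ ∧ ∀ a, φ a = 0 ↔ a ∈ v.asIdeal := by
  have hmax : v.asIdeal.IsMaximal := v.isMaximal
  let _ := Ideal.Quotient.field v.asIdeal
  have hfin : Finite (𝓞 L ⧸ v.asIdeal) := Ideal.finiteQuotientOfFreeOfNeBot _ v.ne_bot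
  refine ⟨𝓞 L ⧸ v.asIdeal, inferInstance, hfin,
    CharTwo.of_one_ne_zero_of_two_eq_zero one_ne_zero ?_, Ideal.Quotient.mk _,
    Ideal.Quotient.mk_surjective, fun a => Ideal.Quotient.eq_zero_iff_mem⟩
  have h3 : Ideal.Quotient.mk v.asIdeal 2 = 0 := Ideal.Quotient.eq_zero_iff_mem.2 h2
  rwa [map_ofNat] at h3

private theorem as2_fin (v : HeightOneSpectrum (𝓞 K)) (w l : v.adicCompletion K)
    (b a m z : 𝓞 K)
    (hw : Valued.v (w - algebraMap K (v.adicCompletion K) (algebraMap (𝓞 K) K b)) < 1)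
    (hl : Valued.v (l - algebraMap K (v.adicCompletion K) (algebraMap (𝓞 K) K a)) < 1)
    (h : b + a * m - z ^ 2 - z ∈ v.asIdeal) :
    Valued.v (w + l * algebraMap K (v.adicCompletion K) (algebraMap (𝓞 K) K m) -
      algebraMap K (v.adicCompletion K) (algebraMap (𝓞 K) K z) ^ 2 -
      algebraMap K (v.adicCompletion K) (algebraMap (𝓞 K) K z)) < 1 := by
  have e : w + l * algebraMap K (v.adicCompletion K) (algebraMap (𝓞 K) K m) -
      algebraMap K (v.adicCompletion K) (algebraMap (𝓞 K) K z) ^ 2 -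
      algebraMap K (v.adicCompletion K) (algebraMap (𝓞 K) K z) =
      (w - algebraMap K (v.adicCompletion K) (algebraMap (𝓞 K) K b)) +
        ((l - algebraMap K (v.adicCompletion K) (algebraMap (𝓞 K) K a)) *
          algebraMap K (v.adicCompletion K) (algebraMap (𝓞 K) K m) +
        algebraMap K (v.adicCompletion K) (algebraMap (𝓞 K) K (b + a * m - z ^ 2 - z))) := by
    simp only [map_sub, map_add, map_mul, map_pow]
    ring
  rw [e]
  refine Valuation.map_add_lt _ hw (Valuation.map_add_lt _ ?_ ((as2_mem v _).1 h))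
  rw [map_mul]
  calc _ ≤ Valued.v (l - algebraMap K (v.adicCompletion K) (algebraMap (𝓞 K) K a)) * 1 := by
        gcongr
        exact val_int_le_one v m
    _ < 1 := by rw [mul_one]; exact hl

private theorem as2_ne (v : HeightOneSpectrum (𝓞 K)) (x : v.adicCompletion K) (a : 𝓞 K)
    (hx : Valued.v (x - algebraMap K (v.adicCompletion K) (algebraMap (𝓞 K) K a)) < 1)
    (h1 : Valued.v x = 1) : a ∉ v.asIdeal := by
  intro h0
  have h2 := Valuation.map_add_lt _ hx ((as2_mem v a).1 h0)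
  rw [sub_add_cancel, h1] at h2
  exact lt_irrefl _ h2

/-- Proof: approximate l1, l2, w1, w2 by elements of the ring of integers (exists_int_sub_lt),
apply exists_as in the residue field, lift m, z1, z2 to the ring of integers. -/
theorem exists_as_adic (v : HeightOneSpectrum (𝓞 K)) (h2 : (2 : 𝓞 K) ∈ v.asIdeal)
    (l1 l2 w1 w2 : v.adicCompletion K)
    (h1 : (Valued.v : Valuation (v.adicCompletion K) (WithZero (Multiplicative ℤ))) l1 = 1)
    (h2' : (Valued.v : Valuation (v.adicCompletion K) (WithZero (Multiplicative ℤ))) l2 = 1)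
    (h : (Valued.v : Valuation (v.adicCompletion K) (WithZero (Multiplicative ℤ)))
      (l1 - l2) = 1)
    (hw1 : (Valued.v : Valuation (v.adicCompletion K) (WithZero (Multiplicative ℤ))) w1 ≤ 1)
    (hw2 : (Valued.v : Valuation (v.adicCompletion K) (WithZero (Multiplicative ℤ))) w2 ≤ 1) :
    ∃ m z1 z2 : v.adicCompletion K,
      (Valued.v : Valuation (v.adicCompletion K) (WithZero (Multiplicative ℤ))) m ≤ 1 ∧
      (Valued.v : Valuation (v.adicCompletion K) (WithZero (Multiplicative ℤ))) z1 ≤ 1 ∧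
      (Valued.v : Valuation (v.adicCompletion K) (WithZero (Multiplicative ℤ))) z2 ≤ 1 ∧
      (Valued.v : Valuation (v.adicCompletion K) (WithZero (Multiplicative ℤ)))
        (w1 + l1 * m - z1 ^ 2 - z1) < 1 ∧
      (Valued.v : Valuation (v.adicCompletion K) (WithZero (Multiplicative ℤ)))
        (w2 + l2 * m - z2 ^ 2 - z2) < 1 := by
  obtain ⟨k, _, _, _, φ, hφ, hker⟩ := as2_res v h2
  obtain ⟨a1, ha1⟩ := exists_int_sub_lt v l1 h1.le 1 one_pos
  obtain ⟨a2, ha2⟩ := exists_int_sub_lt v l2 h2'.le 1 one_pos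
  obtain ⟨b1, hb1⟩ := exists_int_sub_lt v w1 hw1 1 one_pos
  obtain ⟨b2, hb2⟩ := exists_int_sub_lt v w2 hw2 1 one_pos
  have e1 : φ a1 ≠ 0 := fun h0 => as2_ne v l1 a1 ha1 h1 ((hker _).1 h0)
  have e2 : φ a2 ≠ 0 := fun h0 => as2_ne v l2 a2 ha2 h2' ((hker _).1 h0)
  have e3 : φ a1 ≠ φ a2 := by
    intro h0
    refine as2_ne v (l1 - l2) (a1 - a2) ?_ h ((hker _).1 (by rw [map_sub, h0, sub_self]))
    have e : l1 - l2 - algebraMap K (v.adicCompletion K) (algebraMap (𝓞 K) K (a1 - a2)) =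
        (l1 - algebraMap K (v.adicCompletion K) (algebraMap (𝓞 K) K a1)) -
        (l2 - algebraMap K (v.adicCompletion K) (algebraMap (𝓞 K) K a2)) := by
      simp only [map_sub]
      ring
    rw [e]
    exact (Valuation.map_sub _ _ _).trans_lt (max_lt ha1 ha2)
  obtain ⟨m', z1', z2', g1, g2⟩ := exists_as (φ a1) (φ a2) (φ b1) (φ b2) e1 e2 e3
  obtain ⟨m, rfl⟩ := hφ m'
  obtain ⟨z1, rfl⟩ := hφ z1'
  obtain ⟨z2, rfl⟩ := hφ z2'
  refine ⟨_, _, _, val_int_le_one v m, val_int_le_one v z1, val_int_le_one v z2,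
    as2_fin v w1 l1 b1 a1 m z1 hb1 ha1 ((hker _).1 ?_),
    as2_fin v w2 l2 b2 a2 m z2 hb2 ha2 ((hker _).1 ?_)⟩
  · rw [map_sub, map_sub, map_add, map_mul, map_pow, g1]
    ring
  · rw [map_sub, map_sub, map_add, map_mul, map_pow, g2]
    ring

/-- Every integer of the completion is a square modulo the maximal ideal. -/
theorem exists_root_adic (v : HeightOneSpectrum (𝓞 K)) (h2 : (2 : 𝓞 K) ∈ v.asIdeal)
    (w : v.adicCompletion K)
    (hw : (Valued.v : Valuation (v.adicCompletion K) (WithZero (Multiplicative ℤ))) w ≤ 1) :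
    ∃ z : v.adicCompletion K,
      (Valued.v : Valuation (v.adicCompletion K) (WithZero (Multiplicative ℤ))) z ≤ 1 ∧
      (Valued.v : Valuation (v.adicCompletion K) (WithZero (Multiplicative ℤ)))
        (w - z ^ 2) < 1 := by
  obtain ⟨k, _, _, _, φ, hφ, hker⟩ := as2_res v h2
  obtain ⟨a, ha⟩ := exists_int_sub_lt v w hw 1 one_pos
  obtain ⟨z', hz'⟩ := FiniteField.isSquare_of_char_two (ringChar.eq k 2) (φ a)
  obtain ⟨z, rfl⟩ := hφ z'
  refine ⟨_, val_int_le_one v z, ?_⟩
  have h3 : a - z ^ 2 ∈ v.asIdeal := (hker _).1 (by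
    rw [map_sub, map_pow, hz']
    ring)
  have e : w - algebraMap K (v.adicCompletion K) (algebraMap (𝓞 K) K z) ^ 2 =
      (w - algebraMap K (v.adicCompletion K) (algebraMap (𝓞 K) K a)) +
        algebraMap K (v.adicCompletion K) (algebraMap (𝓞 K) K (a - z ^ 2)) := by
    simp only [map_sub, map_pow]
    ring
  rw [e]
  exact Valuation.map_add_lt _ ha ((as2_mem v _).1 h3)

end Pool.Agent.MP009fd8E
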