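import Mathlib

/-!
MP_009fd8_ag, EveryField: the exact local image at an unramified place above 2, computations in a
local domain whose nonunits are the multiples of 2.
-/

namespace Pool.Agent.MP009fd8E

variable {O : Type*} [CommRing O] [IsDomain O]

/-- n a unit, n = c^2 (1 + 2 e) modulo 4. -/
theorem ring_odd (h20 : (2 : O) ≠ 0)
    (h2u : ¬ IsUnit (2 : O)) (hloc : ∀ x : O, IsUnit x ∨ 2 ∣ x)
    (n a b c e k X Y Z W : O) (ha : IsUnit a) (hb : IsUnit b) (hn : IsUnit n)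
    (hc : IsUnit c) (hne : n = c ^ 2 * (1 + 2 * e) + 4 * k)
    (hprim : ¬ (2 ∣ X ∧ 2 ∣ Y ∧ 2 ∣ Z ∧ 2 ∣ W))
    (h1 : b * Y ^ 2 = a * X ^ 2 - n * W ^ 2) (h3 : a * b * Z ^ 2 = a * X ^ 2 + n * W ^ 2) :
    ∃ t g h : O, IsUnit g ∧ IsUnit h ∧
      8 ∣ a - g ^ 2 * ((1 + 2 * t ^ 2) * (1 + 4 * (t + e * (t ^ 4 + (1 + e) * t ^ 2 + t)))) ∧
      4 ∣ b - h ^ 2 * (1 + 2 * (t ^ 4 + (1 + e) * t ^ 2 + t)) := by
  have nd : ∀ x : O, IsUnit x → ¬ 2 ∣ x := fun x hx h => h2u (isUnit_of_dvd_unit h hx)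
  have un : ∀ x : O, ¬ 2 ∣ x → IsUnit x := fun x hx => (hloc x).resolve_right hx
  have sq : ∀ x : O, 2 ∣ x ^ 2 → 2 ∣ x := by
    intro x hx
    rcases hloc x with h | h
    · exact absurd hx (nd _ (h.pow 2))
    · exact h
  have odd : ∀ x : O, IsUnit (1 + 2 * x) := by
    intro x
    apply un
    rintro ⟨y, hy⟩
    apply h2u
    exact IsUnit.of_mul_eq_one (y - x) (by linear_combination -hy)
  have h2ne : ∀ {x y : O}, 2 * x = 2 * y → x = y := fun h => mul_left_cancel₀ h20 h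
  rcases hloc W with hW | ⟨w, hw⟩
  · rcases hloc X with hX | ⟨x, hx⟩
    · -- W and X units
      have hYZ : 2 ∣ Y → 2 ∣ Z → False := by
        rintro ⟨y, rfl⟩ ⟨z, rfl⟩
        have h5 : n * W ^ 2 = 2 * (a * b * z ^ 2 - b * y ^ 2) := by
          apply h2ne
          linear_combination h1 - h3
        exact nd _ (hn.mul (hW.pow 2)) ⟨_, h5⟩
      have hY : IsUnit Y := by
        apply un
        intro hY
        refine hYZ hY ?_
        apply sq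
        apply ((ha.mul hb).dvd_mul_left).1
        obtain ⟨y, rfl⟩ := hY
        exact ⟨a * X ^ 2 - 2 * b * y ^ 2, by linear_combination h1 + h3⟩
      have hZ : IsUnit Z := by
        apply un
        rintro ⟨z, rfl⟩
        refine nd _ (hb.mul (hY.pow 2)) ⟨a * X ^ 2 - 2 * a * b * z ^ 2, ?_⟩
        linear_combination h1 + h3
      obtain ⟨Y', hY'⟩ := hY.exists_right_inv
      obtain ⟨Z', hZ'⟩ := hZ.exists_right_inv
      obtain ⟨b', hb'⟩ := hb.exists_right_inv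
      have hYY : Y ^ 2 * Y' ^ 2 = 1 := by rw [← mul_pow, hY', one_pow]
      have hZZ : Z ^ 2 * Z' ^ 2 = 1 := by rw [← mul_pow, hZ', one_pow]
      have hZ'u : IsUnit Z' := IsUnit.of_mul_eq_one Z (by rw [mul_comm]; exact hZ')
      have hY'u : IsUnit Y' := IsUnit.of_mul_eq_one Y (by rw [mul_comm]; exact hY')
      obtain ⟨ω, hω⟩ : ∃ ω, ω = n * W ^ 2 * b' * Y' ^ 2 := ⟨_, rfl⟩
      have hωb : ω * (b * Y ^ 2) = n * W ^ 2 := by
        rw [hω]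
        linear_combination (n * W ^ 2 * (b * b')) * hYY + n * W ^ 2 * hb'
      -- a Z^2 = Y^2 (1 + 2 ω)
      have hA : a * Z ^ 2 = Y ^ 2 * (1 + 2 * ω) := by
        apply mul_left_cancel₀ hb.ne_zero
        linear_combination h3 - h1 - 2 * hωb
      have hX2 : a * X ^ 2 = b * Y ^ 2 * (1 + ω) := by linear_combination -h1 - hωb
      have hBZ : b * Z ^ 2 * (1 + ω) = X ^ 2 * (1 + 2 * ω) := by
        apply mul_left_cancel₀ (pow_ne_zero 2 hY.ne_zero)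
        linear_combination X ^ 2 * hA - Z ^ 2 * hX2
      have hω1 : IsUnit (1 + ω) := by
        have h5 : IsUnit (b * Y ^ 2 * (1 + ω)) := by rw [← hX2]; exact ha.mul (hX.pow 2)
        exact isUnit_of_mul_isUnit_right h5
      obtain ⟨P, hP⟩ : ∃ P, P = X * Y := ⟨_, rfl⟩
      obtain ⟨R, hR⟩ : ∃ R, R = c * W * Z := ⟨_, rfl⟩
      obtain ⟨S, hS⟩ : ∃ S, S = P + R := ⟨_, rfl⟩
      have hRu : IsUnit R := by rw [hR]; exact (hc.mul hW).mul hZ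
      have hPu : IsUnit P := by rw [hP]; exact hX.mul hY
      -- n W^2 Z^2 (1 + ω) = ω P^2 (1 + 2 ω)
      have hrel : n * W ^ 2 * Z ^ 2 * (1 + ω) = ω * P ^ 2 * (1 + 2 * ω) := by
        rw [hP]
        linear_combination (-(Z ^ 2 * (1 + ω))) * hωb + ω * Y ^ 2 * hBZ
      have hrel2 : (R ^ 2 * (1 + 2 * e) + 4 * (k * W ^ 2 * Z ^ 2)) * (1 + ω) =
          ω * P ^ 2 * (1 + 2 * ω) := by
        rw [← hrel, hR, hne]; ring
      -- R^2 = ω S^2 modulo 2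
      obtain ⟨ρ, hρ⟩ : ∃ ρ, R ^ 2 - ω * S ^ 2 = 2 * ρ := by
        refine ⟨-(R ^ 2 * e * (1 + ω)) - 2 * (k * W ^ 2 * Z ^ 2) * (1 + ω) + ω ^ 2 * P ^ 2
          - ω * P * R - ω * R ^ 2, ?_⟩
        rw [hS]
        linear_combination hrel2
      have hSu : IsUnit S := by
        apply un
        rintro ⟨σ, hσ⟩
        refine nd _ (hRu.pow 2) ⟨ρ + 2 * ω * σ ^ 2, ?_⟩
        rw [hσ] at hρ
        linear_combination hρ
      obtain ⟨S', hS'⟩ := hSu.exists_right_inv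
      have hSS : S ^ 2 * S' ^ 2 = 1 := by rw [← mul_pow, hS', one_pow]
      obtain ⟨t, ht⟩ : ∃ t, t = R * S' := ⟨_, rfl⟩
      have htS : t * S = R := by rw [ht]; linear_combination R * hS'
      have hPS : P = S * (1 - t) := by linear_combination htS - hS
      obtain ⟨k', hk'⟩ : ∃ k', k' = k * W ^ 2 * Z ^ 2 * S' ^ 2 := ⟨_, rfl⟩
      -- the relation divided by S^2
      have hrel3 : (t ^ 2 * (1 + 2 * e) + 4 * k') * (1 + ω) =
          ω * (1 - t) ^ 2 * (1 + 2 * ω) := by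
        apply mul_left_cancel₀ (pow_ne_zero 2 hSu.ne_zero)
        rw [hk']
        rw [hPS, ← htS] at hrel2
        linear_combination hrel2 + (4 * (k * W ^ 2 * Z ^ 2) * (1 + ω)) * hSS
      -- ω = t^2 + 2 lam
      obtain ⟨lam, hlam⟩ : ∃ lam, ω = t ^ 2 + 2 * lam := by
        refine ⟨-(ρ * S' ^ 2), ?_⟩
        have h5 : S ^ 2 * ω = S ^ 2 * (t ^ 2 + 2 * -(ρ * S' ^ 2)) := by
          rw [← htS] at hρ
          linear_combination -hρ + 2 * ρ * hSS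
        exact mul_left_cancel₀ (pow_ne_zero 2 hSu.ne_zero) h5
      -- lam modulo 2
      obtain ⟨ν, hν⟩ : ∃ ν, lam = e * (t ^ 2 + t ^ 4) + t ^ 3 + t ^ 4 + t ^ 6 + 2 * ν := by
        refine ⟨e * t ^ 2 * lam + k' * (1 + t ^ 2 + 2 * lam) + lam * t + t ^ 5
          - t ^ 2 * lam * (1 + t ^ 2) + 2 * lam * t ^ 3
          - lam * (t ^ 2 * (1 + t ^ 2) - 2 * t ^ 3 + 2 * lam * (1 + t ^ 2) - 4 * lam * t)
          - t ^ 4 - t ^ 6, h2ne ?_⟩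
        rw [hlam] at hrel3
        linear_combination (-1 : O) * hrel3
      obtain ⟨β, hβ⟩ : ∃ β, β = t ^ 4 + (1 + e) * t ^ 2 + t := ⟨_, rfl⟩
      obtain ⟨κ, hκ⟩ : ∃ κ, κ = t + e * β := ⟨_, rfl⟩
      obtain ⟨z, hz⟩ : ∃ z, z = t ^ 3 + t ^ 2 + t + e * t := ⟨_, rfl⟩
      obtain ⟨θ, hθ⟩ : ∃ θ, lam - κ - (z + z ^ 2) = 2 * θ := by
        refine ⟨ν - t - e * t - e ^ 2 * t ^ 2 - t ^ 2 -
          (t ^ 5 + t ^ 4 + e * t ^ 4 + t ^ 3 + e * t ^ 3 + e * t ^ 2), ?_⟩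
        rw [hν, hκ, hβ, hz]
        ring
      have hE1 : 1 + 2 * ω = (1 + 2 * z) ^ 2 * ((1 + 2 * t ^ 2) * (1 + 4 * κ)) +
          8 * (θ - t ^ 2 * (κ + (z + z ^ 2)) - 2 * κ * (z + z ^ 2) * (1 + 2 * t ^ 2)) := by
        rw [hlam]
        linear_combination 4 * hθ
      refine ⟨t, Y * Z' * (1 + 2 * z), S * Y' * Z', (hY.mul hZ'u).mul (odd z),
        (hSu.mul hY'u).mul hZ'u, ?_, ?_⟩
      · rw [← hβ, ← hκ]
        refine ⟨Y ^ 2 * Z' ^ 2 * (θ - t ^ 2 * (κ + (z + z ^ 2)) -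
          2 * κ * (z + z ^ 2) * (1 + 2 * t ^ 2)), ?_⟩
        linear_combination Z' ^ 2 * hA - a * hZZ + (Y ^ 2 * Z' ^ 2) * hE1
      · rw [← hβ]
        have hE2 : (1 - t) ^ 2 * (1 + 2 * ω) - (1 + 2 * β) * (1 + ω) =
            4 * (-t - 2 * t ^ 3 - t ^ 4 - t ^ 6 - e * t ^ 4 - e * t ^ 2 - ν +
              lam * (1 - t) ^ 2 - β * lam) := by
          rw [hlam]
          have h5 : 2 * lam + 2 * β * (1 + t ^ 2) = 2 * (2 * t ^ 6 + (3 + 2 * e) * t ^ 4 +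
              2 * t ^ 3 + (1 + 2 * e) * t ^ 2 + t) + 4 * ν := by
            rw [hν, hβ]; ring
          linear_combination (-1 : O) * h5
        have hu : IsUnit ((1 + ω) * Z ^ 2 * Y ^ 2) := (hω1.mul (hZ.pow 2)).mul (hY.pow 2)
        apply (hu.dvd_mul_left).1
        refine ⟨S ^ 2 * (-t - 2 * t ^ 3 - t ^ 4 - t ^ 6 - e * t ^ 4 - e * t ^ 2 - ν +
              lam * (1 - t) ^ 2 - β * lam), ?_⟩
        have hPX : X ^ 2 * Y ^ 2 = S ^ 2 * (1 - t) ^ 2 := by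
          have : X ^ 2 * Y ^ 2 = P ^ 2 := by rw [hP]; ring
          rw [this, hPS]; ring
        linear_combination Y ^ 2 * hBZ + (1 + 2 * ω) * hPX + S ^ 2 * hE2
          - (1 + ω) * S ^ 2 * (1 + 2 * β) * (Z ^ 2 * Z' ^ 2) * hYY
          - (1 + ω) * S ^ 2 * (1 + 2 * β) * hZZ
    · -- W unit, X = 2 x
      have hY : IsUnit Y := by
        apply un
        rintro ⟨y, hy⟩
        refine nd _ (hn.mul (hW.pow 2)) ⟨2 * a * x ^ 2 - 2 * b * y ^ 2, ?_⟩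
        rw [hx, hy] at h1
        linear_combination h1
      have hZ : IsUnit Z := by
        apply un
        rintro ⟨z, hz⟩
        refine nd _ (hn.mul (hW.pow 2)) ⟨2 * a * b * z ^ 2 - 2 * a * x ^ 2, ?_⟩
        rw [hx, hz] at h3
        linear_combination -h3
      obtain ⟨Y', hY'⟩ := hY.exists_right_inv
      obtain ⟨Z', hZ'⟩ := hZ.exists_right_inv
      obtain ⟨E', hE'⟩ := (odd e).exists_right_inv
      have hE'u : IsUnit E' := IsUnit.of_mul_eq_one (1 + 2 * e) (by rw [mul_comm]; exact hE')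
      have hZ'u : IsUnit Z' := IsUnit.of_mul_eq_one Z (by rw [mul_comm]; exact hZ')
      have hY'u : IsUnit Y' := IsUnit.of_mul_eq_one Y (by rw [mul_comm]; exact hY')
      have hYY : Y ^ 2 * Y' ^ 2 = 1 := by rw [← mul_pow, hY', one_pow]
      have hZZ : Z ^ 2 * Z' ^ 2 = 1 := by rw [← mul_pow, hZ', one_pow]
      have hEE : (1 + 2 * e) ^ 2 * E' ^ 2 = 1 := by rw [← mul_pow, hE', one_pow]
      have h8 : 8 ∣ a * Z ^ 2 + Y ^ 2 := by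
        apply (hb.dvd_mul_left).1
        refine ⟨a * x ^ 2, ?_⟩
        rw [hx] at h1 h3
        linear_combination h1 + h3
      obtain ⟨k8, hk8⟩ := h8
      refine ⟨1, Y * Z' * E', c * W * Y', (hY.mul hZ'u).mul hE'u, (hc.mul hW).mul hY'u, ?_, ?_⟩
      · refine ⟨Z' ^ 2 * k8 - Y ^ 2 * Z' ^ 2 * E' ^ 2 * (2 + 5 * e + 2 * e ^ 2), ?_⟩
        linear_combination Z' ^ 2 * hk8 - a * hZZ + Y ^ 2 * Z' ^ 2 * hEE
      · refine ⟨-(W ^ 2 * Y' ^ 2 * (c ^ 2 * (2 + e) + k)) + a * x ^ 2 * Y' ^ 2, ?_⟩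
        rw [hx, hne] at h1
        linear_combination Y' ^ 2 * h1 - b * hYY
  · -- W = 2 w
    have hX : IsUnit X := by
      apply un
      rintro ⟨x, hx⟩
      apply hprim
      refine ⟨⟨x, hx⟩, ?_, ?_, ⟨w, hw⟩⟩
      · apply sq
        apply (hb.dvd_mul_left).1
        exact ⟨2 * a * x ^ 2 - 2 * n * w ^ 2, by rw [h1, hx, hw]; ring⟩
      · apply sq
        apply ((ha.mul hb).dvd_mul_left).1
        exact ⟨2 * a * x ^ 2 + 2 * n * w ^ 2, by rw [h3, hx, hw]; ring⟩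
    have hY : IsUnit Y := by
      apply un
      rintro ⟨y, hy⟩
      refine nd _ (ha.mul (hX.pow 2)) ⟨2 * b * y ^ 2 + 2 * n * w ^ 2, ?_⟩
      rw [hy, hw] at h1
      linear_combination -h1
    have hZ : IsUnit Z := by
      apply un
      rintro ⟨z, hz⟩
      refine nd _ (ha.mul (hX.pow 2)) ⟨2 * a * b * z ^ 2 - 2 * n * w ^ 2, ?_⟩
      rw [hz, hw] at h3
      linear_combination -h3
    obtain ⟨Z', hZ'⟩ := hZ.exists_right_inv
    have hZ'u : IsUnit Z' := IsUnit.of_mul_eq_one Z (by rw [mul_comm]; exact hZ')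
    have hZZ : Z ^ 2 * Z' ^ 2 = 1 := by rw [← mul_pow, hZ', one_pow]
    have h8 : 8 ∣ a * Z ^ 2 - Y ^ 2 := by
      apply (hb.dvd_mul_left).1
      refine ⟨n * w ^ 2, ?_⟩
      rw [hw] at h1 h3
      linear_combination h3 - h1
    obtain ⟨k8, hk8⟩ := h8
    have h4 : 4 ∣ b * Z ^ 2 - X ^ 2 := by
      apply (ha.dvd_mul_left).1
      refine ⟨n * w ^ 2, ?_⟩
      rw [hw] at h3
      linear_combination h3
    obtain ⟨k4, hk4⟩ := h4
    refine ⟨0, Y * Z', X * Z', hY.mul hZ'u, hX.mul hZ'u, ⟨Z' ^ 2 * k8, ?_⟩, ⟨Z' ^ 2 * k4, ?_⟩⟩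
    · linear_combination Z' ^ 2 * hk8 - a * hZZ
    · linear_combination Z' ^ 2 * hk4 - b * hZZ

/-- n = 2 m with m a unit, m = c^2 (1 + 2 μ) modulo 4. -/
theorem ring_even (h20 : (2 : O) ≠ 0)
    (h2u : ¬ IsUnit (2 : O)) (hloc : ∀ x : O, IsUnit x ∨ 2 ∣ x)
    (m a b c μ k X Y Z W : O) (ha : IsUnit a) (hb : IsUnit b) (hm : IsUnit m)
    (hc : IsUnit c) (hmc : m = c ^ 2 * (1 + 2 * μ) + 4 * k)
    (hprim : ¬ (2 ∣ X ∧ 2 ∣ Y ∧ 2 ∣ Z ∧ 2 ∣ W))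
    (h1 : b * Y ^ 2 = a * X ^ 2 - 2 * m * W ^ 2)
    (h3 : a * b * Z ^ 2 = a * X ^ 2 + 2 * m * W ^ 2) :
    ∃ r g h : O, IsUnit g ∧ IsUnit h ∧ 8 ∣ a - g ^ 2 * (1 + 4 * r) ∧
      8 ∣ b - h ^ 2 * ((1 + 2 * r ^ 2) * (1 + 4 * (μ * r ^ 2))) := by
  have nd : ∀ x : O, IsUnit x → ¬ 2 ∣ x := fun x hx h => h2u (isUnit_of_dvd_unit h hx)
  have un : ∀ x : O, ¬ 2 ∣ x → IsUnit x := fun x hx => (hloc x).resolve_right hx
  have sq : ∀ x : O, 2 ∣ x ^ 2 → 2 ∣ x := by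
    intro x hx
    rcases hloc x with h | h
    · exact absurd hx (nd _ (h.pow 2))
    · exact h
  have odd : ∀ x : O, IsUnit (1 + 2 * x) := by
    intro x
    apply un
    rintro ⟨y, hy⟩
    apply h2u
    exact IsUnit.of_mul_eq_one (y - x) (by linear_combination -hy)
  have hX : IsUnit X := by
    rcases hloc X with h | ⟨x, hx⟩
    · exact h
    · exfalso
      have hY : 2 ∣ Y := by
        apply sq
        apply (hb.dvd_mul_left).1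
        exact ⟨2 * a * x ^ 2 - m * W ^ 2, by rw [h1, hx]; ring⟩
      have hZ : 2 ∣ Z := by
        apply sq
        apply ((ha.mul hb).dvd_mul_left).1
        exact ⟨2 * a * x ^ 2 + m * W ^ 2, by rw [h3, hx]; ring⟩
      have hW : 2 ∣ W := by
        apply sq
        apply (hm.dvd_mul_left).1
        obtain ⟨y, hy⟩ := hY
        refine ⟨a * x ^ 2 - b * y ^ 2, ?_⟩
        apply mul_left_cancel₀ h20
        rw [hx, hy] at h1
        linear_combination h1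
      exact hprim ⟨⟨x, hx⟩, hY, hZ, hW⟩
  have hY : IsUnit Y := by
    apply un
    rintro ⟨y, hy⟩
    refine nd _ (ha.mul (hX.pow 2)) ⟨b * (2 * y ^ 2) + m * W ^ 2, ?_⟩
    rw [hy] at h1
    linear_combination -h1
  have hZ : IsUnit Z := by
    apply un
    rintro ⟨z, hz⟩
    refine nd _ (ha.mul (hX.pow 2)) ⟨a * b * (2 * z ^ 2) - m * W ^ 2, ?_⟩
    rw [hz] at h3
    linear_combination -h3
  obtain ⟨X', hX'⟩ := hX.exists_right_inv
  obtain ⟨Y', hY'⟩ := hY.exists_right_inv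
  obtain ⟨Z', hZ'⟩ := hZ.exists_right_inv
  obtain ⟨b', hb'⟩ := hb.exists_right_inv
  have hXX : X ^ 2 * X' ^ 2 = 1 := by rw [← mul_pow, hX', one_pow]
  have hYY : Y ^ 2 * Y' ^ 2 = 1 := by rw [← mul_pow, hY', one_pow]
  have hZZ : Z ^ 2 * Z' ^ 2 = 1 := by rw [← mul_pow, hZ', one_pow]
  have hZ'u : IsUnit Z' := IsUnit.of_mul_eq_one Z (by rw [mul_comm]; exact hZ')
  obtain ⟨τ, hτ⟩ : ∃ τ, τ = m * W ^ 2 * b' * Y' ^ 2 := ⟨_, rfl⟩
  have hτb : τ * (b * Y ^ 2) = m * W ^ 2 := by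
    rw [hτ]
    linear_combination (m * W ^ 2 * (b * b')) * hYY + m * W ^ 2 * hb'
  have hA : a * Z ^ 2 = Y ^ 2 * (1 + 4 * τ) := by
    apply mul_left_cancel₀ hb.ne_zero
    linear_combination h3 - h1 - 4 * hτb
  have hX2 : a * X ^ 2 = b * Y ^ 2 * (1 + 2 * τ) := by linear_combination -h1 - 2 * hτb
  have hBZ : b * Z ^ 2 * (1 + 2 * τ) = X ^ 2 * (1 + 4 * τ) := by
    apply mul_left_cancel₀ (pow_ne_zero 2 hY.ne_zero)
    linear_combination X ^ 2 * hA - Z ^ 2 * hX2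
  obtain ⟨T', hT'⟩ := (odd τ).exists_right_inv
  have hT'u : IsUnit T' := IsUnit.of_mul_eq_one (1 + 2 * τ) (by rw [mul_comm]; exact hT')
  have hTT : (1 + 2 * τ) ^ 2 * T' ^ 2 = 1 := by rw [← mul_pow, hT', one_pow]
  -- r = c W Z / (X Y)
  obtain ⟨r, hr⟩ : ∃ r, r = c * W * Z * X' * Y' := ⟨_, rfl⟩
  obtain ⟨k', hk'⟩ : ∃ k', k' = k * W ^ 2 * Z ^ 2 * X' ^ 2 * Y' ^ 2 := ⟨_, rfl⟩
  have hrel : (r ^ 2 * (1 + 2 * μ) + 4 * k') * (1 + 2 * τ) = τ * (1 + 4 * τ) := by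
    have h5 : m * W ^ 2 * Z ^ 2 * (1 + 2 * τ) = τ * X ^ 2 * Y ^ 2 * (1 + 4 * τ) := by
      linear_combination (-(Z ^ 2 * (1 + 2 * τ))) * hτb + τ * Y ^ 2 * hBZ
    have h6 : (r ^ 2 * (1 + 2 * μ) + 4 * k') * (1 + 2 * τ) =
        m * W ^ 2 * Z ^ 2 * (1 + 2 * τ) * (X' ^ 2 * Y' ^ 2) := by
      rw [hr, hk', hmc]; ring
    rw [h6, h5]
    linear_combination (τ * (1 + 4 * τ) * (Y ^ 2 * Y' ^ 2)) * hXX + τ * (1 + 4 * τ) * hYY
  obtain ⟨σ, hσ⟩ : ∃ σ, τ = r ^ 2 + 2 * σ :=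
    ⟨μ * r ^ 2 + 2 * k' + τ * (r ^ 2 * (1 + 2 * μ) + 4 * k') - 2 * τ ^ 2, by
      linear_combination (-1 : O) * hrel⟩
  obtain ⟨ς, hς⟩ : ∃ ς, σ = μ * r ^ 2 + r ^ 4 + 2 * ς := by
    refine ⟨μ * r ^ 4 + 2 * μ * r ^ 2 * σ + k' * (1 + 2 * (r ^ 2 + 2 * σ)) - r ^ 4
      - 3 * r ^ 2 * σ - 4 * σ ^ 2, mul_left_cancel₀ h20 ?_⟩
    rw [hσ] at hrel
    linear_combination (-1 : O) * hrel
  refine ⟨r, Y * Z' * (1 + 2 * r), X * Z' * T' * (1 + 2 * r ^ 2),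
    (hY.mul hZ'u).mul (odd r), ((hX.mul hZ'u).mul hT'u).mul (odd _), ?_, ?_⟩
  · have hE1 : 1 + 4 * τ = (1 + 2 * r) ^ 2 * (1 + 4 * r) +
        8 * (σ - r - 2 * r ^ 2 - 2 * r ^ 3) := by
      rw [hσ]; ring
    refine ⟨Y ^ 2 * Z' ^ 2 * (σ - r - 2 * r ^ 2 - 2 * r ^ 3), ?_⟩
    linear_combination Z' ^ 2 * hA - a * hZZ + (Y ^ 2 * Z' ^ 2) * hE1
  · have hE2 : (1 + 4 * τ) * (1 + 2 * τ) = (1 + 2 * r ^ 2) ^ 2 * ((1 + 2 * r ^ 2) *
        (1 + 4 * (μ * r ^ 2))) + 8 * (μ * r ^ 2 + 3 * ς + τ ^ 2 - r ^ 6 - 3 * μ * r ^ 4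
          - 6 * μ * r ^ 6 - 4 * μ * r ^ 8) := by
      have h5 : (1 + 4 * τ) * (1 + 2 * τ) = 1 + 6 * τ + 8 * τ ^ 2 := by ring
      rw [h5]
      linear_combination 6 * hσ + 12 * hς
    refine ⟨X ^ 2 * Z' ^ 2 * T' ^ 2 * (μ * r ^ 2 + 3 * ς + τ ^ 2 - r ^ 6 - 3 * μ * r ^ 4
          - 6 * μ * r ^ 6 - 4 * μ * r ^ 8), ?_⟩
    linear_combination Z' ^ 2 * T' ^ 2 * (1 + 2 * τ) * hBZ - b * (Z ^ 2 * Z' ^ 2) * hTT
      - b * hZZ + (X ^ 2 * Z' ^ 2 * T' ^ 2) * hE2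

end Pool.Agent.MP009fd8E
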