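import Pool.Agent.Lib.MP_009fd8_ag.Def
import Pool.Agent.Lib.MP_009fd8_agE.Ring8

/-!
MP_009fd8_ag, EveryField: the exact local image at an unramified place above 2, in a valued field
with a dense ring of integers.
-/

namespace Pool.Agent.MP009fd8E

open Pool.Agent.MP009fd8

variable {F : Type*} [Field F] {Γ : Type*} [LinearOrderedCommGroupWithZero Γ]

/-- A primitive point. -/
theorem exists_primitive (v : Valuation F Γ) (n a b : F) (h : HasPoint n a b) :
    ∃ X Y Z W : F, v X ≤ 1 ∧ v Y ≤ 1 ∧ v Z ≤ 1 ∧ v W ≤ 1 ∧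
      (v X = 1 ∨ v Y = 1 ∨ v Z = 1 ∨ v W = 1) ∧
      b * Y ^ 2 = a * X ^ 2 - n * W ^ 2 ∧ a * b * Z ^ 2 = a * X ^ 2 + n * W ^ 2 := by
  classical
  obtain ⟨X, Y, Z, W, hne, h1, h3⟩ := h
  obtain ⟨M, hM, hmax⟩ := Finset.exists_max_image ({X, Y, Z, W} : Finset F) v ⟨X, by simp⟩
  have hX : v X ≤ v M := hmax X (by simp)
  have hY : v Y ≤ v M := hmax Y (by simp)
  have hZ : v Z ≤ v M := hmax Z (by simp)
  have hW : v W ≤ v M := hmax W (by simp)
  have hM0 : M ≠ 0 := by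
    rintro rfl
    rw [map_zero, le_zero_iff, Valuation.zero_iff] at hX hY hZ hW
    rcases hne with h | h | h | h
    · exact h hX
    · exact h hY
    · exact h hZ
    · exact h hW
  have hvM : 0 < v M := zero_lt_iff.2 ((Valuation.ne_zero_iff v).2 hM0)
  have hdiv : ∀ x : F, v x ≤ v M → v (x / M) ≤ 1 := by
    intro x hx
    rw [map_div₀]
    exact (div_le_one₀ hvM).2 hx
  have hMM : v (M / M) = 1 := by rw [div_self hM0, map_one]
  refine ⟨X / M, Y / M, Z / M, W / M, hdiv X hX, hdiv Y hY, hdiv Z hZ, hdiv W hW, ?_, ?_, ?_⟩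
  · have hM' : M = X ∨ M = Y ∨ M = Z ∨ M = W := by simpa using hM
    rcases hM' with hM' | hM' | hM' | hM'
    · exact Or.inl (by rw [← hM']; exact hMM)
    · exact Or.inr (Or.inl (by rw [← hM']; exact hMM))
    · exact Or.inr (Or.inr (Or.inl (by rw [← hM']; exact hMM)))
    · exact Or.inr (Or.inr (Or.inr (by rw [← hM']; exact hMM)))
  · field_simp
    linear_combination h1
  · field_simp
    linear_combination h3

section integer

variable (v : Valuation F Γ)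

theorem isUnit_iff (x : v.integer) : IsUnit x ↔ v (x : F) = 1 := by
  constructor
  · intro hx
    obtain ⟨y, hy⟩ := hx.exists_right_inv
    have e1 : v (x : F) * v (y : F) = 1 := by
      rw [← map_mul]
      have := congrArg (fun t : v.integer => v (t : F)) hy
      simpa using this
    apply le_antisymm x.2
    by_contra hlt
    rw [not_le] at hlt
    have : v (x : F) * v (y : F) < 1 := by
      calc v (x : F) * v (y : F) ≤ v (x : F) * 1 := by
            exact mul_le_mul_right y.2 _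
        _ < 1 := by rw [mul_one]; exact hlt
    exact (ne_of_lt this) e1
  · intro hx
    have hx0 : (x : F) ≠ 0 := by
      intro h0
      rw [h0, map_zero] at hx
      exact zero_ne_one hx
    refine IsUnit.of_mul_eq_one (⟨(x : F)⁻¹, ?_⟩ : v.integer) ?_
    · rw [Valuation.mem_integer_iff, map_inv₀, hx, inv_one]
    · apply Subtype.ext
      simp [hx0]

theorem dvd_iff (N x : v.integer) (hN : (N : F) ≠ 0) : N ∣ x ↔ v (x : F) ≤ v (N : F) := by
  have hvN : 0 < v (N : F) := zero_lt_iff.2 ((Valuation.ne_zero_iff v).2 hN)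
  constructor
  · rintro ⟨t, rfl⟩
    simp only [Subring.coe_mul, map_mul]
    calc v (N : F) * v (t : F) ≤ v (N : F) * 1 := mul_le_mul_right t.2 _
      _ = v (N : F) := mul_one _
  · intro h
    refine ⟨⟨(x : F) / N, ?_⟩, ?_⟩
    · rw [Valuation.mem_integer_iff, map_div₀]
      exact (div_le_one₀ hvN).2 h
    · apply Subtype.ext
      simp only [Subring.coe_mul]
      field_simp

end integer

/-- The odd case with approximation: R is a ring with a map to F with dense image in the ring of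
integers. -/
theorem odd_at_two {R : Type*} [CommRing R] (v : Valuation F Γ) (φ : R →+* F)
    (hφ : ∀ x, v (φ x) ≤ 1) (h2 : v 2 < 1) (h20 : (2 : F) ≠ 0)
    (hmax : ∀ x : F, v x < 1 → v x ≤ v 2)
    (hdense : ∀ x : F, v x ≤ 1 → ∃ y : R, v (x - φ y) ≤ v 8)
    (n a b : F) (c e : R) (hn : v n = 1) (ha : v a = 1) (hb : v b = 1)
    (hne : v (n - φ (c ^ 2 * (1 + 2 * e))) ≤ v 4) (h : HasPoint n a b) :
    ∃ t g k : R,
      v (a - φ (g ^ 2 * ((1 + 2 * t ^ 2) *
        (1 + 4 * (t + e * (t ^ 4 + (1 + e) * t ^ 2 + t)))))) ≤ v 8 ∧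
      v (b - φ (k ^ 2 * (1 + 2 * (t ^ 4 + (1 + e) * t ^ 2 + t)))) ≤ v 4 := by
  obtain ⟨X, Y, Z, W, hX, hY, hZ, hW, hprim, h1, h3⟩ := exists_primitive v n a b h
  have e2 : ((2 : v.integer) : F) = 2 := rfl
  have e4 : ((4 : v.integer) : F) = 4 := rfl
  have e8 : ((8 : v.integer) : F) = 8 := rfl
  have h40 : (4 : F) ≠ 0 := by
    have : (4 : F) = 2 * 2 := by norm_num
    rw [this]; exact mul_ne_zero h20 h20
  have h80 : (8 : F) ≠ 0 := by
    have : (8 : F) = 2 * 4 := by norm_num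
    rw [this]; exact mul_ne_zero h20 h40
  have hv84 : v (8 : F) ≤ v 4 := by
    have : (8 : F) = 2 * 4 := by norm_num
    rw [this, map_mul]
    calc v 2 * v 4 ≤ 1 * v 4 := mul_le_mul_left h2.le _
      _ = v 4 := one_mul _
  have hv41 : v (4 : F) < 1 := by
    have : (4 : F) = 2 * 2 := by norm_num
    rw [this, map_mul]
    calc v 2 * v 2 ≤ v 2 * 1 := mul_le_mul_right h2.le _
      _ < 1 := by rw [mul_one]; exact h2
  have hlt_iff : ∀ x : v.integer, 2 ∣ x ↔ v (x : F) < 1 := by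
    intro x
    rw [dvd_iff v 2 x (by rw [e2]; exact h20), e2]
    exact ⟨fun hx => lt_of_le_of_lt hx h2, fun hx => hmax _ hx⟩
  have hloc : ∀ x : v.integer, IsUnit x ∨ 2 ∣ x := by
    intro x
    rcases lt_or_eq_of_le x.2 with hx | hx
    · exact Or.inr ((hlt_iff x).2 hx)
    · exact Or.inl ((isUnit_iff v x).2 hx)
  obtain ⟨C, hC⟩ : ∃ C : v.integer, (C : F) = φ c := ⟨⟨φ c, hφ c⟩, rfl⟩
  obtain ⟨E, hE⟩ : ∃ E : v.integer, (E : F) = φ e := ⟨⟨φ e, hφ e⟩, rfl⟩
  obtain ⟨N, hN⟩ : ∃ N : v.integer, (N : F) = n := ⟨⟨n, hn.le⟩, rfl⟩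
  obtain ⟨A, hA⟩ : ∃ A : v.integer, (A : F) = a := ⟨⟨a, ha.le⟩, rfl⟩
  obtain ⟨B, hB⟩ : ∃ B : v.integer, (B : F) = b := ⟨⟨b, hb.le⟩, rfl⟩
  have hNE : 4 ∣ N - C ^ 2 * (1 + 2 * E) := by
    rw [dvd_iff v 4 _ (by rw [e4]; exact h40), e4]
    simp only [Subring.coe_mul, AddSubgroupClass.coe_sub, Subring.coe_add, Subring.coe_pow,
      Subring.coe_one, hN, hC, hE, e2]
    simp only [map_mul, map_add, map_pow, map_one, map_ofNat] at hne
    exact hne
  obtain ⟨k, hk⟩ := hNE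
  have hNu : IsUnit N := (isUnit_iff v N).2 (by rw [hN]; exact hn)
  have hCu : IsUnit C := by
    rcases hloc C with h | ⟨x, hx⟩
    · exact h
    · exfalso
      have h5 : 2 ∣ N := ⟨2 * x ^ 2 * (1 + 2 * E) + 2 * k, by
        rw [hx] at hk; linear_combination hk⟩
      rw [hlt_iff, hN, hn] at h5
      exact lt_irrefl _ h5
  have key := ring_odd (O := v.integer)
    (fun h => h20 (congrArg (fun t : v.integer => (t : F)) h))
    (fun h => by
      rw [isUnit_iff, e2] at h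
      exact (ne_of_lt h2) h)
    hloc N A B C E k ⟨X, hX⟩ ⟨Y, hY⟩ ⟨Z, hZ⟩ ⟨W, hW⟩
    ((isUnit_iff v A).2 (by rw [hA]; exact ha)) ((isUnit_iff v B).2 (by rw [hB]; exact hb))
    hNu hCu (by linear_combination hk)
    (by
      rw [hlt_iff, hlt_iff, hlt_iff, hlt_iff]
      rintro ⟨d1, d2, d3, d4⟩
      rcases hprim with h | h | h | h
      · exact (ne_of_lt d1) h
      · exact (ne_of_lt d2) h
      · exact (ne_of_lt d3) h
      · exact (ne_of_lt d4) h)
    (by
      apply Subtype.ext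
      simp only [Subring.coe_mul, AddSubgroupClass.coe_sub, Subring.coe_pow, hA, hB, hN]
      exact h1)
    (by
      apply Subtype.ext
      simp only [Subring.coe_mul, Subring.coe_add, Subring.coe_pow, hA, hB, hN]
      exact h3)
  obtain ⟨T, G, H, -, -, hAG, hBH⟩ := key
  -- approximation
  obtain ⟨t, ht⟩ := hdense (T : F) T.2
  obtain ⟨g, hg⟩ := hdense (G : F) G.2
  obtain ⟨y, hy⟩ := hdense (H : F) H.2
  obtain ⟨T', hT'⟩ : ∃ T' : v.integer, (T' : F) = φ t := ⟨⟨φ t, hφ t⟩, rfl⟩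
  obtain ⟨G', hG'⟩ : ∃ G' : v.integer, (G' : F) = φ g := ⟨⟨φ g, hφ g⟩, rfl⟩
  obtain ⟨H', hH'⟩ : ∃ H' : v.integer, (H' : F) = φ y := ⟨⟨φ y, hφ y⟩, rfl⟩
  have hTT : 8 ∣ T - T' := by
    rw [dvd_iff v 8 _ (by rw [e8]; exact h80), e8, AddSubgroupClass.coe_sub, hT']
    exact ht
  have hGG : 8 ∣ G - G' := by
    rw [dvd_iff v 8 _ (by rw [e8]; exact h80), e8, AddSubgroupClass.coe_sub, hG']
    exact hg
  have hHH : 8 ∣ H - H' := by
    rw [dvd_iff v 8 _ (by rw [e8]; exact h80), e8, AddSubgroupClass.coe_sub, hH']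
    exact hy
  have tr : ∀ (M : v.integer) (P Q : v.integer), M ∣ P - Q ↔
      Ideal.Quotient.mk (Ideal.span {M}) P = Ideal.Quotient.mk (Ideal.span {M}) Q := by
    intro M P Q
    rw [Ideal.Quotient.eq, Ideal.mem_span_singleton]
  refine ⟨t, g, y, ?_, ?_⟩
  · have h9 : 8 ∣ A - G' ^ 2 * ((1 + 2 * T' ^ 2) *
        (1 + 4 * (T' + E * (T' ^ 4 + (1 + E) * T' ^ 2 + T')))) := by
      rw [tr] at hAG hTT hGG ⊢
      rw [hAG]
      simp only [map_mul, map_add, map_pow, map_one, map_ofNat, hTT, hGG]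
    rw [dvd_iff v 8 _ (by rw [e8]; exact h80), e8] at h9
    simp only [Subring.coe_mul, AddSubgroupClass.coe_sub, Subring.coe_add, Subring.coe_pow,
      Subring.coe_one, hA, hG', hT', hE, e2, e4] at h9
    simp only [map_mul, map_add, map_pow, map_one, map_ofNat]
    exact h9
  · have hTT4 : 4 ∣ T - T' := dvd_trans ⟨2, by norm_num⟩ hTT
    have hHH4 : 4 ∣ H - H' := dvd_trans ⟨2, by norm_num⟩ hHH
    have h9 : 4 ∣ B - H' ^ 2 * (1 + 2 * (T' ^ 4 + (1 + E) * T' ^ 2 + T')) := by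
      rw [tr] at hBH hTT4 hHH4 ⊢
      rw [hBH]
      simp only [map_mul, map_add, map_pow, map_one, map_ofNat, hTT4, hHH4]
    rw [dvd_iff v 4 _ (by rw [e4]; exact h40), e4] at h9
    simp only [Subring.coe_mul, AddSubgroupClass.coe_sub, Subring.coe_add, Subring.coe_pow,
      Subring.coe_one, hB, hH', hT', hE, e2] at h9
    simp only [map_mul, map_add, map_pow, map_one, map_ofNat]
    exact h9

/-- The even case with approximation. -/
theorem even_at_two {R : Type*} [CommRing R] (v : Valuation F Γ) (φ : R →+* F)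
    (hφ : ∀ x, v (φ x) ≤ 1) (h2 : v 2 < 1) (h20 : (2 : F) ≠ 0)
    (hmax : ∀ x : F, v x < 1 → v x ≤ v 2)
    (hdense : ∀ x : F, v x ≤ 1 → ∃ y : R, v (x - φ y) ≤ v 8)
    (m a b : F) (c μ : R) (hm : v m = 1) (ha : v a = 1) (hb : v b = 1)
    (hmc : v (m - φ (c ^ 2 * (1 + 2 * μ))) ≤ v 4) (h : HasPoint (2 * m) a b) :
    ∃ r g k : R, v (a - φ (g ^ 2 * (1 + 4 * r))) ≤ v 8 ∧
      v (b - φ (k ^ 2 * ((1 + 2 * r ^ 2) * (1 + 4 * (μ * r ^ 2))))) ≤ v 8 := by
  obtain ⟨X, Y, Z, W, hX, hY, hZ, hW, hprim, h1, h3⟩ := exists_primitive v (2 * m) a b h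
  have e2 : ((2 : v.integer) : F) = 2 := rfl
  have e4 : ((4 : v.integer) : F) = 4 := rfl
  have e8 : ((8 : v.integer) : F) = 8 := rfl
  have h40 : (4 : F) ≠ 0 := by
    have : (4 : F) = 2 * 2 := by norm_num
    rw [this]; exact mul_ne_zero h20 h20
  have h80 : (8 : F) ≠ 0 := by
    have : (8 : F) = 2 * 4 := by norm_num
    rw [this]; exact mul_ne_zero h20 h40
  have hlt_iff : ∀ x : v.integer, 2 ∣ x ↔ v (x : F) < 1 := by
    intro x
    rw [dvd_iff v 2 x (by rw [e2]; exact h20), e2]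
    exact ⟨fun hx => lt_of_le_of_lt hx h2, fun hx => hmax _ hx⟩
  have hloc : ∀ x : v.integer, IsUnit x ∨ 2 ∣ x := by
    intro x
    rcases lt_or_eq_of_le x.2 with hx | hx
    · exact Or.inr ((hlt_iff x).2 hx)
    · exact Or.inl ((isUnit_iff v x).2 hx)
  obtain ⟨C, hC⟩ : ∃ C : v.integer, (C : F) = φ c := ⟨⟨φ c, hφ c⟩, rfl⟩
  obtain ⟨E, hE⟩ : ∃ E : v.integer, (E : F) = φ μ := ⟨⟨φ μ, hφ μ⟩, rfl⟩
  obtain ⟨N, hN⟩ : ∃ N : v.integer, (N : F) = m := ⟨⟨m, hm.le⟩, rfl⟩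
  obtain ⟨A, hA⟩ : ∃ A : v.integer, (A : F) = a := ⟨⟨a, ha.le⟩, rfl⟩
  obtain ⟨B, hB⟩ : ∃ B : v.integer, (B : F) = b := ⟨⟨b, hb.le⟩, rfl⟩
  have hNE : 4 ∣ N - C ^ 2 * (1 + 2 * E) := by
    rw [dvd_iff v 4 _ (by rw [e4]; exact h40), e4]
    simp only [Subring.coe_mul, AddSubgroupClass.coe_sub, Subring.coe_add, Subring.coe_pow,
      Subring.coe_one, hN, hC, hE, e2]
    simp only [map_mul, map_add, map_pow, map_one, map_ofNat] at hmc
    exact hmc
  obtain ⟨k, hk⟩ := hNE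
  have hNu : IsUnit N := (isUnit_iff v N).2 (by rw [hN]; exact hm)
  have hCu : IsUnit C := by
    rcases hloc C with h | ⟨x, hx⟩
    · exact h
    · exfalso
      have h5 : 2 ∣ N := ⟨2 * x ^ 2 * (1 + 2 * E) + 2 * k, by
        rw [hx] at hk; linear_combination hk⟩
      rw [hlt_iff, hN, hm] at h5
      exact lt_irrefl _ h5
  have key := ring_even (O := v.integer)
    (fun h => h20 (congrArg (fun t : v.integer => (t : F)) h))
    (fun h => by
      rw [isUnit_iff, e2] at h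
      exact (ne_of_lt h2) h)
    hloc N A B C E k ⟨X, hX⟩ ⟨Y, hY⟩ ⟨Z, hZ⟩ ⟨W, hW⟩
    ((isUnit_iff v A).2 (by rw [hA]; exact ha)) ((isUnit_iff v B).2 (by rw [hB]; exact hb))
    hNu hCu (by linear_combination hk)
    (by
      rw [hlt_iff, hlt_iff, hlt_iff, hlt_iff]
      rintro ⟨d1, d2, d3, d4⟩
      rcases hprim with h | h | h | h
      · exact (ne_of_lt d1) h
      · exact (ne_of_lt d2) h
      · exact (ne_of_lt d3) h
      · exact (ne_of_lt d4) h)
    (by
      apply Subtype.ext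
      simp only [Subring.coe_mul, AddSubgroupClass.coe_sub, Subring.coe_pow, hA, hB, hN, e2]
      exact h1)
    (by
      apply Subtype.ext
      simp only [Subring.coe_mul, Subring.coe_add, Subring.coe_pow, hA, hB, hN, e2]
      exact h3)
  obtain ⟨T, G, H, -, -, hAG, hBH⟩ := key
  -- approximation
  obtain ⟨t, ht⟩ := hdense (T : F) T.2
  obtain ⟨g, hg⟩ := hdense (G : F) G.2
  obtain ⟨y, hy⟩ := hdense (H : F) H.2
  obtain ⟨T', hT'⟩ : ∃ T' : v.integer, (T' : F) = φ t := ⟨⟨φ t, hφ t⟩, rfl⟩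
  obtain ⟨G', hG'⟩ : ∃ G' : v.integer, (G' : F) = φ g := ⟨⟨φ g, hφ g⟩, rfl⟩
  obtain ⟨H', hH'⟩ : ∃ H' : v.integer, (H' : F) = φ y := ⟨⟨φ y, hφ y⟩, rfl⟩
  have hTT : 8 ∣ T - T' := by
    rw [dvd_iff v 8 _ (by rw [e8]; exact h80), e8, AddSubgroupClass.coe_sub, hT']
    exact ht
  have hGG : 8 ∣ G - G' := by
    rw [dvd_iff v 8 _ (by rw [e8]; exact h80), e8, AddSubgroupClass.coe_sub, hG']
    exact hg
  have hHH : 8 ∣ H - H' := by
    rw [dvd_iff v 8 _ (by rw [e8]; exact h80), e8, AddSubgroupClass.coe_sub, hH']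
    exact hy
  have tr : ∀ (M : v.integer) (P Q : v.integer), M ∣ P - Q ↔
      Ideal.Quotient.mk (Ideal.span {M}) P = Ideal.Quotient.mk (Ideal.span {M}) Q := by
    intro M P Q
    rw [Ideal.Quotient.eq, Ideal.mem_span_singleton]
  refine ⟨t, g, y, ?_, ?_⟩
  · have h9 : 8 ∣ A - G' ^ 2 * (1 + 4 * T') := by
      rw [tr] at hAG hTT hGG ⊢
      rw [hAG]
      simp only [map_mul, map_add, map_pow, map_one, map_ofNat, hTT, hGG]
    rw [dvd_iff v 8 _ (by rw [e8]; exact h80), e8] at h9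
    simp only [Subring.coe_mul, AddSubgroupClass.coe_sub, Subring.coe_add, Subring.coe_pow,
      Subring.coe_one, hA, hG', hT', e4] at h9
    simp only [map_mul, map_add, map_pow, map_one, map_ofNat]
    exact h9
  · have h9 : 8 ∣ B - H' ^ 2 * ((1 + 2 * T' ^ 2) * (1 + 4 * (E * T' ^ 2))) := by
      rw [tr] at hBH hTT hHH ⊢
      rw [hBH]
      simp only [map_mul, map_add, map_pow, map_one, map_ofNat, hTT, hHH]
    rw [dvd_iff v 8 _ (by rw [e8]; exact h80), e8] at h9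
    simp only [Subring.coe_mul, AddSubgroupClass.coe_sub, Subring.coe_add, Subring.coe_pow,
      Subring.coe_one, hB, hH', hT', hE, e2, e4] at h9
    simp only [map_mul, map_add, map_pow, map_one, map_ofNat]
    exact h9

end Pool.Agent.MP009fd8E
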