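import Pool.Agent.Lib.MP_009fd8_ag.Def

/-!
MP_009fd8_ag, EveryField: the explicit local conditions of the 2-descent on y^2 = x^3 - n^2 x over
a number field in which 2 is unramified.
-/

namespace Pool.Agent.MP009fd8E

open IsDedekindDomain NumberField Pool.Agent.MP009fd8

variable {K : Type*} [Field K] [NumberField K]

/-- At the place v, x is a square times y up to an error of value at most |N| |x|. -/
def Near (v : HeightOneSpectrum (𝓞 K)) (N x y : K) : Prop :=
  ∃ g : K, v.valuation K (x - g ^ 2 * y) ≤ v.valuation K N * v.valuation K x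

/-- At the place v, x is a square up to an error of value less than |x|. -/
def NearSq (v : HeightOneSpectrum (𝓞 K)) (x : K) : Prop :=
  ∃ g : K, v.valuation K (x - g ^ 2) < v.valuation K x

/-- The conditions at the finite place v on the pair (a, b):
(1) v not above 2, v(n) even: v(a) and v(b) are even;
(2) v not above 2, v(n) odd: a and b are squares at v up to smaller terms;
(3) v above 2, v(n) even: for some integers e, t and B = t^4 + (1 + e) t^2 + t,
n = sq (1 + 2 e) modulo 4, a = sq (1 + 2 t^2) (1 + 4 (t + e B)) modulo 8, b = sq (1 + 2 B)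
modulo 4;
(4) v above 2, v(n) odd: for some integers m, r, 2 n = sq (1 + 2 m) modulo 4,
a = sq (1 + 4 r) modulo 8, b = sq (1 + 2 r^2) (1 + 4 m r^2) modulo 8. -/
def LocalAt (v : HeightOneSpectrum (𝓞 K)) (n a b : K) : Prop :=
  ((2 : 𝓞 K) ∉ v.asIdeal → IsSquare (v.valuation K n) →
    IsSquare (v.valuation K a) ∧ IsSquare (v.valuation K b)) ∧
  ((2 : 𝓞 K) ∉ v.asIdeal → ¬ IsSquare (v.valuation K n) → NearSq v a ∧ NearSq v b) ∧
  ((2 : 𝓞 K) ∈ v.asIdeal → IsSquare (v.valuation K n) →
    ∃ e t B : 𝓞 K, B = t ^ 4 + (1 + e) * t ^ 2 + t ∧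
      Near v 4 n (algebraMap (𝓞 K) K (1 + 2 * e)) ∧
      Near v 8 a (algebraMap (𝓞 K) K ((1 + 2 * t ^ 2) * (1 + 4 * (t + e * B)))) ∧
      Near v 4 b (algebraMap (𝓞 K) K (1 + 2 * B))) ∧
  ((2 : 𝓞 K) ∈ v.asIdeal → ¬ IsSquare (v.valuation K n) →
    ∃ m r : 𝓞 K, Near v 4 (2 * n) (algebraMap (𝓞 K) K (1 + 2 * m)) ∧
      Near v 8 a (algebraMap (𝓞 K) K (1 + 4 * r)) ∧
      Near v 8 b (algebraMap (𝓞 K) K ((1 + 2 * r ^ 2) * (1 + 4 * (m * r ^ 2)))))

/-- At every finite place the pair (a, b) differs by a torsion pair from a pair that satisfies the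
conditions LocalAt, at every real place from a pair of positive numbers. -/
def LocalCond (n a b : K) : Prop :=
  (∀ v : HeightOneSpectrum (𝓞 K), ∃ x y : K, TorsionPair n x y ∧ LocalAt v n (a * x) (b * y)) ∧
  ∀ f : K →+* ℝ, ∃ x y : K, TorsionPair n x y ∧ 0 < f (a * x) ∧ 0 < f (b * y)

end Pool.Agent.MP009fd8E
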