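import Pool.Agent.Lib.MP_009fd8_ag.Places
import Pool.Agent.Lib.MP_009fd8_ag.Approx
import Pool.Agent.Lib.MP_009fd8_ag.RealPlace
import Pool.Agent.Lib.MP_009fd8_ag.MainC
import Pool.Agent.Lib.MP_009fd8_agE.Def

/-!
MP_009fd8_ag, EveryField: tools at the finite places.
-/

namespace Pool.Agent.MP009fd8E

open IsDedekindDomain NumberField WithZero Pool.Agent.MP009fd8

variable {K : Type*} [Field K] [NumberField K]

/-- An element of even valuation is a unit times a square. -/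
theorem exists_scale (v : HeightOneSpectrum (𝓞 K)) {x : K} (hx : x ≠ 0)
    (h : IsSquare (v.valuation K x)) : ∃ s : K, s ≠ 0 ∧ v.valuation K (x * s ^ 2) = 1 := by
  obtain ⟨y, hy⟩ := h
  have hvx : v.valuation K x ≠ 0 := (Valuation.ne_zero_iff _).2 hx
  have hy0 : y ≠ 0 := by
    rintro rfl
    rw [mul_zero] at hy
    exact hvx hy
  obtain ⟨π, hπ⟩ := v.valuation_exists_uniformizer K
  have hπ0 : π ≠ 0 := by
    rintro rfl
    rw [map_zero] at hπ
    exact (WithZero.exp_ne_zero (M := ℤ)) hπ.symm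
  lift y to ℤ using hy0 with m
  refine ⟨π ^ m, zpow_ne_zero _ hπ0, ?_⟩
  rw [map_mul, map_pow, map_zpow₀, hπ, hy, ← exp_add, ← exp_zsmul, ← exp_nsmul, ← exp_add,
    ← exp_zero, exp_inj]
  simp only [nsmul_eq_mul, zsmul_eq_mul]
  push_cast
  ring

/-- The parity of valuations. -/
theorem isSquare_val_mul (v : HeightOneSpectrum (𝓞 K)) {x y : K} (hx : x ≠ 0) (hy : y ≠ 0)
    (h1 : ¬ IsSquare (v.valuation K x)) (h2 : ¬ IsSquare (v.valuation K y)) :
    IsSquare (v.valuation K (x * y)) := by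
  have e1 := (isSquare_or ((Valuation.ne_zero_iff _).2 hx)).resolve_left h1
  have e2 := (isSquare_or ((Valuation.ne_zero_iff _).2 hy)).resolve_left h2
  have e3 := e1.mul e2
  have e4 : v.valuation K (x * y) = exp (-1 : ℤ) * v.valuation K x *
      (exp (-1 : ℤ) * v.valuation K y) / (exp (-1 : ℤ) * exp (-1 : ℤ)) := by
    rw [map_mul, eq_div_iff (mul_ne_zero (WithZero.exp_ne_zero) (WithZero.exp_ne_zero)),
      mul_mul_mul_comm (exp (-1 : ℤ)) _ (exp (-1 : ℤ)) _, mul_comm]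
  rw [e4]
  exact e3.div ⟨_, rfl⟩

/-- The place is unramified over 2. -/
theorem val_two (v : HeightOneSpectrum (𝓞 K)) (h2 : (2 : 𝓞 K) ∈ v.asIdeal)
    (hunr : (2 : 𝓞 K) ∉ v.asIdeal ^ 2) : v.valuation K 2 = exp (-1 : ℤ) := by
  have e2 : (2 : K) = algebraMap (𝓞 K) K 2 := (map_ofNat _ _).symm
  rw [e2]
  have hle : v.valuation K (algebraMap (𝓞 K) K 2) ≤ exp (-1 : ℤ) := by
    apply le_of_lt_one
    rw [v.valuation_lt_one_iff_mem]
    exact h2
  apply le_antisymm hle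
  by_contra hlt
  rw [not_le] at hlt
  apply hunr
  have h20 : algebraMap (𝓞 K) K 2 ≠ 0 := by rw [← e2]; exact two_ne_zero
  have hv0 : v.valuation K (algebraMap (𝓞 K) K 2) ≠ 0 := (Valuation.ne_zero_iff _).2 h20
  rw [← HeightOneSpectrum.intValuation_le_pow_iff_mem,
    ← HeightOneSpectrum.valuation_of_algebraMap (K := K)]
  revert hlt hv0
  generalize v.valuation K (algebraMap (𝓞 K) K 2) = z
  intro hlt hv0
  lift z to ℤ using hv0 with m
  rw [exp_lt_exp] at hlt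
  rw [exp_le_exp]
  push_cast
  omega

/-- Scaling n by a square. -/
theorem hasPoint_scale {F : Type*} [Field F] {n a b s : F} (hs : s ≠ 0)
    (h : HasPoint n a b) : HasPoint (n * s ^ 2) a b := by
  obtain ⟨X, Y, Z, W, hne, h1, h2⟩ := h
  refine ⟨X, Y, Z, W / s, ?_, ?_, ?_⟩
  · rcases hne with h | h | h | h
    · exact Or.inl h
    · exact Or.inr (Or.inl h)
    · exact Or.inr (Or.inr (Or.inl h))
    · exact Or.inr (Or.inr (Or.inr (div_ne_zero h hs)))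
  · rw [h1]; field_simp
  · rw [h2]; field_simp

/-- Multiplying by torsion. -/
theorem HasPoint.torsion {F : Type*} [Field F] {n a b x y : F} (hn : n ≠ 0)
    (ha : a ≠ 0) (hb : b ≠ 0) (h : HasPoint n a b) (ht : TorsionPair n x y) :
    HasPoint n (a * x) (b * y) := by
  refine hasPoint_of_equiv hn ha hb h ?_
  obtain ⟨r, s, hr, hs, ht⟩ := ht
  refine ⟨a * r, b * s, mul_ne_zero ha hr, mul_ne_zero hb hs, ?_⟩
  rcases ht with ⟨rfl, rfl⟩ | ⟨rfl, rfl⟩ | ⟨rfl, rfl⟩ | ⟨rfl, rfl⟩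
  · exact Or.inl ⟨by ring, by ring⟩
  · exact Or.inr (Or.inl ⟨by ring, by ring⟩)
  · exact Or.inr (Or.inr (Or.inl ⟨by ring, by ring⟩))
  · exact Or.inr (Or.inr (Or.inr ⟨by ring, by ring⟩))

theorem TorsionPair.map {F G : Type*} [Field F] [Field G] (f : F →+* G) {n x y : F}
    (h : TorsionPair n x y) : TorsionPair (f n) (f x) (f y) := by
  obtain ⟨r, s, hr, hs, h⟩ := h
  refine ⟨f r, f s, (map_ne_zero f).2 hr, (map_ne_zero f).2 hs, ?_⟩
  rcases h with ⟨rfl, rfl⟩ | ⟨rfl, rfl⟩ | ⟨rfl, rfl⟩ | ⟨rfl, rfl⟩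
  · exact Or.inl ⟨map_pow f r 2, map_pow f s 2⟩
  · exact Or.inr (Or.inl ⟨by simp only [map_neg, map_pow],
      by simp only [map_mul, map_neg, map_pow]⟩)
  · exact Or.inr (Or.inr (Or.inl ⟨by simp only [map_mul, map_pow],
      by simp only [map_mul, map_pow, map_ofNat]⟩))
  · exact Or.inr (Or.inr (Or.inr ⟨by simp only [map_mul, map_neg, map_pow],
      by simp only [map_mul, map_neg, map_pow, map_ofNat]⟩))

theorem TorsionPair.ne_zero {F : Type*} [Field F] {n x y : F} (h20 : (2 : F) ≠ 0) (hn : n ≠ 0)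
    (h : TorsionPair n x y) : x ≠ 0 ∧ y ≠ 0 := by
  obtain ⟨r, s, hr, hs, h⟩ := h
  have h1 : r ^ 2 ≠ 0 := pow_ne_zero 2 hr
  have h2 : s ^ 2 ≠ 0 := pow_ne_zero 2 hs
  rcases h with ⟨rfl, rfl⟩ | ⟨rfl, rfl⟩ | ⟨rfl, rfl⟩ | ⟨rfl, rfl⟩
  · exact ⟨h1, h2⟩
  · exact ⟨neg_ne_zero.2 h1, mul_ne_zero (neg_ne_zero.2 hn) h2⟩
  · exact ⟨mul_ne_zero hn h1, mul_ne_zero h20 h2⟩
  · exact ⟨mul_ne_zero (neg_ne_zero.2 hn) h1,
      mul_ne_zero (mul_ne_zero (neg_ne_zero.2 h20) hn) h2⟩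

theorem torsion_one {F : Type*} [Field F] (n : F) : TorsionPair n 1 1 :=
  ⟨1, 1, one_ne_zero, one_ne_zero, Or.inl ⟨by ring, by ring⟩⟩

theorem torsion_zero {F : Type*} [Field F] (n : F) : TorsionPair n (-1) (-n) :=
  ⟨1, 1, one_ne_zero, one_ne_zero, Or.inr (Or.inl ⟨by ring, by ring⟩)⟩

theorem torsion_n {F : Type*} [Field F] (n : F) : TorsionPair n n 2 :=
  ⟨1, 1, one_ne_zero, one_ne_zero, Or.inr (Or.inr (Or.inl ⟨by ring, by ring⟩))⟩

theorem torsion_neg {F : Type*} [Field F] (n : F) : TorsionPair n (-n) (-2 * n) :=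
  ⟨1, 1, one_ne_zero, one_ne_zero, Or.inr (Or.inr (Or.inr ⟨by ring, by ring⟩))⟩

end Pool.Agent.MP009fd8E
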