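import Pool.Agent.Lib.MP_009fd8_agM.Glob
import Pool.Agent.Lib.MP_009fd8_agE.Loc

/-!
MP_009fd8_ag, EveryField: units at a place above 2 are squares times 1 + 2e modulo 4.
-/

namespace Pool.Agent.MP009fd8E

open IsDedekindDomain NumberField WithZero Pool.Agent.MP009fd8 Pool.Agent.MP009fd8M

variable {K : Type*} [Field K] [NumberField K]

theorem near2_sq_mod (v : HeightOneSpectrum (𝓞 K)) (h2 : (2 : 𝓞 K) ∈ v.asIdeal) (m : 𝓞 K) :
    ∃ c : 𝓞 K, m - c ^ 2 ∈ v.asIdeal := by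
  have hmax : v.asIdeal.IsMaximal := v.isMaximal
  let _ : Field (𝓞 K ⧸ v.asIdeal) := Ideal.Quotient.field _
  have : Finite (𝓞 K ⧸ v.asIdeal) := Ideal.finiteQuotientOfFreeOfNeBot v.asIdeal v.ne_bot
  have hchar : ringChar (𝓞 K ⧸ v.asIdeal) = 2 := by
    refine CharP.ringChar_of_prime_eq_zero Nat.prime_two ?_
    have h3 : (Ideal.Quotient.mk v.asIdeal) 2 = 0 := Ideal.Quotient.eq_zero_iff_mem.2 h2
    rw [← h3, map_ofNat]
    rfl
  obtain ⟨r, hr⟩ := FiniteField.isSquare_of_char_two hchar (Ideal.Quotient.mk v.asIdeal m)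
  obtain ⟨c, rfl⟩ := Ideal.Quotient.mk_surjective r
  refine ⟨c, ?_⟩
  rw [← Ideal.Quotient.eq_zero_iff_mem, map_sub, map_pow, hr]
  ring

/-- Proof: exists_int_sub_lt (for the image of x in the completion, gamma = v(4)) gives m in the
ring of integers with v(x - m) < v(4). The residue field is finite of characteristic 2, so
squaring is surjective: m - c^2 in v.asIdeal for some c. Then c is a unit at v (m is) and
y = (m - c^2) / (2 c^2) has v(y) <= 1 because v(m - c^2) <= exp(-1) = v(2). Again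
exists_int_sub_lt gives e with v(y - e) < 1, so v(y - e) <= v(2) and
m - c^2 (1 + 2 e) = 2 c^2 (y - e) has value at most v(4). -/
theorem exists_near_sq (v : HeightOneSpectrum (𝓞 K)) (h2 : (2 : 𝓞 K) ∈ v.asIdeal)
    (hunr : (2 : 𝓞 K) ∉ v.asIdeal ^ 2) (x : K) (hx : v.valuation K x = 1) :
    ∃ c e : 𝓞 K, v.valuation K (x - algebraMap (𝓞 K) K (c ^ 2 * (1 + 2 * e))) ≤
      v.valuation K 4 := by
  have hv2 := val_two v h2 hunr
  have hv20 : v.valuation K 2 ≠ 0 := by rw [hv2]; exact WithZero.exp_ne_zero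
  have hv4 : v.valuation K 4 = v.valuation K 2 * v.valuation K 2 := by
    rw [← map_mul]; norm_num
  have hv40 : v.valuation K 4 ≠ 0 := by rw [hv4]; exact mul_ne_zero hv20 hv20
  have hv21 : v.valuation K 2 < 1 := by
    rw [hv2, ← exp_zero, exp_lt_exp]; norm_num
  have hv41 : v.valuation K 4 < 1 := by
    rw [hv4]
    exact mul_lt_one_of_lt_of_le hv21 hv21.le
  have hlt1 : ∀ z : WithZero (Multiplicative ℤ), z < 1 → z ≤ v.valuation K 2 := fun z hz => by
    rw [hv2]
    exact le_of_lt_one hz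
  obtain ⟨m, hm⟩ := v.exists_valuation_sub_lt_of_integer hx.le (Units.mk0 _ hv40)
  rw [Units.val_mk0] at hm
  obtain ⟨c, hc⟩ := near2_sq_mod v h2 m
  have hmc : v.valuation K (algebraMap (𝓞 K) K m - algebraMap (𝓞 K) K c ^ 2) < 1 := by
    rw [← map_pow, ← map_sub]
    exact (v.valuation_lt_one_iff_mem (K := K) _).2 hc
  have hxm : v.valuation K (x - algebraMap (𝓞 K) K m) < v.valuation K 4 := by
    rwa [Valuation.map_sub_swap]
  have hm1 : v.valuation K (algebraMap (𝓞 K) K m) = 1 := by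
    have : algebraMap (𝓞 K) K m = x - (x - algebraMap (𝓞 K) K m) := by ring
    rw [this, Valuation.map_sub_eq_of_lt_left _ (by rw [hx]; exact hxm.trans hv41), hx]
  have hc1 : v.valuation K (algebraMap (𝓞 K) K c ^ 2) = 1 := by
    have : algebraMap (𝓞 K) K c ^ 2 = algebraMap (𝓞 K) K m -
        (algebraMap (𝓞 K) K m - algebraMap (𝓞 K) K c ^ 2) := by ring
    rw [this, Valuation.map_sub_eq_of_lt_left _ (by rw [hm1]; exact hmc), hm1]
  have hc0 : algebraMap (𝓞 K) K c ≠ 0 := by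
    intro h0
    rw [h0] at hc1
    norm_num at hc1
  have h20 : (2 : K) ≠ 0 := two_ne_zero
  have hy : v.valuation K ((algebraMap (𝓞 K) K m - algebraMap (𝓞 K) K c ^ 2) /
      (2 * algebraMap (𝓞 K) K c ^ 2)) ≤ 1 := by
    rw [map_div₀, map_mul, hc1, mul_one, div_le_one₀ (zero_lt_iff.2 hv20)]
    exact hlt1 _ hmc
  obtain ⟨e, he⟩ := v.exists_valuation_sub_lt_of_integer hy 1
  rw [Units.val_one] at he
  refine ⟨c, e, ?_⟩
  have h3 : x - algebraMap (𝓞 K) K (c ^ 2 * (1 + 2 * e)) = (x - algebraMap (𝓞 K) K m) -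
      2 * algebraMap (𝓞 K) K c ^ 2 * (algebraMap (𝓞 K) K e -
        (algebraMap (𝓞 K) K m - algebraMap (𝓞 K) K c ^ 2) / (2 * algebraMap (𝓞 K) K c ^ 2)) := by
    simp only [map_mul, map_add, map_pow, map_one, map_ofNat]
    field_simp
    ring
  rw [h3]
  refine Valuation.map_sub_le _ hxm.le ?_
  rw [map_mul, map_mul, hc1, mul_one, hv4]
  exact mul_le_mul_right (hlt1 _ he) _

end Pool.Agent.MP009fd8E
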