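import Pool.Agent.Lib.MP_009fd8_agM.Odd2
import Pool.Agent.Lib.MP_009fd8_agE.Near2
import Pool.Agent.Lib.MP_009fd8_agE.At8

/-!
MP_009fd8_ag, EveryField: the places above 2, v(n) even.
-/

namespace Pool.Agent.MP009fd8E

open IsDedekindDomain NumberField WithZero Pool.Agent.MP009fd8 Pool.Agent.MP009fd8M

variable {K : Type*} [Field K] [NumberField K]

private theorem c2e_near (v : HeightOneSpectrum (𝓞 K)) {N x y r g : K} (hr : r ≠ 0)
    (hx : v.valuation K (x * r ^ 2) = 1)
    (h : v.valuation K (x * r ^ 2 - g ^ 2 * y) ≤ v.valuation K N) : Near v N x y := by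
  refine ⟨g / r, ?_⟩
  have hr2 : v.valuation K (r ^ 2) ≠ 0 := (Valuation.ne_zero_iff _).2 (pow_ne_zero 2 hr)
  have e1 : x - (g / r) ^ 2 * y = (x * r ^ 2 - g ^ 2 * y) / r ^ 2 := by
    field_simp
  have e2 : v.valuation K x = (v.valuation K (r ^ 2))⁻¹ := by
    rw [map_mul] at hx
    exact eq_inv_of_mul_eq_one_left hx
  rw [e1, map_div₀, e2, div_eq_mul_inv]
  exact mul_le_mul_left h _

private theorem c2e_point {F : Type*} [Field F] {n a b t r s : F} (ht : t ≠ 0) (hr : r ≠ 0)
    (hs : s ≠ 0) (h : HasPoint n a b) : HasPoint (n * t ^ 2) (a * r ^ 2) (b * s ^ 2) := by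
  apply hasPoint_scale ht
  refine hasPoint_sq n (a * r ^ 2) (b * s ^ 2) r⁻¹ s⁻¹ (inv_ne_zero hr) (inv_ne_zero hs) ?_
  have e1 : a * r ^ 2 * r⁻¹ ^ 2 = a := by field_simp
  have e2 : b * s ^ 2 * s⁻¹ ^ 2 = b := by field_simp
  rw [e1, e2]
  exact h

private theorem c2e_val_even (v : HeightOneSpectrum (𝓞 K)) {n a b : K} (hn0 : n ≠ 0)
    (ha : a ≠ 0) (hb : b ≠ 0) (hn : IsSquare (v.valuation K n))
    (hab : IsSquare (v.valuation K (a * b)))
    (h : HasPoint (algebraMap K (v.adicCompletion K) n) (algebraMap K (v.adicCompletion K) a)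
      (algebraMap K (v.adicCompletion K) b)) :
    IsSquare (v.valuation K a) ∧ IsSquare (v.valuation K b) := by
  have hva : IsSquare (v.valuation K a) := by
    by_contra hva
    obtain ⟨t, ht0, ht⟩ := exists_scale v hn0 hn
    have ht0' : algebraMap K (v.adicCompletion K) t ≠ 0 := (map_ne_zero _).2 ht0
    refine no_point_odd_pair (Valued.v : Valuation (v.adicCompletion K) _)
      (algebraMap K (v.adicCompletion K) (n * t ^ 2)) (algebraMap K (v.adicCompletion K) a)
      (algebraMap K (v.adicCompletion K) b) ((map_ne_zero _).2 ha) ((map_ne_zero _).2 hb)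
      ?_ ?_ ?_ ?_
    · rw [val_completion, val_completion, ← map_mul]
      exact hab
    · rw [val_completion]
      exact hva
    · rw [val_completion]
      exact ht
    · rw [map_mul, map_pow]
      exact hasPoint_scale ht0' h
  refine ⟨hva, ?_⟩
  have e : v.valuation K b = v.valuation K (a * b) / v.valuation K a := by
    rw [map_mul, mul_comm, mul_div_assoc, div_self ((Valuation.ne_zero_iff _).2 ha), mul_one]
  rw [e]
  exact hab.div hva

/-- v above 2, v(n), v(a), v(b) even. Proof: exists_scale gives r, s, t with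
v(a r^2) = v(b s^2) = v(n t^2) = 1, hasPoint_sq, hasPoint_scale give a point for n t^2, a r^2,
b s^2; exists_near_sq gives c, e for n t^2; odd_at_two for the valuation of the completion and
phi = algebraMap (𝓞 K) K followed by algebraMap K (v.adicCompletion K) (hdense from
exists_int_sub_lt, hmax from le_of_lt_one and val_two) gives t', g, k. Divide by squares. -/
theorem case_two_even_aux (v : HeightOneSpectrum (𝓞 K)) (h2 : (2 : 𝓞 K) ∈ v.asIdeal)
    (hunr : (2 : 𝓞 K) ∉ v.asIdeal ^ 2) {n a b : K} (hn0 : n ≠ 0)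
    (ha : a ≠ 0) (hb : b ≠ 0) (hn : IsSquare (v.valuation K n))
    (hva : IsSquare (v.valuation K a)) (hvb : IsSquare (v.valuation K b))
    (h : HasPoint (algebraMap K (v.adicCompletion K) n) (algebraMap K (v.adicCompletion K) a)
      (algebraMap K (v.adicCompletion K) b)) :
    ∃ e t B : 𝓞 K, B = t ^ 4 + (1 + e) * t ^ 2 + t ∧
      Near v 4 n (algebraMap (𝓞 K) K (1 + 2 * e)) ∧
      Near v 8 a (algebraMap (𝓞 K) K ((1 + 2 * t ^ 2) * (1 + 4 * (t + e * B)))) ∧
      Near v 4 b (algebraMap (𝓞 K) K (1 + 2 * B)) := by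
  obtain ⟨r, hr0, hr⟩ := exists_scale v ha hva
  obtain ⟨s, hs0, hs⟩ := exists_scale v hb hvb
  obtain ⟨u, hu0, hu⟩ := exists_scale v hn0 hn
  obtain ⟨c, e, hce⟩ := exists_near_sq v h2 hunr (n * u ^ 2) hu
  have hv2 : (Valued.v : Valuation (v.adicCompletion K) _) 2 = exp (-1 : ℤ) := by
    rw [← map_ofNat (algebraMap K (v.adicCompletion K)) 2, val_completion]
    exact val_two v h2 hunr
  have hK20 : (2 : v.adicCompletion K) ≠ 0 := by
    rw [← map_ofNat (algebraMap K (v.adicCompletion K)) 2]
    exact (map_ne_zero _).mpr two_ne_zero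
  have hK2lt : (Valued.v : Valuation (v.adicCompletion K) _) 2 < 1 := by
    rw [hv2, ← exp_zero, exp_lt_exp]; norm_num
  have hmaxv : ∀ x : v.adicCompletion K, Valued.v x < 1 →
      Valued.v x ≤ (Valued.v : Valuation (v.adicCompletion K) _) 2 :=
    fun x hx => by rw [hv2]; exact le_of_lt_one hx
  have h80 : (0 : WithZero (Multiplicative ℤ)) <
      (Valued.v : Valuation (v.adicCompletion K) _) 8 := by
    have h8K : (8 : K) ≠ 0 := by norm_num
    have : (algebraMap K (v.adicCompletion K)) 8 ≠ 0 := (map_ne_zero _).mpr h8K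
    rw [map_ofNat] at this
    exact zero_lt_iff.mpr ((Valuation.ne_zero_iff _).mpr this)
  have hpt := c2e_point (n := algebraMap K (v.adicCompletion K) n)
    (a := algebraMap K (v.adicCompletion K) a) (b := algebraMap K (v.adicCompletion K) b)
    (t := algebraMap K (v.adicCompletion K) u) (r := algebraMap K (v.adicCompletion K) r)
    (s := algebraMap K (v.adicCompletion K) s) ((map_ne_zero _).2 hu0) ((map_ne_zero _).2 hr0)
    ((map_ne_zero _).2 hs0) h
  rw [← map_pow, ← map_pow, ← map_pow, ← map_mul, ← map_mul, ← map_mul] at hpt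
  have hv4 : (Valued.v : Valuation (v.adicCompletion K) _) 4 = v.valuation K 4 := by
    rw [← map_ofNat (algebraMap K (v.adicCompletion K)) 4, val_completion]
  have hv8 : (Valued.v : Valuation (v.adicCompletion K) _) 8 = v.valuation K 8 := by
    rw [← map_ofNat (algebraMap K (v.adicCompletion K)) 8, val_completion]
  obtain ⟨t, g, k, hg, hk⟩ := odd_at_two (Valued.v : Valuation (v.adicCompletion K) _)
    ((algebraMap K (v.adicCompletion K)).comp (algebraMap (𝓞 K) K))
    (fun x => val_int_le_one v x) hK2lt hK20 hmaxv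
    (fun x hx => by
      obtain ⟨m, hm⟩ := exists_int_sub_lt v x hx _ h80
      exact ⟨m, hm.le⟩)
    (algebraMap K (v.adicCompletion K) (n * u ^ 2)) (algebraMap K (v.adicCompletion K) (a * r ^ 2))
    (algebraMap K (v.adicCompletion K) (b * s ^ 2)) c e
    (by rw [val_completion]; exact hu) (by rw [val_completion]; exact hr)
    (by rw [val_completion]; exact hs)
    (by
      rw [RingHom.comp_apply, ← map_sub, val_completion, hv4]
      exact hce) hpt
  refine ⟨e, t, _, rfl, ?_, ?_, ?_⟩
  · refine c2e_near v (r := u) (g := algebraMap (𝓞 K) K c) hu0 hu ?_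
    rw [← map_pow, ← map_mul]
    exact hce
  · rw [RingHom.comp_apply, ← map_sub, val_completion, hv8] at hg
    refine c2e_near v (r := r) (g := algebraMap (𝓞 K) K g) hr0 hr ?_
    rw [← map_pow, ← map_mul]
    exact hg
  · rw [RingHom.comp_apply, ← map_sub, val_completion, hv4] at hk
    refine c2e_near v (r := s) (g := algebraMap (𝓞 K) K k) hs0 hs ?_
    rw [← map_pow, ← map_mul]
    exact hk

/-- v above 2, v(n) even. Proof: if v(a b) is odd replace (a, b) by (a n, 2 b) (torsion_n,
HasPoint.torsion), v(2) is odd; so v(a b) is even; then v(a) is even by no_point_odd_pair (for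
n t^2 of valuation 1, exists_scale, hasPoint_scale), so v(b) is even. case_two_even_aux. -/
theorem case_two_even (v : HeightOneSpectrum (𝓞 K)) (h2 : (2 : 𝓞 K) ∈ v.asIdeal)
    (hunr : (2 : 𝓞 K) ∉ v.asIdeal ^ 2) {n a b : K} (hn0 : n ≠ 0)
    (ha : a ≠ 0) (hb : b ≠ 0) (hn : IsSquare (v.valuation K n))
    (h : HasPoint (algebraMap K (v.adicCompletion K) n) (algebraMap K (v.adicCompletion K) a)
      (algebraMap K (v.adicCompletion K) b)) :
    ∃ x y : K, TorsionPair n x y ∧ ∃ e t B : 𝓞 K, B = t ^ 4 + (1 + e) * t ^ 2 + t ∧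
      Near v 4 n (algebraMap (𝓞 K) K (1 + 2 * e)) ∧
      Near v 8 (a * x) (algebraMap (𝓞 K) K ((1 + 2 * t ^ 2) * (1 + 4 * (t + e * B)))) ∧
      Near v 4 (b * y) (algebraMap (𝓞 K) K (1 + 2 * B)) := by
  by_cases hab : IsSquare (v.valuation K (a * b))
  · obtain ⟨hva, hvb⟩ := c2e_val_even v hn0 ha hb hn hab h
    refine ⟨1, 1, torsion_one n, ?_⟩
    rw [mul_one, mul_one]
    exact case_two_even_aux v h2 hunr hn0 ha hb hn hva hvb h
  · have h20 : (2 : K) ≠ 0 := two_ne_zero
    have ha' : a * n ≠ 0 := mul_ne_zero ha hn0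
    have hb' : b * 2 ≠ 0 := mul_ne_zero hb h20
    have hv2 : ¬ IsSquare (v.valuation K 2) := by
      rw [val_two v h2 hunr]
      exact not_isSquare_exp_neg_one
    have h3 := isSquare_val_mul v (mul_ne_zero ha hb) h20 hab hv2
    have h4 : IsSquare (v.valuation K (a * n * (b * 2))) := by
      have e : v.valuation K (a * n * (b * 2)) = v.valuation K (a * b * 2) * v.valuation K n := by
        rw [← map_mul]
        congr 1
        ring
      rw [e]
      exact h3.mul hn
    have hpt : HasPoint (algebraMap K (v.adicCompletion K) n)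
        (algebraMap K (v.adicCompletion K) (a * n)) (algebraMap K (v.adicCompletion K) (b * 2)) := by
      have h5 := HasPoint.torsion ((map_ne_zero (algebraMap K (v.adicCompletion K))).2 hn0)
        ((map_ne_zero _).2 ha) ((map_ne_zero _).2 hb) h
        (TorsionPair.map (algebraMap K (v.adicCompletion K)) (torsion_n n))
      rw [← map_mul, ← map_mul] at h5
      exact h5
    obtain ⟨hva, hvb⟩ := c2e_val_even v hn0 ha' hb' hn h4 hpt
    exact ⟨n, 2, torsion_n n, case_two_even_aux v h2 hunr hn0 ha' hb' hn hva hvb hpt⟩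

end Pool.Agent.MP009fd8E
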