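import Pool.Agent.Lib.MP_009fd8_agM.Glob
import Pool.Agent.Lib.MP_009fd8_agE.Near2
import Pool.Agent.Lib.MP_009fd8_agE.At8

/-!
MP_009fd8_ag, EveryField: the places above 2, v(n) odd.
-/

namespace Pool.Agent.MP009fd8E

open IsDedekindDomain NumberField WithZero Pool.Agent.MP009fd8 Pool.Agent.MP009fd8M

variable {K : Type*} [Field K] [NumberField K]

private theorem hasPoint_sq_mul {F : Type*} [Field F] {q a b r s : F} (hr : r ≠ 0) (hs : s ≠ 0)
    (h : HasPoint q a b) : HasPoint q (a * r ^ 2) (b * s ^ 2) := by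
  apply hasPoint_sq q (a * r ^ 2) (b * s ^ 2) r⁻¹ s⁻¹ (inv_ne_zero hr) (inv_ne_zero hs)
  have e1 : a * r ^ 2 * r⁻¹ ^ 2 = a := by field_simp
  have e2 : b * s ^ 2 * s⁻¹ ^ 2 = b := by field_simp
  rw [e1, e2]
  exact h

/-- From a congruence for the unit x s^2 to a congruence for x. -/
private theorem near_of_scale (v : HeightOneSpectrum (𝓞 K)) {N x y s c : K} (hs : s ≠ 0)
    (h1 : v.valuation K (x * s ^ 2) = 1)
    (h : v.valuation K (x * s ^ 2 - c ^ 2 * y) ≤ v.valuation K N) : Near v N x y := by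
  refine ⟨c / s, ?_⟩
  have hs2 : v.valuation K (s ^ 2) ≠ 0 := (Valuation.ne_zero_iff _).2 (pow_ne_zero 2 hs)
  have e1 : x - (c / s) ^ 2 * y = (x * s ^ 2 - c ^ 2 * y) / s ^ 2 := by
    field_simp
  have e2 : v.valuation K x = 1 / v.valuation K (s ^ 2) := by
    rw [eq_div_iff hs2, ← map_mul, h1]
  rw [e1, map_div₀, e2, mul_one_div]
  exact div_le_div_of_nonneg_right h zero_le

/-- v above 2, v(n) odd, v(a), v(b) even. Proof: v(2 n) is even: exists_scale gives s with
v(2 n s^2) = 1, so n (2 s)^2 = 2 (2 n s^2) = 2 m with m = 2 n s^2 of valuation 1;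
exists_near_sq for m gives c, mu; even_at_two as in case_two_even_aux. -/
theorem case_two_odd_aux (v : HeightOneSpectrum (𝓞 K)) (h2 : (2 : 𝓞 K) ∈ v.asIdeal)
    (hunr : (2 : 𝓞 K) ∉ v.asIdeal ^ 2) {n a b : K} (hn0 : n ≠ 0)
    (ha : a ≠ 0) (hb : b ≠ 0) (hn : ¬ IsSquare (v.valuation K n))
    (hva : IsSquare (v.valuation K a)) (hvb : IsSquare (v.valuation K b))
    (h : HasPoint (algebraMap K (v.adicCompletion K) n) (algebraMap K (v.adicCompletion K) a)
      (algebraMap K (v.adicCompletion K) b)) :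
    ∃ m r : 𝓞 K, Near v 4 (2 * n) (algebraMap (𝓞 K) K (1 + 2 * m)) ∧
      Near v 8 a (algebraMap (𝓞 K) K (1 + 4 * r)) ∧
      Near v 8 b (algebraMap (𝓞 K) K ((1 + 2 * r ^ 2) * (1 + 4 * (m * r ^ 2)))) := by
  have h2K : v.valuation K 2 = exp (-1 : ℤ) := val_two v h2 hunr
  have hn2 : ¬ IsSquare (v.valuation K 2) := by rw [h2K]; exact not_isSquare_exp_neg_one
  obtain ⟨s, hs, hs1⟩ := exists_scale v (mul_ne_zero two_ne_zero hn0)
    (isSquare_val_mul v two_ne_zero hn0 hn2 hn)
  obtain ⟨r, hr, hr1⟩ := exists_scale v ha hva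
  obtain ⟨w, hw, hw1⟩ := exists_scale v hb hvb
  obtain ⟨c, μ, hcμ⟩ := exists_near_sq v h2 hunr _ hs1
  have hinj : ∀ {x : K}, x ≠ 0 → algebraMap K (v.adicCompletion K) x ≠ 0 :=
    fun hx => (map_ne_zero _).2 hx
  have hpt : HasPoint (2 * algebraMap K (v.adicCompletion K) (2 * n * s ^ 2))
      (algebraMap K (v.adicCompletion K) (a * r ^ 2))
      (algebraMap K (v.adicCompletion K) (b * w ^ 2)) := by
    have h1 := hasPoint_scale (hinj (mul_ne_zero two_ne_zero hs))
      (hasPoint_sq_mul (hinj hr) (hinj hw) h)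
    have e1 : 2 * algebraMap K (v.adicCompletion K) (2 * n * s ^ 2) =
        algebraMap K (v.adicCompletion K) n *
          algebraMap K (v.adicCompletion K) (2 * s) ^ 2 := by
      simp only [map_mul, map_pow, map_ofNat]
      ring
    have e2 : algebraMap K (v.adicCompletion K) (a * r ^ 2) =
        algebraMap K (v.adicCompletion K) a * algebraMap K (v.adicCompletion K) r ^ 2 := by
      simp only [map_mul, map_pow]
    have e3 : algebraMap K (v.adicCompletion K) (b * w ^ 2) =
        algebraMap K (v.adicCompletion K) b * algebraMap K (v.adicCompletion K) w ^ 2 := by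
      simp only [map_mul, map_pow]
    rw [e1, e2, e3]
    exact h1
  have hv2 : (Valued.v : Valuation (v.adicCompletion K) _) 2 = exp (-1 : ℤ) := by
    rw [← map_ofNat (algebraMap K (v.adicCompletion K)) 2, val_completion]
    exact h2K
  have hK20 : (2 : v.adicCompletion K) ≠ 0 := by
    rw [← map_ofNat (algebraMap K (v.adicCompletion K)) 2]
    exact (map_ne_zero _).mpr two_ne_zero
  have hK2lt : (Valued.v : Valuation (v.adicCompletion K) _) 2 < 1 := by
    rw [hv2, ← exp_zero, exp_lt_exp]; norm_num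
  have hmaxv : ∀ x : v.adicCompletion K, Valued.v x < 1 →
      Valued.v x ≤ (Valued.v : Valuation (v.adicCompletion K) _) 2 :=
    fun x hx => by rw [hv2]; exact le_of_lt_one hx
  have h80 : (0 : WithZero (Multiplicative ℤ)) <
      (Valued.v : Valuation (v.adicCompletion K) _) 8 := by
    have h8K : (8 : K) ≠ 0 := by norm_num
    have : (algebraMap K (v.adicCompletion K)) 8 ≠ 0 := (map_ne_zero _).mpr h8K
    rw [map_ofNat] at this
    exact zero_lt_iff.mpr ((Valuation.ne_zero_iff _).mpr this)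
  have hval : ∀ (x : K) (y : 𝓞 K),
      (Valued.v : Valuation (v.adicCompletion K) _) (algebraMap K (v.adicCompletion K) x -
        ((algebraMap K (v.adicCompletion K)).comp (algebraMap (𝓞 K) K)) y) =
      v.valuation K (x - algebraMap (𝓞 K) K y) := by
    intro x y
    rw [← val_completion v (x - algebraMap (𝓞 K) K y), RingHom.comp_apply,
      ← map_sub (algebraMap K (v.adicCompletion K))]
  have hval4 : (Valued.v : Valuation (v.adicCompletion K) _) 4 = v.valuation K 4 := by
    rw [← map_ofNat (algebraMap K (v.adicCompletion K)) 4, val_completion]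
  have hval8 : (Valued.v : Valuation (v.adicCompletion K) _) 8 = v.valuation K 8 := by
    rw [← map_ofNat (algebraMap K (v.adicCompletion K)) 8, val_completion]
  obtain ⟨ρ, g, k, hg, hk⟩ := even_at_two (R := 𝓞 K)
    (Valued.v : Valuation (v.adicCompletion K) _)
    ((algebraMap K (v.adicCompletion K)).comp (algebraMap (𝓞 K) K))
    (fun x => by rw [RingHom.comp_apply]; exact val_int_le_one v x)
    hK2lt hK20 hmaxv
    (fun x hx => by
      obtain ⟨y, hy⟩ := exists_int_sub_lt v x hx _ h80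
      exact ⟨y, by rw [RingHom.comp_apply]; exact hy.le⟩)
    (algebraMap K (v.adicCompletion K) (2 * n * s ^ 2))
    (algebraMap K (v.adicCompletion K) (a * r ^ 2))
    (algebraMap K (v.adicCompletion K) (b * w ^ 2))
    c μ
    (by rw [val_completion]; exact hs1)
    (by rw [val_completion]; exact hr1)
    (by rw [val_completion]; exact hw1)
    (by rw [hval, hval4]; exact hcμ)
    hpt
  rw [hval, hval8] at hg hk
  refine ⟨μ, ρ, ?_, ?_, ?_⟩
  · apply near_of_scale v hs hs1 (c := algebraMap (𝓞 K) K c)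
    rw [← map_pow, ← map_mul]
    exact hcμ
  · apply near_of_scale v hr hr1 (c := algebraMap (𝓞 K) K g)
    rw [← map_pow, ← map_mul]
    exact hg
  · apply near_of_scale v hw hw1 (c := algebraMap (𝓞 K) K k)
    rw [← map_pow, ← map_mul]
    exact hk

/-- v above 2, v(n) odd. Proof: the torsion pairs (1, 1), (-1, -n), (n, 2), (-n, -2n) have
valuations of parity (0, 0), (0, 1), (1, 1), (1, 0): choose (x, y) with v(a x), v(b y) even;
HasPoint.torsion, case_two_odd_aux. -/
theorem case_two_odd (v : HeightOneSpectrum (𝓞 K)) (h2 : (2 : 𝓞 K) ∈ v.asIdeal)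
    (hunr : (2 : 𝓞 K) ∉ v.asIdeal ^ 2) {n a b : K} (hn0 : n ≠ 0)
    (ha : a ≠ 0) (hb : b ≠ 0) (hn : ¬ IsSquare (v.valuation K n))
    (h : HasPoint (algebraMap K (v.adicCompletion K) n) (algebraMap K (v.adicCompletion K) a)
      (algebraMap K (v.adicCompletion K) b)) :
    ∃ x y : K, TorsionPair n x y ∧ ∃ m r : 𝓞 K,
      Near v 4 (2 * n) (algebraMap (𝓞 K) K (1 + 2 * m)) ∧
      Near v 8 (a * x) (algebraMap (𝓞 K) K (1 + 4 * r)) ∧
      Near v 8 (b * y) (algebraMap (𝓞 K) K ((1 + 2 * r ^ 2) * (1 + 4 * (m * r ^ 2)))) := by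
  have h2K : v.valuation K 2 = exp (-1 : ℤ) := val_two v h2 hunr
  have hn2 : ¬ IsSquare (v.valuation K 2) := by rw [h2K]; exact not_isSquare_exp_neg_one
  have h2n : IsSquare (v.valuation K (2 * n)) := isSquare_val_mul v two_ne_zero hn0 hn2 hn
  have hn0' : algebraMap K (v.adicCompletion K) n ≠ 0 := (map_ne_zero _).2 hn0
  have ha' : algebraMap K (v.adicCompletion K) a ≠ 0 := (map_ne_zero _).2 ha
  have hb' : algebraMap K (v.adicCompletion K) b ≠ 0 := (map_ne_zero _).2 hb
  have main : ∀ x y : K, TorsionPair n x y → IsSquare (v.valuation K (a * x)) →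
      IsSquare (v.valuation K (b * y)) →
      ∃ x y : K, TorsionPair n x y ∧ ∃ m r : 𝓞 K,
        Near v 4 (2 * n) (algebraMap (𝓞 K) K (1 + 2 * m)) ∧
        Near v 8 (a * x) (algebraMap (𝓞 K) K (1 + 4 * r)) ∧
        Near v 8 (b * y) (algebraMap (𝓞 K) K ((1 + 2 * r ^ 2) * (1 + 4 * (m * r ^ 2)))) := by
    intro x y hxy hax hby
    obtain ⟨hx0, hy0⟩ := TorsionPair.ne_zero two_ne_zero hn0 hxy
    refine ⟨x, y, hxy, ?_⟩
    refine case_two_odd_aux v h2 hunr hn0 (mul_ne_zero ha hx0) (mul_ne_zero hb hy0) hn hax hby ?_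
    rw [map_mul, map_mul]
    exact HasPoint.torsion hn0' ha' hb' h (TorsionPair.map (algebraMap K (v.adicCompletion K)) hxy)
  by_cases hva : IsSquare (v.valuation K a)
  · by_cases hvb : IsSquare (v.valuation K b)
    · exact main 1 1 (torsion_one n) (by rw [mul_one]; exact hva) (by rw [mul_one]; exact hvb)
    · refine main (-1) (-n) (torsion_zero n) ?_ ?_
      · rw [mul_neg, mul_one, Valuation.map_neg]; exact hva
      · rw [mul_neg, Valuation.map_neg]
        exact isSquare_val_mul v hb hn0 hvb hn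
  · by_cases hvb : IsSquare (v.valuation K b)
    · refine main (-n) (-2 * n) (torsion_neg n) ?_ ?_
      · rw [mul_neg, Valuation.map_neg]
        exact isSquare_val_mul v ha hn0 hva hn
      · rw [neg_mul, mul_neg, Valuation.map_neg, map_mul]
        exact hvb.mul h2n
    · refine main n 2 (torsion_n n) ?_ ?_
      · exact isSquare_val_mul v ha hn0 hva hn
      · exact isSquare_val_mul v hb two_ne_zero hvb hn2

end Pool.Agent.MP009fd8E
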