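import Pool.Agent.Lib.MP_009fd8_ag.Away
import Pool.Agent.Lib.MP_009fd8_agM.AtL
import Pool.Agent.Lib.MP_009fd8_agM.Glob
import Pool.Agent.Lib.MP_009fd8_agE.Loc

/-!
MP_009fd8_ag, EveryField: the places not above 2.
-/

namespace Pool.Agent.MP009fd8E

open IsDedekindDomain NumberField WithZero Pool.Agent.MP009fd8 Pool.Agent.MP009fd8M

variable {K : Type*} [Field K] [NumberField K]

theorem caseB_val_two (v : HeightOneSpectrum (𝓞 K)) (h2 : (2 : 𝓞 K) ∉ v.asIdeal) :
    v.valuation K 2 = 1 := by
  have h20 : (algebraMap (𝓞 K) K 2) = 2 := map_ofNat _ _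
  rw [← h20]
  exact val_eq_one v h2

theorem caseB_val_two' (v : HeightOneSpectrum (𝓞 K)) (h2 : (2 : 𝓞 K) ∉ v.asIdeal) :
    (Valued.v : Valuation (v.adicCompletion K) _) 2 = 1 := by
  rw [← map_ofNat (algebraMap K (v.adicCompletion K)) 2, val_completion]
  exact caseB_val_two v h2

/-- v not above 2, v(n) even. Proof: exists_scale gives s with v(n s^2) = 1, hasPoint_scale,
isSquare_away for the valuation of the completion, val_completion. -/
theorem case_away (v : HeightOneSpectrum (𝓞 K)) (h2 : (2 : 𝓞 K) ∉ v.asIdeal) {n a b : K}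
    (hn0 : n ≠ 0) (ha : a ≠ 0) (hb : b ≠ 0) (hn : IsSquare (v.valuation K n))
    (h : HasPoint (algebraMap K (v.adicCompletion K) n) (algebraMap K (v.adicCompletion K) a)
      (algebraMap K (v.adicCompletion K) b)) :
    IsSquare (v.valuation K a) ∧ IsSquare (v.valuation K b) := by
  obtain ⟨s, hs0, hs⟩ := exists_scale v hn0 hn
  have h1 := hasPoint_scale (s := algebraMap K (v.adicCompletion K) s)
    ((map_ne_zero _).2 hs0) h
  have h3 := isSquare_away (Valued.v : Valuation (v.adicCompletion K) _) _ _ _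
    ((map_ne_zero _).2 ha) ((map_ne_zero _).2 hb) (caseB_val_two' v h2)
    (by rw [← map_pow, ← map_mul, val_completion]; exact hs) h1
  rw [val_completion, val_completion] at h3
  exact h3

theorem caseB_nearSq (v : HeightOneSpectrum (𝓞 K)) {x r : K} (hr : r ≠ 0)
    (h1 : v.valuation K (x * r ^ 2) = 1) {g : v.adicCompletion K} (hg1 : Valued.v g ≤ 1)
    (hg : Valued.v (algebraMap K (v.adicCompletion K) (x * r ^ 2) - g ^ 2) < 1) :
    NearSq v x := by
  obtain ⟨m, hm⟩ := exists_int_sub_lt v g hg1 1 one_pos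
  have h3 : v.valuation K (x * r ^ 2 - algebraMap (𝓞 K) K m ^ 2) < 1 := by
    rw [← val_completion]
    have hexp : algebraMap K (v.adicCompletion K) (x * r ^ 2 - algebraMap (𝓞 K) K m ^ 2) =
        (algebraMap K (v.adicCompletion K) (x * r ^ 2) - g ^ 2) +
        (g - algebraMap K (v.adicCompletion K) (algebraMap (𝓞 K) K m)) *
          (g + algebraMap K (v.adicCompletion K) (algebraMap (𝓞 K) K m)) := by
      simp only [map_sub, map_pow, map_mul]; ring
    rw [hexp]
    refine Valuation.map_add_lt _ hg ?_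
    rw [map_mul]
    calc _ ≤ Valued.v (g - algebraMap K (v.adicCompletion K) (algebraMap (𝓞 K) K m)) * 1 := by
          gcongr
          exact Valuation.map_add_le _ hg1 (val_int_le_one v m)
      _ < 1 := by rw [mul_one]; exact hm
  have hvr : v.valuation K (r ^ 2) ≠ 0 := (Valuation.ne_zero_iff _).2 (pow_ne_zero 2 hr)
  refine ⟨algebraMap (𝓞 K) K m / r, ?_⟩
  have e1 : x - (algebraMap (𝓞 K) K m / r) ^ 2 =
      (x * r ^ 2 - algebraMap (𝓞 K) K m ^ 2) / r ^ 2 := by
    field_simp
  have e2 : v.valuation K x = 1 / v.valuation K (r ^ 2) := by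
    rw [eq_div_iff hvr, ← map_mul]
    exact h1
  rw [e1, e2, map_div₀]
  exact (div_lt_div_iff_of_pos_right (zero_lt_iff.2 hvr)).2 h3

/-- v not above 2, v(n) odd, v(a) and v(b) even. Proof: exists_scale gives r, s with
v(a r^2) = v(b s^2) = 1; hasPoint_sq (with r^(-1), s^(-1)) gives a point for (a r^2, b s^2);
squares_at_l gives g, k in the completion; exists_int_sub_lt approximates g by an integer G with
v(g - G) < 1, then v(a r^2 - G^2) < 1, and a - (G / r)^2 is small relative to a. -/
theorem case_odd_aux (v : HeightOneSpectrum (𝓞 K)) (h2 : (2 : 𝓞 K) ∉ v.asIdeal) {n a b : K}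
    (ha : a ≠ 0) (hb : b ≠ 0) (hn : ¬ IsSquare (v.valuation K n))
    (hva : IsSquare (v.valuation K a)) (hvb : IsSquare (v.valuation K b))
    (h : HasPoint (algebraMap K (v.adicCompletion K) n) (algebraMap K (v.adicCompletion K) a)
      (algebraMap K (v.adicCompletion K) b)) : NearSq v a ∧ NearSq v b := by
  obtain ⟨r, hr0, hr⟩ := exists_scale v ha hva
  obtain ⟨s, hs0, hs⟩ := exists_scale v hb hvb
  have hr0' : algebraMap K (v.adicCompletion K) r ≠ 0 := (map_ne_zero _).2 hr0
  have hs0' : algebraMap K (v.adicCompletion K) s ≠ 0 := (map_ne_zero _).2 hs0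
  have h1 : HasPoint (algebraMap K (v.adicCompletion K) n)
      (algebraMap K (v.adicCompletion K) (a * r ^ 2))
      (algebraMap K (v.adicCompletion K) (b * s ^ 2)) := by
    refine hasPoint_sq _ _ _ (algebraMap K (v.adicCompletion K) r)⁻¹
      (algebraMap K (v.adicCompletion K) s)⁻¹ (inv_ne_zero hr0') (inv_ne_zero hs0') ?_
    have e1 : algebraMap K (v.adicCompletion K) (a * r ^ 2) *
        ((algebraMap K (v.adicCompletion K) r)⁻¹) ^ 2 = algebraMap K (v.adicCompletion K) a := by
      rw [map_mul, map_pow]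
      field_simp
    have e2 : algebraMap K (v.adicCompletion K) (b * s ^ 2) *
        ((algebraMap K (v.adicCompletion K) s)⁻¹) ^ 2 = algebraMap K (v.adicCompletion K) b := by
      rw [map_mul, map_pow]
      field_simp
    rw [e1, e2]
    exact h
  obtain ⟨⟨g, hg1, hg⟩, ⟨k, hk1, hk⟩⟩ := squares_at_l
    (Valued.v : Valuation (v.adicCompletion K) _) _ _ _
    (by rw [val_completion]; exact hr) (by rw [val_completion]; exact hs)
    (caseB_val_two' v h2) (by rw [val_completion]; exact hn) h1
  exact ⟨caseB_nearSq v hr0 hr hg1 hg, caseB_nearSq v hs0 hs hk1 hk⟩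

theorem caseB_step (v : HeightOneSpectrum (𝓞 K)) (h2 : (2 : 𝓞 K) ∉ v.asIdeal) {n a b : K}
    (hn0 : n ≠ 0) (ha : a ≠ 0) (hb : b ≠ 0) (hn : ¬ IsSquare (v.valuation K n))
    (h : HasPoint (algebraMap K (v.adicCompletion K) n) (algebraMap K (v.adicCompletion K) a)
      (algebraMap K (v.adicCompletion K) b)) {x y : K} (ht : TorsionPair n x y)
    (hva : IsSquare (v.valuation K (a * x))) (hvb : IsSquare (v.valuation K (b * y))) :
    ∃ x y : K, TorsionPair n x y ∧ NearSq v (a * x) ∧ NearSq v (b * y) := by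
  obtain ⟨hx, hy⟩ := TorsionPair.ne_zero two_ne_zero hn0 ht
  have h1 := HasPoint.torsion ((map_ne_zero (algebraMap K (v.adicCompletion K))).2 hn0)
    ((map_ne_zero _).2 ha) ((map_ne_zero _).2 hb) h (TorsionPair.map (algebraMap K (v.adicCompletion K)) ht)
  rw [← map_mul, ← map_mul] at h1
  exact ⟨x, y, ht, case_odd_aux v h2 (mul_ne_zero ha hx) (mul_ne_zero hb hy) hn hva hvb h1⟩

/-- v not above 2, v(n) odd. Proof: choose the torsion pair (x, y) with v(a x), v(b y) even:
(1, 1), (-1, -n), (n, 2), (-n, -2n) for the parities (0, 0), (0, 1), (1, 0), (1, 1) of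
(v(a), v(b)) (isSquare_val_mul, torsion_one, ..., v(2) = 1), HasPoint.torsion, case_odd_aux. -/
theorem case_odd (v : HeightOneSpectrum (𝓞 K)) (h2 : (2 : 𝓞 K) ∉ v.asIdeal) {n a b : K}
    (hn0 : n ≠ 0) (ha : a ≠ 0) (hb : b ≠ 0) (hn : ¬ IsSquare (v.valuation K n))
    (h : HasPoint (algebraMap K (v.adicCompletion K) n) (algebraMap K (v.adicCompletion K) a)
      (algebraMap K (v.adicCompletion K) b)) :
    ∃ x y : K, TorsionPair n x y ∧ NearSq v (a * x) ∧ NearSq v (b * y) := by
  have hv2 := caseB_val_two v h2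
  by_cases hva : IsSquare (v.valuation K a)
  · by_cases hvb : IsSquare (v.valuation K b)
    · refine caseB_step v h2 hn0 ha hb hn h (torsion_one n) ?_ ?_
      · rw [mul_one]; exact hva
      · rw [mul_one]; exact hvb
    · refine caseB_step v h2 hn0 ha hb hn h (torsion_zero n) ?_ ?_
      · rw [mul_neg, mul_one, Valuation.map_neg]; exact hva
      · rw [mul_neg, Valuation.map_neg]; exact isSquare_val_mul v hb hn0 hvb hn
  · by_cases hvb : IsSquare (v.valuation K b)
    · refine caseB_step v h2 hn0 ha hb hn h (torsion_n n) ?_ ?_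
      · exact isSquare_val_mul v ha hn0 hva hn
      · rw [map_mul, hv2, mul_one]; exact hvb
    · refine caseB_step v h2 hn0 ha hb hn h (torsion_neg n) ?_ ?_
      · rw [mul_neg, Valuation.map_neg]; exact isSquare_val_mul v ha hn0 hva hn
      · have e : b * (-2 * n) = -(2 * (b * n)) := by ring
        rw [e, Valuation.map_neg, map_mul, hv2, one_mul]
        exact isSquare_val_mul v hb hn0 hvb hn

end Pool.Agent.MP009fd8E
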