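import Pool.Agent.Lib.MP_009fd8_ag.Def
import Pool.Agent.Lib.MP_12adaf_nt.TF.OWeak

/-!
MP_009fd8_ag, EveryField: squares in the completions (Hensel's lemma).
-/

namespace Pool.Agent.MP009fd8E

open IsDedekindDomain NumberField Pool.Agent.MP009fd8

variable {K : Type*} [Field K] [NumberField K]

/-- Hensel's lemma for monic quadratic polynomials over the completion at a finite place.
Proof: copy hens_adic of Pool/Agent/Lib/MP_009fd8_agU/HensK.lean (cubic polynomials) with
X^2 + C r X + C s; HM.henselian_fin v (Pool/Agent/Lib/MP_12adaf_nt/TF/OWeak.lean). -/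
theorem hens_quad (v : HeightOneSpectrum (𝓞 K)) (r s x0 : v.adicCompletion K)
    (hr : (Valued.v : Valuation (v.adicCompletion K) (WithZero (Multiplicative ℤ))) r ≤ 1)
    (hs : (Valued.v : Valuation (v.adicCompletion K) (WithZero (Multiplicative ℤ))) s ≤ 1)
    (hx : (Valued.v : Valuation (v.adicCompletion K) (WithZero (Multiplicative ℤ))) x0 ≤ 1)
    (h0 : (Valued.v : Valuation (v.adicCompletion K) (WithZero (Multiplicative ℤ)))
      (x0 ^ 2 + r * x0 + s) < 1)
    (h1 : (Valued.v : Valuation (v.adicCompletion K) (WithZero (Multiplicative ℤ)))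
      (2 * x0 + r) = 1) :
    ∃ x : v.adicCompletion K, x ^ 2 + r * x + s = 0 := by
  have H := Pool.Agent.Lib.MP_12adaf_nt.HM.henselian_fin v
  have hmem : ∀ x : v.adicCompletion K, Valued.v x ≤ 1 → x ∈ v.adicCompletionIntegers K :=
    fun x h => (HeightOneSpectrum.mem_adicCompletionIntegers (R := 𝓞 K) (K := K) v).2 h
  have hle : ∀ x : v.adicCompletionIntegers K, Valued.v (x : v.adicCompletion K) ≤ 1 :=
    fun x => (HeightOneSpectrum.mem_adicCompletionIntegers (R := 𝓞 K) (K := K) v).1 x.2
  have hunit : ∀ x : v.adicCompletionIntegers K, Valued.v (x : v.adicCompletion K) = 1 →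
      IsUnit x := by
    intro x h
    have hx0 : (x : v.adicCompletion K) ≠ 0 := by
      intro h2
      rw [h2, map_zero] at h
      exact zero_ne_one h
    have hinv : Valued.v ((x : v.adicCompletion K)⁻¹) ≤ 1 := by
      rw [map_inv₀, h, inv_one]
    refine IsUnit.of_mul_eq_one ⟨(x : v.adicCompletion K)⁻¹, hmem _ hinv⟩ ?_
    apply Subtype.ext
    exact mul_inv_cancel₀ hx0
  have hmax : ∀ x : v.adicCompletionIntegers K, Valued.v (x : v.adicCompletion K) < 1 →
      x ∈ IsLocalRing.maximalIdeal (v.adicCompletionIntegers K) := by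
    intro x h
    rw [IsLocalRing.mem_maximalIdeal, mem_nonunits_iff]
    intro hu
    obtain ⟨y, hy⟩ := hu.exists_right_inv
    have h2 : (x : v.adicCompletion K) * (y : v.adicCompletion K) = 1 := by
      have := congrArg (Subtype.val) hy
      exact this
    have h3 : Valued.v (x : v.adicCompletion K) * Valued.v (y : v.adicCompletion K) = 1 := by
      rw [← map_mul, h2, map_one]
    have h4 : Valued.v (x : v.adicCompletion K) * Valued.v (y : v.adicCompletion K) ≤
        Valued.v (x : v.adicCompletion K) := mul_le_of_le_one_right' (hle y)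
    rw [h3] at h4
    exact absurd h (not_lt.2 h4)
  set R : v.adicCompletionIntegers K := ⟨r, hmem r hr⟩ with hR
  set S : v.adicCompletionIntegers K := ⟨s, hmem s hs⟩ with hS
  set X0 : v.adicCompletionIntegers K := ⟨x0, hmem x0 hx⟩ with hX0
  have hmon : (Polynomial.X ^ 2 + Polynomial.C R * Polynomial.X +
      Polynomial.C S).Monic := by
    monicity!
  obtain ⟨a, ha, -⟩ := H.is_henselian _ hmon X0 (by
    apply hmax
    have e : ((Polynomial.eval X0 (Polynomial.X ^ 2 + Polynomial.C R * Polynomial.X +
        Polynomial.C S) : v.adicCompletionIntegers K) :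
          v.adicCompletion K) = x0 ^ 2 + r * x0 + s := by
      simp [hR, hS, hX0]
    rw [e]
    exact h0) (by
    apply hunit
    have e : ((Polynomial.eval X0 (Polynomial.derivative (Polynomial.X ^ 2 +
        Polynomial.C R * Polynomial.X + Polynomial.C S)) : v.adicCompletionIntegers K) :
            v.adicCompletion K) = 2 * x0 + r := by
      simp [hR, hX0]
      exact Or.inl one_add_one_eq_two
    rw [e]
    exact h1)
  refine ⟨(a : v.adicCompletion K), ?_⟩
  have h5 : a ^ 2 + R * a + S = 0 := by
    have := ha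
    simpa [Polynomial.IsRoot] using this
  have h6 := congrArg (Subtype.val) h5
  simpa [hR, hS] using h6

/-- Residue characteristic odd: a unit close to a square is a square. Proof: hens_quad for
X^2 - d at g (v(g) = 1 because v(g^2) = v(d)). -/
theorem sq_away (v : HeightOneSpectrum (𝓞 K)) {d g : v.adicCompletion K}
    (h2 : (Valued.v : Valuation (v.adicCompletion K) (WithZero (Multiplicative ℤ))) 2 = 1)
    (hd : (Valued.v : Valuation (v.adicCompletion K) (WithZero (Multiplicative ℤ))) d = 1)
    (hg : (Valued.v : Valuation (v.adicCompletion K) (WithZero (Multiplicative ℤ)))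
      (d - g ^ 2) < 1) : ∃ x : v.adicCompletion K, d = x ^ 2 := by
  obtain ⟨V, hV⟩ : ∃ V : Valuation (v.adicCompletion K) (WithZero (Multiplicative ℤ)),
    V = Valued.v := ⟨_, rfl⟩
  have hg2 : V (g ^ 2) = 1 := by
    have e : g ^ 2 = d - (d - g ^ 2) := by ring
    rw [e, Valuation.map_sub_eq_of_lt_left V (by rw [hV, hd]; exact hg), hV, hd]
  have hg1 : V g = 1 := by
    rw [map_pow] at hg2
    exact (pow_eq_one_iff.1 hg2).resolve_right (by norm_num)
  obtain ⟨x, hx⟩ := hens_quad v 0 (-d) g (by simp) (by rw [Valuation.map_neg, hd])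
    (by rw [← hV]; exact hg1.le)
    (by
      have e : g ^ 2 + 0 * g + -d = g ^ 2 - d := by ring
      rw [e, Valuation.map_sub_swap]
      exact hg)
    (by
      have e : 2 * g + 0 = 2 * g := by ring
      rw [e, map_mul, h2, ← hV, hg1, one_mul])
  exact ⟨x, by linear_combination -hx⟩

/-- Residue characteristic 2: 1 + 4 w is a square if w = z^2 + z modulo the maximal ideal.
Proof: hens_quad for X^2 + X - w at z (the derivative 2 z + 1 is a unit) gives y with
y^2 + y = w, and 1 + 4 w = (1 + 2 y)^2. -/
theorem sq_two (v : HeightOneSpectrum (𝓞 K)) {w z : v.adicCompletion K}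
    (h2 : (Valued.v : Valuation (v.adicCompletion K) (WithZero (Multiplicative ℤ))) 2 < 1)
    (hw : (Valued.v : Valuation (v.adicCompletion K) (WithZero (Multiplicative ℤ))) w ≤ 1)
    (hz : (Valued.v : Valuation (v.adicCompletion K) (WithZero (Multiplicative ℤ))) z ≤ 1)
    (h : (Valued.v : Valuation (v.adicCompletion K) (WithZero (Multiplicative ℤ)))
      (w - z ^ 2 - z) < 1) : ∃ x : v.adicCompletion K, 1 + 4 * w = x ^ 2 := by
  obtain ⟨y, hy⟩ := hens_quad v 1 (-w) z (by simp) (by rw [Valuation.map_neg]; exact hw) hz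
    (by
      have e : z ^ 2 + 1 * z + -w = -(w - z ^ 2 - z) := by ring
      rw [e, Valuation.map_neg]
      exact h)
    (by
      have h3 : (Valued.v : Valuation (v.adicCompletion K) (WithZero (Multiplicative ℤ)))
          (2 * z) < 1 := by
        rw [map_mul]
        exact mul_lt_one_of_lt_of_le h2 hz
      have h4 := Valuation.map_add_eq_of_lt_right (Valued.v :
        Valuation (v.adicCompletion K) (WithZero (Multiplicative ℤ))) (x := 2 * z) (y := 1)
        (by rw [map_one]; exact h3)
      rw [h4, map_one])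
  exact ⟨1 + 2 * y, by linear_combination -4 * hy⟩

end Pool.Agent.MP009fd8E
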