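import Pool.Agent.Lib.MP_009fd8_agE.ConvField
import Pool.Agent.Lib.MP_009fd8_agE.Hens2
import Pool.Agent.Lib.MP_009fd8_agE.AS2
import Pool.Agent.Lib.MP_009fd8_agE.Loc

/-!
MP_009fd8_ag, EveryField: the conditions at the places above 2 are sufficient.
-/

namespace Pool.Agent.MP009fd8E

open IsDedekindDomain NumberField WithZero Pool.Agent.MP009fd8 Pool.Agent.MP009fd8M

variable {K : Type*} [Field K] [NumberField K]

/-- Scaling to a unit with a congruence. -/
theorem near_scale (v : HeightOneSpectrum (𝓞 K)) {N x y : K} (hx : x ≠ 0)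
    (hN : v.valuation K N < 1) (hy : v.valuation K y = 1) (h : Near v N x y) :
    ∃ s : K, s ≠ 0 ∧ v.valuation K (x * s ^ 2 - y) ≤ v.valuation K N := by
  obtain ⟨g, hg⟩ := h
  have hvx : v.valuation K x ≠ 0 := (Valuation.ne_zero_iff _).2 hx
  have hlt : v.valuation K (x - g ^ 2 * y) < v.valuation K x := by
    refine lt_of_le_of_lt hg ?_
    calc v.valuation K N * v.valuation K x < 1 * v.valuation K x := by
          exact mul_lt_mul_of_pos_right hN (zero_lt_iff.2 hvx)
      _ = v.valuation K x := one_mul _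
  have he : v.valuation K (g ^ 2 * y) = v.valuation K x := by
    have e1 : g ^ 2 * y = x - (x - g ^ 2 * y) := by ring
    rw [e1]
    exact Valuation.map_sub_eq_of_lt_left _ hlt
  rw [map_mul, hy, mul_one] at he
  have hg0 : g ≠ 0 := by
    rintro rfl
    rw [zero_pow two_ne_zero, map_zero] at he
    exact hvx he.symm
  refine ⟨g⁻¹, inv_ne_zero hg0, ?_⟩
  have e1 : x * g⁻¹ ^ 2 - y = (x - g ^ 2 * y) * g⁻¹ ^ 2 := by field_simp
  rw [e1, map_mul]
  calc v.valuation K (x - g ^ 2 * y) * v.valuation K (g⁻¹ ^ 2) ≤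
        (v.valuation K N * v.valuation K x) * v.valuation K (g⁻¹ ^ 2) := mul_le_mul_left hg _
    _ = v.valuation K N * v.valuation K (g ^ 2 * g⁻¹ ^ 2) := by
        rw [← he, mul_assoc, ← map_mul]
    _ = v.valuation K N := by
        have : g ^ 2 * g⁻¹ ^ 2 = 1 := by field_simp
        rw [this, map_one, mul_one]

/-- 1 + an even integer is a unit at a place above 2. -/
theorem val_odd (v : HeightOneSpectrum (𝓞 K)) (h2 : (2 : 𝓞 K) ∈ v.asIdeal) (k : 𝓞 K) :
    v.valuation K (algebraMap (𝓞 K) K (1 + 2 * k)) = 1 := by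
  apply val_eq_one
  intro h
  have h3 : (1 : 𝓞 K) ∈ v.asIdeal := by
    have e1 : (1 : 𝓞 K) = (1 + 2 * k) - 2 * k := by ring
    rw [e1]
    exact v.asIdeal.sub_mem h (v.asIdeal.mul_mem_right _ h2)
  exact v.isPrime.ne_top ((Ideal.eq_top_iff_one _).2 h3)

/-- v above 2, v(n) even. -/
theorem conv_two_even (v : HeightOneSpectrum (𝓞 K)) (h2 : (2 : 𝓞 K) ∈ v.asIdeal)
    (hunr : (2 : 𝓞 K) ∉ v.asIdeal ^ 2) {n a b : K} (hn0 : n ≠ 0) (ha0 : a ≠ 0) (hb0 : b ≠ 0)
    (e t B : 𝓞 K) (hB : B = t ^ 4 + (1 + e) * t ^ 2 + t)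
    (hn : Near v 4 n (algebraMap (𝓞 K) K (1 + 2 * e)))
    (ha : Near v 8 a (algebraMap (𝓞 K) K ((1 + 2 * t ^ 2) * (1 + 4 * (t + e * B)))))
    (hb : Near v 4 b (algebraMap (𝓞 K) K (1 + 2 * B))) :
    HasPoint (algebraMap K (v.adicCompletion K) n) (algebraMap K (v.adicCompletion K) a)
      (algebraMap K (v.adicCompletion K) b) := by
  have hv2 := val_two v h2 hunr
  have hlt2 : v.valuation K 2 < 1 := by
    rw [hv2, ← exp_zero, exp_lt_exp]; norm_num
  have hlt4 : v.valuation K 4 < 1 := by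
    have : (4 : K) = 2 * 2 := by norm_num
    rw [this, map_mul]
    exact mul_lt_one_of_nonneg_of_lt_one_left zero_le hlt2 hlt2.le
  have hlt8 : v.valuation K 8 < 1 := by
    have : (8 : K) = 2 * 4 := by norm_num
    rw [this, map_mul]
    exact mul_lt_one_of_nonneg_of_lt_one_left zero_le hlt2 hlt4.le
  obtain ⟨s1, hs1, k1⟩ := near_scale v hn0 hlt4 (val_odd v h2 e) hn
  obtain ⟨s2, hs2, k2⟩ := near_scale v ha0 hlt8 (by
    have e1 : (1 + 2 * t ^ 2) * (1 + 4 * (t + e * B)) =
      1 + 2 * (t ^ 2 + (1 + 2 * t ^ 2) * (2 * (t + e * B))) := by ring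
    rw [e1]; exact val_odd v h2 _) ha
  obtain ⟨s3, hs3, k3⟩ := near_scale v hb0 hlt4 (val_odd v h2 B) hb
  have cast : ∀ x : K, (algebraMap K (v.adicCompletion K)) x = 0 ↔ x = 0 := fun x =>
    map_eq_zero _
  have hK20 : (2 : v.adicCompletion K) ≠ 0 := by
    rw [← map_ofNat (algebraMap K (v.adicCompletion K)) 2]
    exact (map_ne_zero _).mpr two_ne_zero
  have hK2 : (Valued.v : Valuation (v.adicCompletion K) (WithZero (Multiplicative ℤ))) 2 =
      exp (-1 : ℤ) := by
    rw [← map_ofNat (algebraMap K (v.adicCompletion K)) 2, val_completion, hv2]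
  have hK2lt : (Valued.v : Valuation (v.adicCompletion K) (WithZero (Multiplicative ℤ))) 2 < 1 := by
    rw [hK2, ← exp_zero, exp_lt_exp]; norm_num
  have hmax : ∀ x : v.adicCompletion K, Valued.v x < 1 → Valued.v x ≤
      (Valued.v : Valuation (v.adicCompletion K) (WithZero (Multiplicative ℤ))) 2 :=
    fun x hx => by rw [hK2]; exact le_of_lt_one hx
  have key := conv_even_field
    (Valued.v : Valuation (v.adicCompletion K) (WithZero (Multiplicative ℤ))) hK2lt hK20 hmax
    (fun x z hx hz h => sq_two v hK2lt hx hz h)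
    (fun x hx => exists_root_adic v h2 x hx)
    (fun l1 l2 w1 w2 h1 h2' h hw1 hw2 => exists_as_adic v h2 l1 l2 w1 w2 h1 h2' h hw1 hw2)
    (algebraMap K (v.adicCompletion K) (n * s1 ^ 2))
    (algebraMap K (v.adicCompletion K) (a * s2 ^ 2))
    (algebraMap K (v.adicCompletion K) (b * s3 ^ 2))
    (algebraMap K (v.adicCompletion K) (algebraMap (𝓞 K) K e))
    (algebraMap K (v.adicCompletion K) (algebraMap (𝓞 K) K t))
    (algebraMap K (v.adicCompletion K) (algebraMap (𝓞 K) K B))
    (val_int_le_one v e) (val_int_le_one v t)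
    (by rw [hB]; simp only [map_mul, map_add, map_pow, map_one])
    (by
      rw [← val_completion, ← val_completion] at k1
      simp only [map_sub, map_mul, map_add, map_pow, map_one, map_ofNat] at k1 ⊢
      exact k1)
    (by
      rw [← val_completion, ← val_completion] at k2
      simp only [map_sub, map_mul, map_add, map_pow, map_one, map_ofNat] at k2 ⊢
      exact k2)
    (by
      rw [← val_completion, ← val_completion] at k3
      simp only [map_sub, map_mul, map_add, map_pow, map_one, map_ofNat] at k3 ⊢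
      exact k3)
  have c1 : algebraMap K (v.adicCompletion K) s1 ≠ 0 := (map_ne_zero _).2 hs1
  have c2 : algebraMap K (v.adicCompletion K) s2 ≠ 0 := (map_ne_zero _).2 hs2
  have c3 : algebraMap K (v.adicCompletion K) s3 ≠ 0 := (map_ne_zero _).2 hs3
  rw [map_mul _ a, map_mul _ b, map_pow _ s2, map_pow _ s3] at key
  have key2 := hasPoint_scale (inv_ne_zero c1) (hasPoint_sq _ _ _ _ _ c2 c3 key)
  convert key2 using 1
  rw [map_mul, map_pow]
  field_simp

/-- v above 2, v(n) odd. -/
theorem conv_two_odd (v : HeightOneSpectrum (𝓞 K)) (h2 : (2 : 𝓞 K) ∈ v.asIdeal)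
    (hunr : (2 : 𝓞 K) ∉ v.asIdeal ^ 2) {n a b : K} (hn0 : n ≠ 0) (ha0 : a ≠ 0) (hb0 : b ≠ 0)
    (m r : 𝓞 K) (hn : Near v 4 (2 * n) (algebraMap (𝓞 K) K (1 + 2 * m)))
    (ha : Near v 8 a (algebraMap (𝓞 K) K (1 + 4 * r)))
    (hb : Near v 8 b (algebraMap (𝓞 K) K ((1 + 2 * r ^ 2) * (1 + 4 * (m * r ^ 2))))) :
    HasPoint (algebraMap K (v.adicCompletion K) n) (algebraMap K (v.adicCompletion K) a)
      (algebraMap K (v.adicCompletion K) b) := by
  have hv2 := val_two v h2 hunr
  have hlt2 : v.valuation K 2 < 1 := by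
    rw [hv2, ← exp_zero, exp_lt_exp]; norm_num
  have hlt4 : v.valuation K 4 < 1 := by
    have : (4 : K) = 2 * 2 := by norm_num
    rw [this, map_mul]
    exact mul_lt_one_of_nonneg_of_lt_one_left zero_le hlt2 hlt2.le
  have hlt8 : v.valuation K 8 < 1 := by
    have : (8 : K) = 2 * 4 := by norm_num
    rw [this, map_mul]
    exact mul_lt_one_of_nonneg_of_lt_one_left zero_le hlt2 hlt4.le
  obtain ⟨s1, hs1, k1⟩ := near_scale v (mul_ne_zero two_ne_zero hn0) hlt4 (val_odd v h2 m) hn
  obtain ⟨s2, hs2, k2⟩ := near_scale v ha0 hlt8 (by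
    have e1 : 1 + 4 * r = 1 + 2 * (2 * r) := by ring
    rw [e1]; exact val_odd v h2 _) ha
  obtain ⟨s3, hs3, k3⟩ := near_scale v hb0 hlt8 (by
    have e1 : (1 + 2 * r ^ 2) * (1 + 4 * (m * r ^ 2)) =
      1 + 2 * (r ^ 2 + (1 + 2 * r ^ 2) * (2 * (m * r ^ 2))) := by ring
    rw [e1]; exact val_odd v h2 _) hb
  have hK20 : (2 : v.adicCompletion K) ≠ 0 := by
    rw [← map_ofNat (algebraMap K (v.adicCompletion K)) 2]
    exact (map_ne_zero _).mpr two_ne_zero
  have hK2 : (Valued.v : Valuation (v.adicCompletion K) (WithZero (Multiplicative ℤ))) 2 =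
      exp (-1 : ℤ) := by
    rw [← map_ofNat (algebraMap K (v.adicCompletion K)) 2, val_completion, hv2]
  have hK2lt : (Valued.v : Valuation (v.adicCompletion K) (WithZero (Multiplicative ℤ))) 2 < 1 := by
    rw [hK2, ← exp_zero, exp_lt_exp]; norm_num
  have hmax : ∀ x : v.adicCompletion K, Valued.v x < 1 → Valued.v x ≤
      (Valued.v : Valuation (v.adicCompletion K) (WithZero (Multiplicative ℤ))) 2 :=
    fun x hx => by rw [hK2]; exact le_of_lt_one hx
  have key := conv_odd_field
    (Valued.v : Valuation (v.adicCompletion K) (WithZero (Multiplicative ℤ))) hK2lt hK20 hmax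
    (fun x z hx hz h => sq_two v hK2lt hx hz h)
    (algebraMap K (v.adicCompletion K) (2 * n * s1 ^ 2))
    (algebraMap K (v.adicCompletion K) (a * s2 ^ 2))
    (algebraMap K (v.adicCompletion K) (b * s3 ^ 2))
    (algebraMap K (v.adicCompletion K) (algebraMap (𝓞 K) K m))
    (algebraMap K (v.adicCompletion K) (algebraMap (𝓞 K) K r))
    (val_int_le_one v m) (val_int_le_one v r)
    (by
      rw [← val_completion, ← val_completion] at k1
      simp only [map_sub, map_mul, map_add, map_pow, map_one, map_ofNat] at k1 ⊢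
      exact k1)
    (by
      rw [← val_completion, ← val_completion] at k2
      simp only [map_sub, map_mul, map_add, map_pow, map_one, map_ofNat] at k2 ⊢
      exact k2)
    (by
      rw [← val_completion, ← val_completion] at k3
      simp only [map_sub, map_mul, map_add, map_pow, map_one, map_ofNat] at k3 ⊢
      exact k3)
  have c1 : algebraMap K (v.adicCompletion K) s1 ≠ 0 := (map_ne_zero _).2 hs1
  have c2 : algebraMap K (v.adicCompletion K) s2 ≠ 0 := (map_ne_zero _).2 hs2
  have c3 : algebraMap K (v.adicCompletion K) s3 ≠ 0 := (map_ne_zero _).2 hs3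
  rw [map_mul _ a, map_mul _ b, map_pow _ s2, map_pow _ s3] at key
  have key2 := hasPoint_scale (inv_ne_zero (mul_ne_zero hK20 c1))
    (hasPoint_sq _ _ _ _ _ c2 c3 key)
  convert key2 using 1
  rw [map_mul, map_mul, map_pow, map_ofNat]
  field_simp

end Pool.Agent.MP009fd8E
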