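import Pool.Agent.Lib.MP_009fd8_ag.RealPlace

/-!
MP_009fd8_ag, EveryField: the conditions at the places above 2 are sufficient (ring form).
-/

namespace Pool.Agent.MP009fd8E

open Pool.Agent.MP009fd8

variable {O : Type*} [CommRing O]

theorem ring_conv_odd
    (hsq : ∀ w z : O, 2 ∣ w - z ^ 2 - z → ∃ x : O, 1 + 4 * w = x ^ 2)
    (m a b μ r : O) (hm : 4 ∣ m - (1 + 2 * μ)) (ha : 8 ∣ a - (1 + 4 * r))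
    (hb : 8 ∣ b - (1 + 2 * r ^ 2) * (1 + 4 * (μ * r ^ 2))) :
    ∃ y z : O, b * (a - 2 * m * r ^ 2) = y ^ 2 ∧ a * b * (a + 2 * m * r ^ 2) = z ^ 2 := by
  obtain ⟨k1, h1⟩ := hm
  obtain ⟨k2, h2⟩ := ha
  obtain ⟨k3, h3⟩ := hb
  have em : m = 1 + 2 * μ + 4 * k1 := by linear_combination h1
  have ea : a = 1 + 4 * r + 8 * k2 := by linear_combination h2
  have eb : b = (1 + 2 * r ^ 2) * (1 + 4 * (μ * r ^ 2)) + 8 * k3 := by linear_combination h3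
  obtain ⟨q, hq⟩ : ∃ q : O, b * (a - 2 * m * r ^ 2) =
      1 + 4 * ((r ^ 2 + r) ^ 2 + (r ^ 2 + r)) + 8 * q :=
    ⟨- 4 * r ^ 6 * μ ^ 2 - 8 * r ^ 6 * μ * k1 - 2 * r ^ 6 * μ + 4 * r ^ 5 * μ - 2 * r ^ 4 * μ ^
      2 - 4 * r ^ 4 * μ * k1 + 8 * r ^ 4 * μ * k2 - r ^ 4 * μ - 2 * r ^ 4 * k1 - r ^ 4 + 2 * r ^
      3 * μ + 4 * r ^ 2 * μ * k2 - 4 * r ^ 2 * μ * k3 - 8 * r ^ 2 * k1 * k3 - r ^ 2 * k1 + 2 * r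
      ^ 2 * k2 - 2 * r ^ 2 * k3 - r ^ 2 + 4 * r * k3 + 8 * k2 * k3 + k2 + k3, by
      rw [em, ea, eb]; ring⟩
  obtain ⟨β, hβ⟩ : ∃ β : O, b = 1 + 2 * β :=
    ⟨r ^ 2 + 2 * (μ * r ^ 2) * (1 + 2 * r ^ 2) + 4 * k3, by rw [eb]; ring⟩
  obtain ⟨q', hq'⟩ : ∃ q : O, a * b * (a + 2 * m * r ^ 2) = b ^ 2 + 8 * q :=
    ⟨- 8 * r ^ 8 * μ ^ 2 + 16 * r ^ 7 * μ ^ 2 + 32 * r ^ 7 * μ * k1 + 8 * r ^ 7 * μ + 32 * r ^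
      6 * μ ^ 2 * k2 - 4 * r ^ 6 * μ ^ 2 + 64 * r ^ 6 * μ * k1 * k2 + 8 * r ^ 6 * μ * k1 + 16 *
      r ^ 6 * μ * k2 + 14 * r ^ 6 * μ + 8 * r ^ 5 * μ ^ 2 + 16 * r ^ 5 * μ * k1 + 64 * r ^ 5 * μ
      * k2 + 16 * r ^ 5 * μ + 8 * r ^ 5 * k1 + 2 * r ^ 5 + 16 * r ^ 4 * μ ^ 2 * k2 + 32 * r ^ 4
      * μ * k1 * k2 + 4 * r ^ 4 * μ * k1 + 64 * r ^ 4 * μ * k2 ^ 2 + 32 * r ^ 4 * μ * k2 - 16 *
      r ^ 4 * μ * k3 + 7 * r ^ 4 * μ + 16 * r ^ 4 * k1 * k2 + 2 * r ^ 4 * k1 + 4 * r ^ 4 * k2 +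
      4 * r ^ 4 + 32 * r ^ 3 * μ * k2 + 16 * r ^ 3 * μ * k3 + 6 * r ^ 3 * μ + 32 * r ^ 3 * k1 *
      k3 + 4 * r ^ 3 * k1 + 16 * r ^ 3 * k2 + 8 * r ^ 3 * k3 + 3 * r ^ 3 + 32 * r ^ 2 * μ * k2 ^
      2 + 32 * r ^ 2 * μ * k2 * k3 + 12 * r ^ 2 * μ * k2 - 4 * r ^ 2 * μ * k3 + 64 * r ^ 2 * k1
      * k2 * k3 + 8 * r ^ 2 * k1 * k2 + 8 * r ^ 2 * k1 * k3 + r ^ 2 * k1 + 16 * r ^ 2 * k2 ^ 2 +
      16 * r ^ 2 * k2 * k3 + 6 * r ^ 2 * k2 + 14 * r ^ 2 * k3 + 2 * r ^ 2 + 64 * r * k2 * k3 + 8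
      * r * k2 + 8 * r * k3 + r + 64 * k2 ^ 2 * k3 + 8 * k2 ^ 2 + 16 * k2 * k3 + 2 * k2 - 8 * k3
      ^ 2 - k3, by
      rw [em, ea, eb]; ring⟩
  obtain ⟨y, hy⟩ := hsq ((r ^ 2 + r) ^ 2 + (r ^ 2 + r) + 2 * q) (r ^ 2 + r) ⟨q, by ring⟩
  obtain ⟨z, hz⟩ := hsq (β ^ 2 + β + 2 * q') β ⟨q', by ring⟩
  refine ⟨y, z, ?_, ?_⟩
  · rw [← hy, hq]; ring
  · rw [← hz, hq', hβ]; ring

/-- a a square, b = 1 modulo 4. -/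
theorem ring_conv_zero
    (hsq : ∀ w z : O, 2 ∣ w - z ^ 2 - z → ∃ x : O, 1 + 4 * w = x ^ 2)
    (hroot : ∀ w : O, ∃ z : O, 2 ∣ w - z ^ 2)
    (n b : O) (hn : IsUnit n) (hb : 4 ∣ b - 1) :
    ∃ w y z : O, b * (1 - 4 * n * w ^ 2) = y ^ 2 ∧ b * (1 + 4 * n * w ^ 2) = z ^ 2 := by
  obtain ⟨s, hs⟩ := hb
  have eb : b = 1 + 4 * s := by linear_combination hs
  obtain ⟨ν, hν⟩ := hn.exists_right_inv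
  obtain ⟨w, p, hp⟩ := hroot (s * ν)
  have hw : n * w ^ 2 = s - 2 * (p * n) := by
    linear_combination s * hν - n * hp
  obtain ⟨y, hy⟩ := hsq (2 * (-2 * s ^ 2 + p * n * (1 + 4 * s))) 0
    ⟨-2 * s ^ 2 + p * n * (1 + 4 * s), by ring⟩
  obtain ⟨z, hz⟩ := hsq (2 * (s + 2 * s ^ 2 - p * n * (1 + 4 * s))) 0
    ⟨s + 2 * s ^ 2 - p * n * (1 + 4 * s), by ring⟩
  refine ⟨w, y, z, ?_, ?_⟩
  · rw [← hy, eb]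
    linear_combination (-4 * (1 + 4 * s)) * hw
  · rw [← hz, eb]
    linear_combination (4 * (1 + 4 * s)) * hw

set_option maxRecDepth 100000 in
/-- t and 1 + t units. -/
theorem ring_conv_generic
    (hsq : ∀ w z : O, 2 ∣ w - z ^ 2 - z → ∃ x : O, 1 + 4 * w = x ^ 2)
    (hAS : ∀ l1 l2 w1 w2 : O, IsUnit l1 → IsUnit l2 → IsUnit (l1 - l2) →
      ∃ m z1 z2 : O, 2 ∣ w1 + l1 * m - z1 ^ 2 - z1 ∧ 2 ∣ w2 + l2 * m - z2 ^ 2 - z2)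
    (n a b e t B : O) (ht : IsUnit t) (ht1 : IsUnit (1 + t)) (h12 : IsUnit (1 + 2 * t))
    (hB : B = t ^ 4 + (1 + e) * t ^ 2 + t) (hn : 4 ∣ n - (1 + 2 * e))
    (ha : 8 ∣ a - (1 + 2 * t ^ 2) * (1 + 4 * (t + e * B))) (hb : 4 ∣ b - (1 + 2 * B)) :
    ∃ α m x w : O, a = 1 + 2 * α ∧ b * n * (α - 2 * (m + m ^ 2)) = w ^ 2 ∧
      a * b * (1 + α + 2 * (m + m ^ 2)) = x ^ 2 := by
  obtain ⟨N, h1⟩ := hn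
  obtain ⟨A, h2⟩ := ha
  obtain ⟨S, h3⟩ := hb
  obtain ⟨τ, hτ⟩ := ht.exists_right_inv
  obtain ⟨σ, hσ⟩ := ht1.exists_right_inv
  have en : n = 1 + 2 * e + 4 * N := by linear_combination h1
  have eb : b = 1 + 2 * B + 4 * S := by linear_combination h3
  obtain ⟨α, hα⟩ : ∃ α : O, α = t ^ 2 + 2 * (t + e * B) * (1 + 2 * t ^ 2) + 4 * A := ⟨_, rfl⟩
  have ea : a = 1 + 2 * α := by rw [hα]; linear_combination h2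
  obtain ⟨m0, hm0⟩ : ∃ m0 : O, m0 = t ^ 3 + e * t + t ^ 2 + t := ⟨_, rfl⟩
  obtain ⟨R, hR⟩ : ∃ R : O, R = t + e * B := ⟨_, rfl⟩
  obtain ⟨M, hM⟩ : ∃ M : O, M = m0 + m0 ^ 2 := ⟨_, rfl⟩
  rw [← hR] at hα
  obtain ⟨D1, hD1⟩ : ∃ D : O, (e + B) * t ^ 2 + R - M = 2 * D :=
    ⟨- t ^ 5 - t ^ 4 - t ^ 3 * e - t ^ 3 - t ^ 2, by
      rw [hR, hM, hm0, hB]; ring⟩
  obtain ⟨D2, hD2⟩ : ∃ D : O, (t ^ 2 + B) * (1 + t ^ 2) + R + M - t = 2 * D :=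
    ⟨t ^ 6 + t ^ 5 + 2 * t ^ 4 * e + 3 * t ^ 4 + t ^ 3 * e + 2 * t ^ 3 + t ^ 2 * e ^ 2 + 2 *
      t ^ 2 * e + 2 * t ^ 2 + t * e + t, by
      rw [hR, hM, hm0, hB]; ring⟩
  obtain ⟨G1, hG1⟩ : ∃ q : O, b * n * (α - 2 * M) =
      t ^ 2 + 2 * ((e + B) * t ^ 2 + R - M) + 4 * q :=
    ⟨4 * t ^ 2 * e * B * R + t ^ 2 * e * B + 8 * t ^ 2 * e * R * S + 2 * t ^ 2 * e * R + 2 *
      t ^ 2 * e * S + 8 * t ^ 2 * B * R * N + 2 * t ^ 2 * B * R + 2 * t ^ 2 * B * N + 16 * t ^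
      2 * R * N * S + 4 * t ^ 2 * R * N + 4 * t ^ 2 * R * S + t ^ 2 * R + 4 * t ^ 2 * N * S +
      t ^ 2 * N + t ^ 2 * S + 2 * e * B * R - 2 * e * B * M + 4 * e * B * A + 4 * e * R * S +
      e * R - 4 * e * M * S - e * M + 8 * e * A * S + 2 * e * A + 4 * B * R * N + B * R - 4 *
      B * M * N - B * M + 8 * B * N * A + 2 * B * A + 8 * R * N * S + 2 * R * N + 2 * R * S -
      8 * M * N * S - 2 * M * N - 2 * M * S + 16 * N * A * S + 4 * N * A + 4 * A * S + A, by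
      rw [en, eb, hα]; ring⟩
  obtain ⟨G2, hG2⟩ : ∃ q : O, a * b * (1 + α + 2 * M) =
      (1 + t) ^ 2 + 2 * ((t ^ 2 + B) * (1 + t ^ 2) + R + M - t) + 4 * q :=
    ⟨16 * t ^ 4 * B * R ^ 2 + 8 * t ^ 4 * B * R + t ^ 4 * B + 32 * t ^ 4 * R ^ 2 * S + 8 * t
      ^ 4 * R ^ 2 + 16 * t ^ 4 * R * S + 4 * t ^ 4 * R + 2 * t ^ 4 * S + 16 * t ^ 2 * B * R ^
      2 + 8 * t ^ 2 * B * R * M + 32 * t ^ 2 * B * R * A + 10 * t ^ 2 * B * R + 2 * t ^ 2 * B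
      * M + 8 * t ^ 2 * B * A + t ^ 2 * B + 32 * t ^ 2 * R ^ 2 * S + 8 * t ^ 2 * R ^ 2 + 16 *
      t ^ 2 * R * M * S + 4 * t ^ 2 * R * M + 64 * t ^ 2 * R * A * S + 16 * t ^ 2 * R * A + 20
      * t ^ 2 * R * S + 5 * t ^ 2 * R + 4 * t ^ 2 * M * S + t ^ 2 * M + 16 * t ^ 2 * A * S + 4
      * t ^ 2 * A + 3 * t ^ 2 * S + 4 * B * R ^ 2 + 4 * B * R * M + 16 * B * R * A + 3 * B * R
      + 8 * B * M * A + B * M + 16 * B * A ^ 2 + 6 * B * A + 8 * R ^ 2 * S + 2 * R ^ 2 + 8 * R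
      * M * S + 2 * R * M + 32 * R * A * S + 8 * R * A + 6 * R * S + R + 16 * M * A * S + 4 *
      M * A + 2 * M * S + 32 * A ^ 2 * S + 8 * A ^ 2 + 12 * A * S + 3 * A + S, by
      rw [ea, eb, hα]; ring⟩
  obtain ⟨Q1, hQ1⟩ : ∃ q : O, b * n * (α - 2 * (m0 + m0 ^ 2)) = t ^ 2 + 4 * q :=
    ⟨D1 + G1, by rw [← hM, hG1, hD1]; ring⟩
  obtain ⟨Q2, hQ2⟩ : ∃ q : O, a * b * (1 + α + 2 * (m0 + m0 ^ 2)) = (1 + t) ^ 2 + 4 * q :=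
    ⟨D2 + G2, by rw [← hM, hG2, hD2]; ring⟩
  have hτu : IsUnit τ := IsUnit.of_mul_eq_one t (by rw [mul_comm]; exact hτ)
  have hσu : IsUnit σ := IsUnit.of_mul_eq_one (1 + t) (by rw [mul_comm]; exact hσ)
  obtain ⟨μ, z1, z2, ⟨p1, hp1⟩, ⟨p2, hp2⟩⟩ := hAS (τ ^ 2) (σ ^ 2) (τ ^ 2 * Q1) (σ ^ 2 * Q2)
    (hτu.pow 2) (hσu.pow 2) (by
      have e1 : τ ^ 2 - σ ^ 2 = (1 + 2 * t) * (τ ^ 2 * σ ^ 2) := by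
        have e2 : τ ^ 2 * ((1 + t) * σ) ^ 2 - σ ^ 2 * (t * τ) ^ 2 =
            (1 + 2 * t) * (τ ^ 2 * σ ^ 2) := by ring
        rw [hτ, hσ] at e2
        rw [← e2]; ring
      rw [e1]
      exact h12.mul ((hτu.pow 2).mul (hσu.pow 2)))
  obtain ⟨β1, hβ1⟩ : ∃ β : O, b * n = 1 + 2 * β :=
    ⟨B + e + 2 * (N + S + B * e + 2 * B * N + 2 * S * e + 4 * S * N), by rw [eb, en]; ring⟩
  obtain ⟨β2, hβ2⟩ : ∃ β : O, a * b = 1 + 2 * β :=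
    ⟨α + (B + 2 * S) * (1 + 2 * α), by rw [eb, ea]; ring⟩
  obtain ⟨w, hw⟩ := hsq (τ ^ 2 * Q1 - τ ^ 2 * μ * (b * n) - 2 * (b * n) * τ ^ 2 *
      (μ * m0 + μ ^ 2)) z1 ⟨p1 - τ ^ 2 * μ * (1 + β1) - (b * n) * τ ^ 2 * (μ * m0 + μ ^ 2), by
        linear_combination hp1 - τ ^ 2 * μ * hβ1⟩
  obtain ⟨x, hx⟩ := hsq (σ ^ 2 * Q2 + σ ^ 2 * μ * (a * b) + 2 * (a * b) * σ ^ 2 *
      (μ * m0 + μ ^ 2)) z2 ⟨p2 + σ ^ 2 * μ * β2 + (a * b) * σ ^ 2 * (μ * m0 + μ ^ 2), by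
        linear_combination hp2 + σ ^ 2 * μ * hβ2⟩
  refine ⟨α, m0 + 2 * μ, x * (1 + t), w * t, ea, ?_, ?_⟩
  · have e1 : b * n * (α - 2 * ((m0 + 2 * μ) + (m0 + 2 * μ) ^ 2)) =
        t ^ 2 + 4 * (Q1 - μ * (b * n) - 2 * (b * n) * (μ * m0 + μ ^ 2)) := by
      linear_combination hQ1
    have e2 : (w * t) ^ 2 = t ^ 2 + 4 * (t * τ) ^ 2 *
        (Q1 - μ * (b * n) - 2 * (b * n) * (μ * m0 + μ ^ 2)) := by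
      rw [mul_pow, ← hw]; ring
    rw [e1, e2, hτ]; ring
  · have e1 : a * b * (1 + α + 2 * ((m0 + 2 * μ) + (m0 + 2 * μ) ^ 2)) =
        (1 + t) ^ 2 + 4 * (Q2 + μ * (a * b) + 2 * (a * b) * (μ * m0 + μ ^ 2)) := by
      linear_combination hQ2
    have e2 : (x * (1 + t)) ^ 2 = (1 + t) ^ 2 + 4 * ((1 + t) * σ) ^ 2 *
        (Q2 + μ * (a * b) + 2 * (a * b) * (μ * m0 + μ ^ 2)) := by
      rw [mul_pow, ← hx]; ring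
    rw [e1, e2, hσ]; ring

end Pool.Agent.MP009fd8E
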