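import Pool.Agent.Lib.MP_009fd8_agE.At8
import Pool.Agent.Lib.MP_009fd8_agE.Conv8

/-!
MP_009fd8_ag, EveryField: the conditions at the places above 2 are sufficient (valued fields).
-/

namespace Pool.Agent.MP009fd8E

open Pool.Agent.MP009fd8

variable {F : Type*} [Field F] {Γ : Type*} [LinearOrderedCommGroupWithZero Γ]

/-- a a nonzero square, b = 1 modulo 4. -/
theorem hasPoint_zero (w : Valuation F Γ) (h2 : w 2 < 1) (h20 : (2 : F) ≠ 0)
    (hsq : ∀ x z : F, w x ≤ 1 → w z ≤ 1 → w (x - z ^ 2 - z) < 1 → ∃ y : F, 1 + 4 * x = y ^ 2)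
    (hroot : ∀ x : F, w x ≤ 1 → ∃ z : F, w z ≤ 1 ∧ w (x - z ^ 2) < 1)
    (n x b : F) (hx : x ≠ 0) (hn : w n = 1) (hb1 : w b = 1) (hb : w (b - 1) ≤ w 4) :
    HasPoint n (x ^ 2) b := by
  have hb0 : b ≠ 0 := by
    intro h0
    rw [h0, map_zero] at hb1
    exact zero_ne_one hb1
  have hn0 : n ≠ 0 := by
    intro h0
    rw [h0, map_zero] at hn
    exact zero_ne_one hn
  have h40 : (4 : F) ≠ 0 := by
    have : (4 : F) = 2 * 2 := by norm_num
    rw [this]; exact mul_ne_zero h20 h20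
  have hv4 : 0 < w 4 := zero_lt_iff.2 ((Valuation.ne_zero_iff w).2 h40)
  have hw4 : w 4 ≤ 1 := by
    have : (4 : F) = 2 * 2 := by norm_num
    rw [this, map_mul]
    exact mul_le_one' h2.le h2.le
  have hw2 : ∀ y : F, w y ≤ 1 → w (2 * y) < 1 := by
    intro y hy
    rw [map_mul]
    calc w 2 * w y ≤ w 2 * 1 := mul_le_mul_right hy _
      _ < 1 := by rw [mul_one]; exact h2
  obtain ⟨s, hs⟩ : ∃ s : F, s = (b - 1) / 4 := ⟨_, rfl⟩
  have hs1 : w s ≤ 1 := by
    rw [hs, map_div₀]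
    exact (div_le_one₀ hv4).2 hb
  have eb : b = 1 + 4 * s := by rw [hs]; field_simp; ring
  have hsn : w (s / n) ≤ 1 := by rw [map_div₀, hn, div_one]; exact hs1
  obtain ⟨r, hr1, hr⟩ := hroot (s / n) hsn
  have hmul : ∀ y z : F, w y ≤ 1 → w z ≤ 1 → w (y * z) ≤ 1 := by
    intro y z hy hz
    rw [map_mul]; exact mul_le_one' hy hz
  have hr2 : w (r ^ 2) ≤ 1 := by rw [map_pow]; exact pow_le_one' hr1 2
  -- n r^2 = s modulo the maximal ideal
  have hnr : w (s - n * r ^ 2) < 1 := by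
    have e : s - n * r ^ 2 = n * (s / n - r ^ 2) := by field_simp
    rw [e, map_mul, hn, one_mul]; exact hr
  have hnr1 : w (n * r ^ 2) ≤ 1 := hmul _ _ hn.le hr2
  obtain ⟨y, hy⟩ := hsq (s - n * r ^ 2 - 4 * (s * (n * r ^ 2))) 0
    (Valuation.map_sub_le w hnr.le (hmul _ _ hw4 (hmul _ _ hs1 hnr1)))
    (by rw [map_zero]; exact zero_le) (by
      have e : s - n * r ^ 2 - 4 * (s * (n * r ^ 2)) - 0 ^ 2 - 0 =
        (s - n * r ^ 2) - 2 * (2 * (s * (n * r ^ 2))) := by ring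
      rw [e]
      exact Valuation.map_sub_lt w hnr (hw2 _ (hmul _ _ h2.le (hmul _ _ hs1 hnr1))))
  obtain ⟨z, hz⟩ := hsq (s + n * r ^ 2 + 4 * (s * (n * r ^ 2))) 0
    (Valuation.map_add_le w (Valuation.map_add_le w hs1 hnr1)
      (hmul _ _ hw4 (hmul _ _ hs1 hnr1)))
    (by rw [map_zero]; exact zero_le) (by
      have e : s + n * r ^ 2 + 4 * (s * (n * r ^ 2)) - 0 ^ 2 - 0 =
        (s - n * r ^ 2) + 2 * (n * r ^ 2 + 2 * (s * (n * r ^ 2))) := by ring
      rw [e]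
      exact Valuation.map_add_lt w hnr (hw2 _ (Valuation.map_add_le w hnr1
        (hmul _ _ h2.le (hmul _ _ hs1 hnr1)))))
  have ey : b * (1 - 4 * n * r ^ 2) = y ^ 2 := by rw [← hy, eb]; ring
  have ez : b * (1 + 4 * n * r ^ 2) = z ^ 2 := by rw [← hz, eb]; ring
  refine ⟨1 / x, y / b, z / (x * b), 2 * r, Or.inl (one_div_ne_zero hx), ?_, ?_⟩
  · field_simp
    linear_combination -ey
  · field_simp
    linear_combination -ez

/-- v(n) even. -/
theorem conv_even_field (w : Valuation F Γ) (h2 : w 2 < 1) (h20 : (2 : F) ≠ 0)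
    (hmax : ∀ x : F, w x < 1 → w x ≤ w 2)
    (hsq : ∀ x z : F, w x ≤ 1 → w z ≤ 1 → w (x - z ^ 2 - z) < 1 → ∃ y : F, 1 + 4 * x = y ^ 2)
    (hroot : ∀ x : F, w x ≤ 1 → ∃ z : F, w z ≤ 1 ∧ w (x - z ^ 2) < 1)
    (hAS : ∀ l1 l2 w1 w2 : F, w l1 = 1 → w l2 = 1 → w (l1 - l2) = 1 → w w1 ≤ 1 → w w2 ≤ 1 →
      ∃ m z1 z2 : F, w m ≤ 1 ∧ w z1 ≤ 1 ∧ w z2 ≤ 1 ∧ w (w1 + l1 * m - z1 ^ 2 - z1) < 1 ∧
        w (w2 + l2 * m - z2 ^ 2 - z2) < 1)
    (n a b e t B : F) (he : w e ≤ 1) (ht : w t ≤ 1) (hB : B = t ^ 4 + (1 + e) * t ^ 2 + t)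
    (hn : w (n - (1 + 2 * e)) ≤ w 4)
    (ha : w (a - (1 + 2 * t ^ 2) * (1 + 4 * (t + e * B))) ≤ w 8)
    (hb : w (b - (1 + 2 * B)) ≤ w 4) : HasPoint n a b := by
  have e2 : ((2 : w.integer) : F) = 2 := rfl
  have e4 : ((4 : w.integer) : F) = 4 := rfl
  have e8 : ((8 : w.integer) : F) = 8 := rfl
  have h40 : (4 : F) ≠ 0 := by
    have : (4 : F) = 2 * 2 := by norm_num
    rw [this]; exact mul_ne_zero h20 h20
  have h80 : (8 : F) ≠ 0 := by
    have : (8 : F) = 2 * 4 := by norm_num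
    rw [this]; exact mul_ne_zero h20 h40
  have hw4 : w 4 ≤ 1 := by
    have : (4 : F) = 2 * 2 := by norm_num
    rw [this, map_mul]
    exact mul_le_one' h2.le h2.le
  have hw8 : w 8 ≤ 1 := by
    have : (8 : F) = 2 * 4 := by norm_num
    rw [this, map_mul]
    exact mul_le_one' h2.le hw4
  have hlt_iff : ∀ x : w.integer, 2 ∣ x ↔ w (x : F) < 1 := by
    intro x
    rw [dvd_iff w 2 x (by rw [e2]; exact h20), e2]
    exact ⟨fun hx => lt_of_le_of_lt hx h2, fun hx => hmax _ hx⟩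
  have hloc : ∀ x : w.integer, IsUnit x ∨ 2 ∣ x := by
    intro x
    rcases lt_or_eq_of_le x.2 with hx | hx
    · exact Or.inr ((hlt_iff x).2 hx)
    · exact Or.inl ((isUnit_iff w x).2 hx)
  have hmul : ∀ y z : F, w y ≤ 1 → w z ≤ 1 → w (y * z) ≤ 1 := by
    intro y z hy hz
    rw [map_mul]; exact mul_le_one' hy hz
  have hone : w (1 : F) ≤ 1 := by rw [map_one]
  have hadd : ∀ y z : F, w y ≤ 1 → w z ≤ 1 → w (y + z) ≤ 1 := fun y z hy hz =>
    Valuation.map_add_le w hy hz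
  have hpow : ∀ (y : F) (k : ℕ), w y ≤ 1 → w (y ^ k) ≤ 1 := by
    intro y k hy
    rw [map_pow]; exact pow_le_one' hy k
  have hB1 : w B ≤ 1 := by
    rw [hB]
    exact hadd _ _ (hadd _ _ (hpow _ _ ht) (hmul _ _ (hadd _ _ hone he) (hpow _ _ ht))) ht
  have hn1 : w n ≤ 1 := by
    have e1 : n = (n - (1 + 2 * e)) + (1 + 2 * e) := by ring
    rw [e1]
    exact hadd _ _ (hn.trans hw4) (hadd _ _ hone (hmul _ _ h2.le he))
  have hb1 : w b ≤ 1 := by
    have e1 : b = (b - (1 + 2 * B)) + (1 + 2 * B) := by ring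
    rw [e1]
    exact hadd _ _ (hb.trans hw4) (hadd _ _ hone (hmul _ _ h2.le hB1))
  have ha1 : w a ≤ 1 := by
    have e1 : a = (a - (1 + 2 * t ^ 2) * (1 + 4 * (t + e * B))) +
      (1 + 2 * t ^ 2) * (1 + 4 * (t + e * B)) := by ring
    rw [e1]
    exact hadd _ _ (ha.trans hw8) (hmul _ _ (hadd _ _ hone (hmul _ _ h2.le (hpow _ _ ht)))
      (hadd _ _ hone (hmul _ _ hw4 (hadd _ _ ht (hmul _ _ he hB1)))))
  obtain ⟨N, hN⟩ : ∃ N : w.integer, (N : F) = n := ⟨⟨n, hn1⟩, rfl⟩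
  obtain ⟨A, hA⟩ : ∃ A : w.integer, (A : F) = a := ⟨⟨a, ha1⟩, rfl⟩
  obtain ⟨b', hb'⟩ : ∃ b' : w.integer, (b' : F) = b := ⟨⟨b, hb1⟩, rfl⟩
  obtain ⟨E, hE⟩ : ∃ E : w.integer, (E : F) = e := ⟨⟨e, he⟩, rfl⟩
  obtain ⟨T, hT⟩ : ∃ T : w.integer, (T : F) = t := ⟨⟨t, ht⟩, rfl⟩
  obtain ⟨B', hB'⟩ : ∃ B' : w.integer, (B' : F) = B := ⟨⟨B, hB1⟩, rfl⟩
  have hBB : B' = T ^ 4 + (1 + E) * T ^ 2 + T := by
    apply Subtype.ext
    simp only [Subring.coe_mul, Subring.coe_add, Subring.coe_pow, Subring.coe_one, hB', hT, hE]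
    exact hB
  have dN : 4 ∣ N - (1 + 2 * E) := by
    rw [dvd_iff w 4 _ (by rw [e4]; exact h40), e4]
    simp only [Subring.coe_mul, AddSubgroupClass.coe_sub, Subring.coe_add, Subring.coe_one, hN,
      hE, e2]
    exact hn
  have dA : 8 ∣ A - (1 + 2 * T ^ 2) * (1 + 4 * (T + E * B')) := by
    rw [dvd_iff w 8 _ (by rw [e8]; exact h80), e8]
    simp only [Subring.coe_mul, AddSubgroupClass.coe_sub, Subring.coe_add, Subring.coe_pow,
      Subring.coe_one, hA, hT, hE, hB', e2, e4]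
    exact ha
  have db : 4 ∣ b' - (1 + 2 * B') := by
    rw [dvd_iff w 4 _ (by rw [e4]; exact h40), e4]
    simp only [Subring.coe_mul, AddSubgroupClass.coe_sub, Subring.coe_add, Subring.coe_one, hb',
      hB', e2]
    exact hb
  have hsqO : ∀ x z : w.integer, 2 ∣ x - z ^ 2 - z → ∃ y : w.integer, 1 + 4 * x = y ^ 2 := by
    intro x z hxz
    rw [hlt_iff] at hxz
    simp only [AddSubgroupClass.coe_sub, Subring.coe_pow] at hxz
    obtain ⟨y, hy⟩ := hsq (x : F) (z : F) x.2 z.2 hxz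
    have hy1 : w y ≤ 1 := by
      have h3 : w (y ^ 2) ≤ 1 := by
        rw [← hy]; exact hadd _ _ hone (hmul _ _ hw4 x.2)
      rw [map_pow] at h3
      by_contra hlt
      rw [not_le] at hlt
      exact absurd h3 (not_le.2 (one_lt_pow₀ hlt two_ne_zero))
    refine ⟨⟨y, hy1⟩, Subtype.ext ?_⟩
    simp only [Subring.coe_mul, Subring.coe_add, Subring.coe_pow, Subring.coe_one, e4]
    exact hy
  have unit_one : ∀ x : w.integer, 2 ∣ x → IsUnit (1 + x) := by
    intro x hx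
    rw [isUnit_iff]
    rw [hlt_iff] at hx
    rw [Subring.coe_add, Subring.coe_one, Valuation.map_add_eq_of_lt_left w (by
      rw [map_one]; exact hx), map_one]
  have hbu : IsUnit b' := by
    obtain ⟨k, hk⟩ := db
    have e1 : b' = 1 + 2 * (B' + 2 * k) := by linear_combination hk
    rw [e1]; exact unit_one _ ⟨_, rfl⟩
  have hNu : IsUnit N := by
    obtain ⟨k, hk⟩ := dN
    have e1 : N = 1 + 2 * (E + 2 * k) := by linear_combination hk
    rw [e1]; exact unit_one _ ⟨_, rfl⟩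
  have hwb : w b = 1 := by
    have := (isUnit_iff w b').1 hbu
    rwa [hb'] at this
  have hwn : w n = 1 := by
    have := (isUnit_iff w N).1 hNu
    rwa [hN] at this
  have hb0 : b ≠ 0 := by
    intro h0
    rw [h0, map_zero] at hwb
    exact zero_ne_one hwb
  have hn0 : n ≠ 0 := by
    intro h0
    rw [h0, map_zero] at hwn
    exact zero_ne_one hwn
  have ne_of_sq : ∀ x : w.integer, 2 ∣ x ^ 2 - 1 → (x : F) ≠ 0 := by
    intro x hx h0
    rw [hlt_iff] at hx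
    simp only [AddSubgroupClass.coe_sub, Subring.coe_pow, Subring.coe_one, h0] at hx
    rw [zero_pow two_ne_zero, zero_sub, Valuation.map_neg, map_one] at hx
    exact lt_irrefl _ hx
  rcases hloc T with hTu | ⟨T', hT'⟩
  · rcases hloc (1 + T) with hTu1 | ⟨T', hT'⟩
    · obtain ⟨α, m, x, y, f1, f2, f3⟩ := ring_conv_generic hsqO (by
          intro l1 l2 w1 w2 hl1 hl2 hl
          rw [isUnit_iff] at hl1 hl2 hl
          obtain ⟨m, z1, z2, hm, hz1, hz2, g1, g2⟩ := hAS (l1 : F) (l2 : F) (w1 : F) (w2 : F)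
            hl1 hl2 (by rw [← AddSubgroupClass.coe_sub]; exact hl) w1.2 w2.2
          refine ⟨⟨m, hm⟩, ⟨z1, hz1⟩, ⟨z2, hz2⟩, ?_, ?_⟩
          · rw [hlt_iff]
            simp only [Subring.coe_mul, AddSubgroupClass.coe_sub, Subring.coe_add,
              Subring.coe_pow]
            exact g1
          · rw [hlt_iff]
            simp only [Subring.coe_mul, AddSubgroupClass.coe_sub, Subring.coe_add,
              Subring.coe_pow]
            exact g2)
        N A b' E T B' hTu hTu1 (unit_one _ ⟨T, rfl⟩) hBB dN dA db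
      have g1 := congrArg (fun z : w.integer => (z : F)) f1
      have g2 := congrArg (fun z : w.integer => (z : F)) f2
      have g3 := congrArg (fun z : w.integer => (z : F)) f3
      simp only [Subring.coe_mul, AddSubgroupClass.coe_sub, Subring.coe_add,
        Subring.coe_pow, Subring.coe_one, hN, hA, hb', e2] at g1 g2 g3
      have ha0 : a ≠ 0 := by
        intro h0
        have h3 : IsUnit A := by
          rw [f1]; exact unit_one _ ⟨α, rfl⟩
        have h5 := (isUnit_iff w A).1 h3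
        rw [hA, h0, map_zero] at h5
        exact zero_ne_one h5
      refine ⟨(x : F) / a, 1 + 2 * (m : F), 1, (y : F) / n, Or.inr (Or.inr (Or.inl one_ne_zero)),
        ?_, ?_⟩
      · have k1 : a * ((x : F) / a) ^ 2 = b * (1 + (α : F) + 2 * ((m : F) + (m : F) ^ 2)) := by
          field_simp
          linear_combination -g3
        have k2 : n * ((y : F) / n) ^ 2 = b * ((α : F) - 2 * ((m : F) + (m : F) ^ 2)) := by
          field_simp
          linear_combination -g2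
        rw [k1, k2]; ring
      · have k1 : a * ((x : F) / a) ^ 2 = b * (1 + (α : F) + 2 * ((m : F) + (m : F) ^ 2)) := by
          field_simp
          linear_combination -g3
        have k2 : n * ((y : F) / n) ^ 2 = b * ((α : F) - 2 * ((m : F) + (m : F) ^ 2)) := by
          field_simp
          linear_combination -g2
        rw [k1, k2, g1]; ring
    · -- t = -1 modulo 2
      have eT : T = 2 * T' - 1 := by linear_combination hT'
      obtain ⟨k, hk⟩ := dN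
      obtain ⟨A', hA'⟩ := dA
      obtain ⟨s, hs⟩ := db
      obtain ⟨q, hq⟩ : ∃ q : w.integer, -A = (1 + 2 * E) ^ 2 + 8 * q := by
        refine ⟨-A' + (-64 * T' ^ 6 * E + 192 * T' ^ 5 * E - 16 * T' ^ 4 * E ^ 2 -
          264 * T' ^ 4 * E + 32 * T' ^ 3 * E ^ 2 + 200 * T' ^ 3 * E - 8 * T' ^ 3 -
          26 * T' ^ 2 * E ^ 2 - 86 * T' ^ 2 * E + 11 * T' ^ 2 + 10 * T' * E ^ 2 +
          19 * T' * E - 6 * T' - 2 * E ^ 2 - 2 * E + 1), ?_⟩
        rw [hBB, eT] at hA'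
        linear_combination -hA'
      obtain ⟨q2, hq2⟩ : ∃ q : w.integer, -N * b' = 1 + 4 * q := by
        refine ⟨-16 * T' ^ 4 * E - 32 * T' ^ 4 * k - 8 * T' ^ 4 + 32 * T' ^ 3 * E +
          64 * T' ^ 3 * k + 16 * T' ^ 3 - 4 * T' ^ 2 * E ^ 2 - 8 * T' ^ 2 * E * k -
          30 * T' ^ 2 * E - 56 * T' ^ 2 * k - 14 * T' ^ 2 + 4 * T' * E ^ 2 + 8 * T' * E * k +
          12 * T' * E + 20 * T' * k + 5 * T' - E ^ 2 - 2 * E * k - 2 * E * s - 2 * E -
          4 * k * s - 3 * k - s - 1, ?_⟩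
        have eN : N = 1 + 2 * E + 4 * k := by linear_combination hk
        have eb : b' = 1 + 2 * B' + 4 * s := by linear_combination hs
        rw [eN, eb, hBB, eT]
        ring
      obtain ⟨x, hx⟩ := hsqO (E ^ 2 + E + 2 * q) E ⟨q, by ring⟩
      have hx2 : -A = x ^ 2 := by rw [← hx, hq]; ring
      have hx0 : (x : F) ≠ 0 := ne_of_sq x ⟨2 * (E ^ 2 + E + 2 * q), by rw [← hx]; ring⟩
      have hax : -a = (x : F) ^ 2 := by
        have := congrArg (fun z : w.integer => (z : F)) hx2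
        simp only [Subring.coe_neg, Subring.coe_pow, hA] at this
        exact this
      have hnb : w (-n * b - 1) ≤ w 4 := by
        have h5 : (4 : w.integer) ∣ -N * b' - 1 := ⟨q2, by rw [hq2]; ring⟩
        rw [dvd_iff w 4 _ (by rw [e4]; exact h40), e4] at h5
        simp only [Subring.coe_mul, AddSubgroupClass.coe_sub, Subring.coe_neg, Subring.coe_one,
          hN, hb'] at h5
        exact h5
      have hp := hasPoint_zero w h2 h20 hsq hroot n (x : F) (-n * b) hx0 hwn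
        (by rw [map_mul, Valuation.map_neg, hwn, hwb, one_mul]) hnb
      have hp2 := hasPoint_translate_zero n ((x : F) ^ 2) (-n * b) hn0 (pow_ne_zero 2 hx0) hp
      refine hasPoint_sq n a b 1 n one_ne_zero hn0 ?_
      convert hp2 using 1
      · rw [← hax]; ring
      · ring
  · -- t = 0 modulo 2
    obtain ⟨A', hA'⟩ := dA
    obtain ⟨s, hs⟩ := db
    obtain ⟨q, hq⟩ : ∃ q : w.integer, A = 1 + 8 * q := by
      refine ⟨A' + (64 * T' ^ 6 * E + 16 * T' ^ 4 * E ^ 2 + 24 * T' ^ 4 * E + 8 * T' ^ 3 * E +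
        8 * T' ^ 3 + 2 * T' ^ 2 * E ^ 2 + 2 * T' ^ 2 * E + T' ^ 2 + T' * E + T'), ?_⟩
      rw [hBB, hT'] at hA'
      linear_combination hA'
    obtain ⟨q2, hq2⟩ : ∃ q : w.integer, b' = 1 + 4 * q := by
      refine ⟨8 * T' ^ 4 + 2 * T' ^ 2 * E + 2 * T' ^ 2 + T' + s, ?_⟩
      rw [hBB, hT'] at hs
      linear_combination hs
    obtain ⟨x, hx⟩ := hsqO (2 * q) 0 ⟨q, by ring⟩
    have hx2 : A = x ^ 2 := by rw [← hx, hq]; ring
    have hx0 : (x : F) ≠ 0 := ne_of_sq x ⟨4 * q, by rw [← hx]; ring⟩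
    have hax : a = (x : F) ^ 2 := by
      have := congrArg (fun z : w.integer => (z : F)) hx2
      simp only [Subring.coe_pow, hA] at this
      exact this
    have hnb : w (b - 1) ≤ w 4 := by
      have h5 : (4 : w.integer) ∣ b' - 1 := ⟨q2, by rw [hq2]; ring⟩
      rw [dvd_iff w 4 _ (by rw [e4]; exact h40), e4] at h5
      simp only [AddSubgroupClass.coe_sub, Subring.coe_one, hb'] at h5
      exact h5
    rw [hax]
    exact hasPoint_zero w h2 h20 hsq hroot n (x : F) b hx0 hwn hwb hnb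

/-- v(n) odd, n = 2 m. -/
theorem conv_odd_field (w : Valuation F Γ) (h2 : w 2 < 1) (h20 : (2 : F) ≠ 0)
    (hmax : ∀ x : F, w x < 1 → w x ≤ w 2)
    (hsq : ∀ x z : F, w x ≤ 1 → w z ≤ 1 → w (x - z ^ 2 - z) < 1 → ∃ y : F, 1 + 4 * x = y ^ 2)
    (m a b μ r : F) (hμ : w μ ≤ 1) (hr : w r ≤ 1)
    (hm : w (m - (1 + 2 * μ)) ≤ w 4) (ha : w (a - (1 + 4 * r)) ≤ w 8)
    (hb : w (b - (1 + 2 * r ^ 2) * (1 + 4 * (μ * r ^ 2))) ≤ w 8) : HasPoint (2 * m) a b := by
  have e2 : ((2 : w.integer) : F) = 2 := rfl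
  have e4 : ((4 : w.integer) : F) = 4 := rfl
  have e8 : ((8 : w.integer) : F) = 8 := rfl
  have h40 : (4 : F) ≠ 0 := by
    have : (4 : F) = 2 * 2 := by norm_num
    rw [this]; exact mul_ne_zero h20 h20
  have h80 : (8 : F) ≠ 0 := by
    have : (8 : F) = 2 * 4 := by norm_num
    rw [this]; exact mul_ne_zero h20 h40
  have hw4 : w 4 ≤ 1 := by
    have : (4 : F) = 2 * 2 := by norm_num
    rw [this, map_mul]
    exact mul_le_one' h2.le h2.le
  have hw8 : w 8 ≤ 1 := by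
    have : (8 : F) = 2 * 4 := by norm_num
    rw [this, map_mul]
    exact mul_le_one' h2.le hw4
  have hlt_iff : ∀ x : w.integer, 2 ∣ x ↔ w (x : F) < 1 := by
    intro x
    rw [dvd_iff w 2 x (by rw [e2]; exact h20), e2]
    exact ⟨fun hx => lt_of_le_of_lt hx h2, fun hx => hmax _ hx⟩
  have hmul : ∀ y z : F, w y ≤ 1 → w z ≤ 1 → w (y * z) ≤ 1 := by
    intro y z hy hz
    rw [map_mul]; exact mul_le_one' hy hz
  have hone : w (1 : F) ≤ 1 := by rw [map_one]
  have hadd : ∀ y z : F, w y ≤ 1 → w z ≤ 1 → w (y + z) ≤ 1 := fun y z hy hz =>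
    Valuation.map_add_le w hy hz
  have hpow : ∀ (y : F) (k : ℕ), w y ≤ 1 → w (y ^ k) ≤ 1 := by
    intro y k hy
    rw [map_pow]; exact pow_le_one' hy k
  have hm1 : w m ≤ 1 := by
    have e1 : m = (m - (1 + 2 * μ)) + (1 + 2 * μ) := by ring
    rw [e1]
    exact hadd _ _ (hm.trans hw4) (hadd _ _ hone (hmul _ _ h2.le hμ))
  have ha1 : w a ≤ 1 := by
    have e1 : a = (a - (1 + 4 * r)) + (1 + 4 * r) := by ring
    rw [e1]
    exact hadd _ _ (ha.trans hw8) (hadd _ _ hone (hmul _ _ hw4 hr))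
  have hb1 : w b ≤ 1 := by
    have e1 : b = (b - (1 + 2 * r ^ 2) * (1 + 4 * (μ * r ^ 2))) +
      (1 + 2 * r ^ 2) * (1 + 4 * (μ * r ^ 2)) := by ring
    rw [e1]
    exact hadd _ _ (hb.trans hw8) (hmul _ _ (hadd _ _ hone (hmul _ _ h2.le (hpow _ _ hr)))
      (hadd _ _ hone (hmul _ _ hw4 (hmul _ _ hμ (hpow _ _ hr)))))
  obtain ⟨M, hM⟩ : ∃ M : w.integer, (M : F) = m := ⟨⟨m, hm1⟩, rfl⟩
  obtain ⟨A, hA⟩ : ∃ A : w.integer, (A : F) = a := ⟨⟨a, ha1⟩, rfl⟩
  obtain ⟨b', hb'⟩ : ∃ b' : w.integer, (b' : F) = b := ⟨⟨b, hb1⟩, rfl⟩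
  obtain ⟨E, hE⟩ : ∃ E : w.integer, (E : F) = μ := ⟨⟨μ, hμ⟩, rfl⟩
  obtain ⟨R, hR⟩ : ∃ R : w.integer, (R : F) = r := ⟨⟨r, hr⟩, rfl⟩
  have dM : 4 ∣ M - (1 + 2 * E) := by
    rw [dvd_iff w 4 _ (by rw [e4]; exact h40), e4]
    simp only [Subring.coe_mul, AddSubgroupClass.coe_sub, Subring.coe_add, Subring.coe_one, hM,
      hE, e2]
    exact hm
  have dA : 8 ∣ A - (1 + 4 * R) := by
    rw [dvd_iff w 8 _ (by rw [e8]; exact h80), e8]
    simp only [Subring.coe_mul, AddSubgroupClass.coe_sub, Subring.coe_add, Subring.coe_one, hA,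
      hR, e4]
    exact ha
  have db : 8 ∣ b' - (1 + 2 * R ^ 2) * (1 + 4 * (E * R ^ 2)) := by
    rw [dvd_iff w 8 _ (by rw [e8]; exact h80), e8]
    simp only [Subring.coe_mul, AddSubgroupClass.coe_sub, Subring.coe_add, Subring.coe_pow,
      Subring.coe_one, hb', hR, hE, e2, e4]
    exact hb
  have hsqO : ∀ x z : w.integer, 2 ∣ x - z ^ 2 - z → ∃ y : w.integer, 1 + 4 * x = y ^ 2 := by
    intro x z hxz
    rw [hlt_iff] at hxz
    simp only [AddSubgroupClass.coe_sub, Subring.coe_pow] at hxz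
    obtain ⟨y, hy⟩ := hsq (x : F) (z : F) x.2 z.2 hxz
    have hy1 : w y ≤ 1 := by
      have h3 : w (y ^ 2) ≤ 1 := by
        rw [← hy]; exact hadd _ _ hone (hmul _ _ hw4 x.2)
      rw [map_pow] at h3
      by_contra hlt
      rw [not_le] at hlt
      exact absurd h3 (not_le.2 (one_lt_pow₀ hlt two_ne_zero))
    refine ⟨⟨y, hy1⟩, Subtype.ext ?_⟩
    simp only [Subring.coe_mul, Subring.coe_add, Subring.coe_pow, Subring.coe_one, e4]
    exact hy
  have unit_one : ∀ x : w.integer, 2 ∣ x → IsUnit (1 + x) := by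
    intro x hx
    rw [isUnit_iff]
    rw [hlt_iff] at hx
    rw [Subring.coe_add, Subring.coe_one, Valuation.map_add_eq_of_lt_left w (by
      rw [map_one]; exact hx), map_one]
  have ne0 : ∀ x : w.integer, IsUnit x → (x : F) ≠ 0 := by
    intro x hx h0
    have h5 := (isUnit_iff w x).1 hx
    rw [h0, map_zero] at h5
    exact zero_ne_one h5
  obtain ⟨y, z, f1, f2⟩ := ring_conv_odd hsqO M A b' E R dM dA db
  have ha0 : a ≠ 0 := by
    rw [← hA]
    apply ne0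
    obtain ⟨k, hk⟩ := dA
    have e1 : A = 1 + 2 * (2 * R + 4 * k) := by linear_combination hk
    rw [e1]; exact unit_one _ ⟨_, rfl⟩
  have hb0 : b ≠ 0 := by
    rw [← hb']
    apply ne0
    obtain ⟨k, hk⟩ := db
    have e1 : b' = 1 + 2 * (R ^ 2 + (1 + 2 * R ^ 2) * (2 * (E * R ^ 2)) + 4 * k) := by
      linear_combination hk
    rw [e1]; exact unit_one _ ⟨_, rfl⟩
  have g1 := congrArg (fun z : w.integer => (z : F)) f1
  have g2 := congrArg (fun z : w.integer => (z : F)) f2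
  simp only [Subring.coe_mul, AddSubgroupClass.coe_sub, Subring.coe_add,
    Subring.coe_pow, hM, hA, hb', hR, e2] at g1 g2
  refine ⟨1, (y : F) / b, (z : F) / (a * b), r, Or.inl one_ne_zero, ?_, ?_⟩
  · field_simp
    linear_combination -g1
  · field_simp
    linear_combination -g2

end Pool.Agent.MP009fd8E
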