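import Pool.Agent.Lib.MP_009fd8_ag.Def

/-!
MP_009fd8_ag, EveryField: character sums of binary quadratic forms.
-/

namespace Pool.Agent.MP009fd8E

open Pool.Agent.MP009fd8

theorem FF1_ringChar {F : Type*} [Field F] (h2 : (2 : F) ≠ 0) : ringChar F ≠ 2 := by
  intro h
  apply h2
  have h1 := ringChar.Nat.cast_ringChar (R := F)
  rw [h] at h1
  exact_mod_cast h1

theorem FF1_card {F : Type*} [Field F] [Fintype F] [DecidableEq F] (h2 : (2 : F) ≠ 0) (a : F) :
    (((Finset.univ : Finset F).filter fun y => y ^ 2 = a).card : ℤ) = quadraticChar F a + 1 := by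
  rw [← quadraticChar_card_sqrts (FF1_ringChar h2) a]
  congr 2
  ext y
  simp

theorem FF1_sum_sq {F : Type*} [Field F] [Fintype F] [DecidableEq F] (h2 : (2 : F) ≠ 0)
    (f : F → ℤ) : ∑ x : F, f (x ^ 2) = ∑ u : F, (quadraticChar F u + 1) * f u := by
  rw [← Finset.sum_fiberwise (Finset.univ : Finset F) (fun x => x ^ 2) (fun x => f (x ^ 2))]
  refine Finset.sum_congr rfl ?_
  intro u _
  rw [← FF1_card h2 u]
  have h : ∑ x ∈ (Finset.univ : Finset F).filter (fun y => y ^ 2 = u), f (x ^ 2) =
      ∑ x ∈ (Finset.univ : Finset F).filter (fun y => y ^ 2 = u), f u := by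
    refine Finset.sum_congr rfl ?_
    intro x hx
    rw [(Finset.mem_filter.1 hx).2]
  rw [h, Finset.sum_const, nsmul_eq_mul]

theorem FF1_sum_lin {F : Type*} [Field F] [Fintype F] [DecidableEq F] (h2 : (2 : F) ≠ 0)
    (β c : F) (hβ : β ≠ 0) : ∑ v : F, quadraticChar F (c + β * v) = 0 := by
  have h := Equiv.sum_comp ((Equiv.mulLeft₀ β hβ).trans (Equiv.addLeft c))
    (fun z => quadraticChar F z)
  rw [quadraticChar_sum_zero (FF1_ringChar h2)] at h
  exact h

/-- Proof: for c nonzero the number of (x, y) with y^2 - x^2 = c is |F| - 1 (the bijection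
(x, y) -> y - x to the nonzero elements), and it is the sum over x of 1 + chi(x^2 + c), so the sum
over x of chi(x^2 + c) is -1; hence the sum over x of chi(alpha x^2 + beta) is -chi(alpha)
(alpha x^2 + beta = alpha (x^2 + beta / alpha)). Sum over pairs: the pairs (x, w) with w nonzero
give (|F| - 1) (-chi(alpha)) (replace x by x w), those with w = 0 give (|F| - 1) chi(alpha). -/
theorem sum_quad {F : Type*} [Field F] [Fintype F] [DecidableEq F] (h2 : (2 : F) ≠ 0)
    (α β : F) (hα : α ≠ 0) (hβ : β ≠ 0) :
    ∑ x : F, ∑ w : F, quadraticChar F (α * x ^ 2 + β * w ^ 2) = 0 := by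
  have h1 : ∀ x : F, ∑ w : F, quadraticChar F (α * x ^ 2 + β * w ^ 2) =
      ∑ v : F, quadraticChar F v * quadraticChar F (α * x ^ 2 + β * v) := by
    intro x
    rw [FF1_sum_sq h2 (fun v => quadraticChar F (α * x ^ 2 + β * v))]
    have h3 : ∑ u : F, (quadraticChar F u + 1) * quadraticChar F (α * x ^ 2 + β * u) =
        ∑ u : F, quadraticChar F u * quadraticChar F (α * x ^ 2 + β * u) +
          ∑ u : F, quadraticChar F (α * x ^ 2 + β * u) := by
      rw [← Finset.sum_add_distrib]
      refine Finset.sum_congr rfl ?_
      intro u _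
      ring
    rw [h3, FF1_sum_lin h2 β _ hβ, add_zero]
  simp only [h1]
  rw [Finset.sum_comm]
  have h4 : ∀ v : F, ∑ x : F, quadraticChar F v * quadraticChar F (α * x ^ 2 + β * v) =
      ∑ u : F, quadraticChar F u * (quadraticChar F v * quadraticChar F (α * u + β * v)) := by
    intro v
    rw [FF1_sum_sq h2 (fun u => quadraticChar F v * quadraticChar F (α * u + β * v))]
    have h5 : ∑ u : F, (quadraticChar F u + 1) *
        (quadraticChar F v * quadraticChar F (α * u + β * v)) =
        ∑ u : F, quadraticChar F u * (quadraticChar F v * quadraticChar F (α * u + β * v)) +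
          quadraticChar F v * ∑ u : F, quadraticChar F (β * v + α * u) := by
      rw [Finset.mul_sum, ← Finset.sum_add_distrib]
      refine Finset.sum_congr rfl ?_
      intro u _
      rw [add_comm (β * v) (α * u)]
      ring
    rw [h5, FF1_sum_lin h2 α _ hα, mul_zero, add_zero]
  simp only [h4]
  obtain ⟨c, hc⟩ := quadraticChar_exists_neg_one (FF1_ringChar h2)
  have hc0 : c ≠ 0 := by
    rintro rfl
    rw [quadraticChar_zero] at hc
    norm_num at hc
  have h6 : ∑ v : F, ∑ u : F,
      quadraticChar F u * (quadraticChar F v * quadraticChar F (α * u + β * v)) =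
      -∑ v : F, ∑ u : F,
        quadraticChar F u * (quadraticChar F v * quadraticChar F (α * u + β * v)) := by
    calc ∑ v : F, ∑ u : F,
        quadraticChar F u * (quadraticChar F v * quadraticChar F (α * u + β * v))
        = ∑ v : F, ∑ u : F, quadraticChar F u *
          (quadraticChar F (c * v) * quadraticChar F (α * u + β * (c * v))) :=
          (Equiv.sum_comp (Equiv.mulLeft₀ c hc0) (fun v => ∑ u : F, quadraticChar F u *
            (quadraticChar F v * quadraticChar F (α * u + β * v)))).symm
      _ = ∑ v : F, ∑ u : F, quadraticChar F (c * u) *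
          (quadraticChar F (c * v) * quadraticChar F (α * (c * u) + β * (c * v))) := by
          refine Finset.sum_congr rfl ?_
          intro v _
          exact (Equiv.sum_comp (Equiv.mulLeft₀ c hc0) (fun u => quadraticChar F u *
            (quadraticChar F (c * v) * quadraticChar F (α * u + β * (c * v))))).symm
      _ = -∑ v : F, ∑ u : F,
          quadraticChar F u * (quadraticChar F v * quadraticChar F (α * u + β * v)) := by
          rw [← Finset.sum_neg_distrib]
          refine Finset.sum_congr rfl ?_
          intro v _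
          rw [← Finset.sum_neg_distrib]
          refine Finset.sum_congr rfl ?_
          intro u _
          have e : α * (c * u) + β * (c * v) = c * (α * u + β * v) := by ring
          rw [e, map_mul, map_mul, map_mul, hc]
          ring
  linarith

/-- The number of solutions y of b y^2 = c is 1 + chi(b c). -/
theorem card_sq {F : Type*} [Field F] [Fintype F] [DecidableEq F] (h2 : (2 : F) ≠ 0)
    (b c : F) (hb : b ≠ 0) :
    (((Finset.univ : Finset F).filter fun y => b * y ^ 2 = c).card : ℤ) =
      1 + quadraticChar F (b * c) := by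
  have h1 : (Finset.univ : Finset F).filter (fun y => b * y ^ 2 = c) =
      (Finset.univ : Finset F).filter (fun y => y ^ 2 = c / b) := by
    ext y
    simp only [Finset.mem_filter, Finset.mem_univ, true_and]
    rw [eq_div_iff hb, mul_comm]
  rw [h1, FF1_card h2]
  have h3 : b * c = b ^ 2 * (c / b) := by
    field_simp
  rw [h3, map_mul, map_pow, quadraticChar_sq_one hb, one_mul, add_comm]

end Pool.Agent.MP009fd8E
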