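import Pool.Agent.Lib.MP_009fd8_agE.FF1

/-!
MP_009fd8_ag, EveryField: the covering over a finite field of odd characteristic has a point.
-/

namespace Pool.Agent.MP009fd8E

open Pool.Agent.MP009fd8

/-- The number of points of the affine cone. -/
def cone {F : Type*} [Field F] [Fintype F] [DecidableEq F] (n a b : F) : ℤ :=
  ((Finset.univ : Finset (F × F × F × F)).filter fun p =>
    b * p.2.1 ^ 2 = a * p.1 ^ 2 - n * p.2.2.2 ^ 2 ∧
    a * b * p.2.2.1 ^ 2 = a * p.1 ^ 2 + n * p.2.2.2 ^ 2).card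

private theorem count_ind {F : Type*} [Field F] [Fintype F] [DecidableEq F] (h2 : (2 : F) ≠ 0)
    (b c : F) (hb : b ≠ 0) :
    (∑ y : F, if b * y ^ 2 = c then (1 : ℤ) else 0) = 1 + quadraticChar F (b * c) := by
  rw [← card_sq h2 b c hb, Finset.card_filter]
  push_cast
  rfl

private theorem sum_ind_and {F : Type*} [Fintype F] (A B : F → Prop) [DecidablePred A]
    [DecidablePred B] :
    (∑ y : F, ∑ z : F, if A y ∧ B z then (1 : ℤ) else 0) =
      (∑ y : F, if A y then (1 : ℤ) else 0) * ∑ z : F, if B z then (1 : ℤ) else 0 := by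
  rw [Finset.sum_mul_sum]
  refine Finset.sum_congr rfl fun y _ => Finset.sum_congr rfl fun z _ => ?_
  by_cases hA : A y
  · by_cases hB : B z
    · rw [if_pos hA, if_pos hB, if_pos ⟨hA, hB⟩, one_mul]
    · rw [if_neg hB, if_neg (fun h => hB h.2), mul_zero]
  · rw [if_neg hA, if_neg (fun h => hA h.1), zero_mul]

private theorem sum_expand {F : Type*} [Fintype F] (f g : F → F → ℤ)
    (hf : ∑ x, ∑ w, f x w = 0) (hg : ∑ x, ∑ w, g x w = 0) :
    ∑ x, ∑ w, (1 + f x w) * (1 + g x w) =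
      (Fintype.card F : ℤ) ^ 2 + ∑ x, ∑ w, f x w * g x w := by
  have h1 : ∀ x w, (1 + f x w) * (1 + g x w) = 1 + f x w + g x w + f x w * g x w := by
    intro x w; ring
  simp only [h1, Finset.sum_add_distrib]
  rw [hf, hg]
  simp only [Finset.sum_const, Finset.card_univ, nsmul_eq_mul, mul_one, add_zero]
  ring

private theorem cone_sum {F : Type*} [Field F] [Fintype F] [DecidableEq F] (n a b : F) :
    cone n a b = ∑ x : F, ∑ y : F, ∑ z : F, ∑ w : F,
      if b * y ^ 2 = a * x ^ 2 - n * w ^ 2 ∧ a * b * z ^ 2 = a * x ^ 2 + n * w ^ 2 then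
        (1 : ℤ) else 0 := by
  unfold cone
  rw [Finset.card_filter]
  push_cast
  simp only [Fintype.sum_prod_type]

private theorem char_mul_sq {F : Type*} [Field F] [Fintype F] [DecidableEq F]
    {c u v z : F} (hc : c ≠ 0) (h : u * v = c ^ 2 * z) :
    quadraticChar F u * quadraticChar F v = quadraticChar F z := by
  rw [← map_mul, h, map_mul, quadraticChar_sq_one' hc, one_mul]

/-- First count, over (X, W): for given X, W the number of (Y, Z) is
(1 + chi(b (a X^2 - n W^2))) (1 + chi(a b (a X^2 + n W^2))) (card_sq), and the two linear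
character sums vanish by sum_quad; chi(b^2) = 1. -/
theorem cone_one {F : Type*} [Field F] [Fintype F] [DecidableEq F] (h2 : (2 : F) ≠ 0)
    (n a b : F) (hn : n ≠ 0) (ha : a ≠ 0) (hb : b ≠ 0) :
    cone n a b = (Fintype.card F : ℤ) ^ 2 +
      ∑ x : F, ∑ w : F, quadraticChar F (a * ((a * x ^ 2 - n * w ^ 2) *
        (a * x ^ 2 + n * w ^ 2))) := by
  have hf : ∑ x : F, ∑ w : F, quadraticChar F (b * (a * x ^ 2 - n * w ^ 2)) = 0 := by
    rw [← sum_quad h2 (b * a) (-(b * n)) (mul_ne_zero hb ha) (neg_ne_zero.2 (mul_ne_zero hb hn))]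
    refine Finset.sum_congr rfl fun x _ => Finset.sum_congr rfl fun w _ => ?_
    rw [show b * (a * x ^ 2 - n * w ^ 2) = b * a * x ^ 2 + -(b * n) * w ^ 2 by ring]
  have hg : ∑ x : F, ∑ w : F, quadraticChar F (a * b * (a * x ^ 2 + n * w ^ 2)) = 0 := by
    rw [← sum_quad h2 (a * b * a) (a * b * n) (mul_ne_zero (mul_ne_zero ha hb) ha)
      (mul_ne_zero (mul_ne_zero ha hb) hn)]
    refine Finset.sum_congr rfl fun x _ => Finset.sum_congr rfl fun w _ => ?_
    rw [show a * b * (a * x ^ 2 + n * w ^ 2) = a * b * a * x ^ 2 + a * b * n * w ^ 2 by ring]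
  have h1 : cone n a b = ∑ x : F, ∑ w : F,
      (1 + quadraticChar F (b * (a * x ^ 2 - n * w ^ 2))) *
        (1 + quadraticChar F (a * b * (a * x ^ 2 + n * w ^ 2))) := by
    rw [cone_sum]
    refine Finset.sum_congr rfl fun x _ => ?_
    calc (∑ y : F, ∑ z : F, ∑ w : F,
          if b * y ^ 2 = a * x ^ 2 - n * w ^ 2 ∧ a * b * z ^ 2 = a * x ^ 2 + n * w ^ 2 then
            (1 : ℤ) else 0)
        = ∑ y : F, ∑ w : F, ∑ z : F,
          if b * y ^ 2 = a * x ^ 2 - n * w ^ 2 ∧ a * b * z ^ 2 = a * x ^ 2 + n * w ^ 2 then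
            (1 : ℤ) else 0 := Finset.sum_congr rfl fun y _ => Finset.sum_comm
      _ = ∑ w : F, ∑ y : F, ∑ z : F,
          if b * y ^ 2 = a * x ^ 2 - n * w ^ 2 ∧ a * b * z ^ 2 = a * x ^ 2 + n * w ^ 2 then
            (1 : ℤ) else 0 := Finset.sum_comm
      _ = _ := by
        refine Finset.sum_congr rfl fun w _ => ?_
        rw [sum_ind_and (fun y => b * y ^ 2 = a * x ^ 2 - n * w ^ 2)
          (fun z => a * b * z ^ 2 = a * x ^ 2 + n * w ^ 2), count_ind h2 b _ hb,
          count_ind h2 (a * b) _ (mul_ne_zero ha hb)]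
  rw [h1, sum_expand _ _ hf hg]
  congr 1
  refine Finset.sum_congr rfl fun x _ => Finset.sum_congr rfl fun w _ => ?_
  exact char_mul_sq hb (by ring)

/-- Second count, over (X, Z): the equations are equivalent to n W^2 = a (b Z^2 - X^2) and
b Y^2 = a (2 X^2 - b Z^2), so for given X, Z the number of (Y, W) is
(1 + chi(n a (b Z^2 - X^2))) (1 + chi(a b (2 X^2 - b Z^2))); again sum_quad. -/
theorem cone_two {F : Type*} [Field F] [Fintype F] [DecidableEq F] (h2 : (2 : F) ≠ 0)
    (n a b : F) (hn : n ≠ 0) (ha : a ≠ 0) (hb : b ≠ 0) :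
    cone n a b = (Fintype.card F : ℤ) ^ 2 +
      ∑ x : F, ∑ z : F, quadraticChar F (n * b * ((b * z ^ 2 - x ^ 2) *
        (2 * x ^ 2 - b * z ^ 2))) := by
  have hf : ∑ x : F, ∑ z : F, quadraticChar F (n * (a * (b * z ^ 2 - x ^ 2))) = 0 := by
    rw [← sum_quad h2 (-(n * a)) (n * a * b) (neg_ne_zero.2 (mul_ne_zero hn ha))
      (mul_ne_zero (mul_ne_zero hn ha) hb)]
    refine Finset.sum_congr rfl fun x _ => Finset.sum_congr rfl fun z _ => ?_
    rw [show n * (a * (b * z ^ 2 - x ^ 2)) = -(n * a) * x ^ 2 + n * a * b * z ^ 2 by ring]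
  have hg : ∑ x : F, ∑ z : F, quadraticChar F (b * (a * (2 * x ^ 2 - b * z ^ 2))) = 0 := by
    rw [← sum_quad h2 (b * a * 2) (-(b * a * b)) (mul_ne_zero (mul_ne_zero hb ha) h2)
      (neg_ne_zero.2 (mul_ne_zero (mul_ne_zero hb ha) hb))]
    refine Finset.sum_congr rfl fun x _ => Finset.sum_congr rfl fun z _ => ?_
    rw [show b * (a * (2 * x ^ 2 - b * z ^ 2)) = b * a * 2 * x ^ 2 + -(b * a * b) * z ^ 2 by
      ring]
  have h1 : cone n a b = ∑ x : F, ∑ z : F,
      (1 + quadraticChar F (n * (a * (b * z ^ 2 - x ^ 2)))) *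
        (1 + quadraticChar F (b * (a * (2 * x ^ 2 - b * z ^ 2)))) := by
    rw [cone_sum]
    refine Finset.sum_congr rfl fun x _ => ?_
    rw [Finset.sum_comm]
    refine Finset.sum_congr rfl fun z _ => ?_
    rw [Finset.sum_comm]
    rw [← count_ind h2 n _ hn, ← count_ind h2 b _ hb,
      ← sum_ind_and (fun w => n * w ^ 2 = a * (b * z ^ 2 - x ^ 2))
        (fun y => b * y ^ 2 = a * (2 * x ^ 2 - b * z ^ 2))]
    refine Finset.sum_congr rfl fun w _ => Finset.sum_congr rfl fun y _ => ?_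
    refine if_congr ?_ rfl rfl
    constructor
    · rintro ⟨e1, e2⟩
      exact ⟨by linear_combination -e2, by linear_combination e1 + e2⟩
    · rintro ⟨e1, e2⟩
      exact ⟨by linear_combination e2 + e1, by linear_combination -e1⟩
  rw [h1, sum_expand _ _ hf hg]
  congr 1
  refine Finset.sum_congr rfl fun x _ => Finset.sum_congr rfl fun z _ => ?_
  exact char_mul_sq ha (by ring)

/-- Every covering has a point. Proof: cone_one shows cone n a b = cone n a 1, cone_two shows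
cone n a 1 = cone n 1 1 (the right hand sides do not depend on b, respectively a), and
cone n 1 1 >= 2 (the points (0, 0, 0, 0) and (1, 1, 1, 0)). -/
theorem hasPoint_finite {F : Type*} [Field F] [Finite F] (h2 : (2 : F) ≠ 0)
    (n a b : F) (hn : n ≠ 0) (ha : a ≠ 0) (hb : b ≠ 0) : HasPoint n a b := by
  classical
  cases nonempty_fintype F
  have e1 : cone n a b = cone n a 1 := by
    rw [cone_one h2 n a b hn ha hb, cone_one h2 n a 1 hn ha one_ne_zero]
  have e2 : cone n a 1 = cone n 1 1 := by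
    rw [cone_two h2 n a 1 hn ha one_ne_zero, cone_two h2 n 1 1 hn one_ne_zero one_ne_zero]
  have e3 : 1 < cone n 1 1 := by
    unfold cone
    have h : 1 < ((Finset.univ : Finset (F × F × F × F)).filter fun p =>
        (1 : F) * p.2.1 ^ 2 = 1 * p.1 ^ 2 - n * p.2.2.2 ^ 2 ∧
        (1 : F) * 1 * p.2.2.1 ^ 2 = 1 * p.1 ^ 2 + n * p.2.2.2 ^ 2).card := by
      rw [Finset.one_lt_card]
      refine ⟨(0, 0, 0, 0), ?_, (1, 1, 1, 0), ?_, ?_⟩
      · simp
      · simp
      · intro h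
        exact zero_ne_one (congrArg Prod.fst h)
    exact_mod_cast h
  rw [← e2, ← e1] at e3
  unfold cone at e3
  have e4 : 1 < ((Finset.univ : Finset (F × F × F × F)).filter fun p =>
    b * p.2.1 ^ 2 = a * p.1 ^ 2 - n * p.2.2.2 ^ 2 ∧
    a * b * p.2.2.1 ^ 2 = a * p.1 ^ 2 + n * p.2.2.2 ^ 2).card := by exact_mod_cast e3
  obtain ⟨q, hq, hq0⟩ := Finset.exists_mem_ne e4 ((0, 0, 0, 0) : F × F × F × F)
  obtain ⟨x, y, z, w⟩ := q
  rw [Finset.mem_filter] at hq
  refine ⟨x, y, z, w, ?_, hq.2.1, hq.2.2⟩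
  by_contra hcon
  push Not at hcon
  obtain ⟨h1, h2, h3, h4⟩ := hcon
  exact hq0 (by rw [h1, h2, h3, h4])

end Pool.Agent.MP009fd8E
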