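import Pool.Agent.Lib.MP_009fd8_agM.Glob
import Pool.Agent.Lib.MP_009fd8_agE.Loc
import Pool.Agent.Lib.MP_009fd8_agE.Hens2
import Pool.Agent.Lib.MP_009fd8_agE.FF2

/-!
MP_009fd8_ag, EveryField: units at the places not above 2.
-/

namespace Pool.Agent.MP009fd8E

open IsDedekindDomain NumberField WithZero Pool.Agent.MP009fd8 Pool.Agent.MP009fd8M

variable {K : Type*} [Field K] [NumberField K]

section core

variable {F : Type*} [Field F] {Γ : Type*} [LinearOrderedCommGroupWithZero Γ] (w : Valuation F Γ)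

private theorem good1_mul {x y : F} (hx : w x < 1) (hy : w y ≤ 1) : w (x * y) < 1 := by
  rw [map_mul]
  calc w x * w y ≤ w x * 1 := by gcongr
    _ < 1 := by rw [mul_one]; exact hx

private theorem good1_of_sub {x y : F} (hy : w y = 1) (h : w (x - y) < 1) : w x = 1 := by
  have h1 : x = (x - y) + y := by ring
  rw [h1, Valuation.map_add_eq_of_lt_right w (by rw [hy]; exact h), hy]

private theorem good1_div {x y : F} (hx : w x < 1) (hy : w y = 1) : w (x / y) < 1 := by
  rw [map_div₀, hy, div_one]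
  exact hx

private theorem good1_sq {x : F} (hx : w (x ^ 2) < 1) : w x < 1 := by
  by_contra h
  rw [not_lt] at h
  rw [map_pow] at hx
  exact absurd hx (not_lt.2 (one_le_pow₀ h))

private theorem good1_core (n a b : F) (hn : w n = 1) (ha : w a = 1) (hb : w b = 1)
    (h2 : w 2 = 1) (hsq : ∀ d g : F, w d = 1 → w (d - g ^ 2) < 1 → ∃ x, d = x ^ 2)
    (X Y Z W : F) (hX : w X ≤ 1) (hY : w Y ≤ 1) (hZ : w Z ≤ 1) (hW : w W ≤ 1)
    (hne : ¬ (w X < 1 ∧ w Y < 1 ∧ w Z < 1 ∧ w W < 1))
    (e1 : w (a * X ^ 2 - n * W ^ 2 - b * Y ^ 2) < 1)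
    (e2 : w (a * X ^ 2 + n * W ^ 2 - a * b * Z ^ 2) < 1) : HasPoint n a b := by
  have hn0 : n ≠ 0 := (Valuation.ne_zero_iff w).1 (by rw [hn]; exact one_ne_zero)
  have ha0 : a ≠ 0 := (Valuation.ne_zero_iff w).1 (by rw [ha]; exact one_ne_zero)
  have hb0 : b ≠ 0 := (Valuation.ne_zero_iff w).1 (by rw [hb]; exact one_ne_zero)
  have hsub : ∀ {x y : F}, w x < 1 → w y < 1 → w (x - y) < 1 := by
    intro x y hx hy
    exact (Valuation.map_sub w x y).trans_lt (max_lt hx hy)
  have hadd : ∀ {x y : F}, w x < 1 → w y < 1 → w (x + y) < 1 := fun hx hy =>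
    Valuation.map_add_lt w hx hy
  have hcan : ∀ {c x : F}, w c = 1 → w (c * x ^ 2) < 1 → w x < 1 := by
    intro c x hc h
    rw [map_mul, hc, one_mul] at h
    exact good1_sq w h
  have hput : ∀ {c x : F}, w c = 1 → w x < 1 → w (c * x ^ 2) < 1 := by
    intro c x hc h
    rw [map_mul, hc, one_mul, pow_two]
    exact good1_mul w h h.le
  have hab : w (a * b) = 1 := by rw [map_mul, ha, hb, one_mul]
  rcases hY.lt_or_eq with hY1 | hY1
  · -- Y small
    have f1 : w (a * X ^ 2 - n * W ^ 2) < 1 := by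
      have h := hadd e1 (hput hb hY1)
      have e : a * X ^ 2 - n * W ^ 2 - b * Y ^ 2 + b * Y ^ 2 = a * X ^ 2 - n * W ^ 2 := by ring
      rwa [e] at h
    have hX1 : w X = 1 := by
      refine hX.lt_or_eq.resolve_left fun hX1 => ?_
      have hW1 : w W < 1 := by
        apply hcan hn
        have h := hsub (hput ha hX1) f1
        have e : a * X ^ 2 - (a * X ^ 2 - n * W ^ 2) = n * W ^ 2 := by ring
        rwa [e] at h
      have hZ1 : w Z < 1 := by
        apply hcan hab
        have h := hsub (hadd (hput ha hX1) (hput hn hW1)) e2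
        have e : a * X ^ 2 + n * W ^ 2 - (a * X ^ 2 + n * W ^ 2 - a * b * Z ^ 2) =
          a * b * Z ^ 2 := by ring
        rwa [e] at h
      exact hne ⟨hX1, hY1, hZ1, hW1⟩
    have hW1 : w W = 1 := by
      refine hW.lt_or_eq.resolve_left fun hW1 => ?_
      have h := hadd f1 (hput hn hW1)
      have e : a * X ^ 2 - n * W ^ 2 + n * W ^ 2 = a * X ^ 2 := by ring
      rw [e] at h
      exact absurd hX1 (hcan ha h).ne
    have hX0 : X ≠ 0 := (Valuation.ne_zero_iff w).1 (by rw [hX1]; exact one_ne_zero)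
    have hW0 : W ≠ 0 := (Valuation.ne_zero_iff w).1 (by rw [hW1]; exact one_ne_zero)
    obtain ⟨x, hx⟩ := hsq (n * a) (a * X / W) (by rw [map_mul, hn, ha, one_mul]) (by
      have e : n * a - (a * X / W) ^ 2 = (-(a * X ^ 2 - n * W ^ 2) * a) / W ^ 2 := by
        field_simp
        ring
      rw [e]
      refine good1_div w (good1_mul w ?_ ha.le) (by rw [map_pow, hW1, one_pow])
      rw [Valuation.map_neg]
      exact f1)
    obtain ⟨z, hz⟩ := hsq (2 * b) (b * Z / X) (by rw [map_mul, h2, hb, one_mul]) (by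
      have e : 2 * b - (b * Z / X) ^ 2 = ((((a * X ^ 2 + n * W ^ 2 - a * b * Z ^ 2) +
          (a * X ^ 2 - n * W ^ 2)) * b) / (a * X ^ 2)) := by
        field_simp
        ring
      rw [e]
      refine good1_div w (good1_mul w (hadd e2 f1) hb.le) (by
        rw [map_mul, map_pow, ha, hX1, one_pow, one_mul]))
    refine ⟨x / a, 0, z / b * (x / a), 1, Or.inr (Or.inr (Or.inr one_ne_zero)), ?_, ?_⟩
    · have e : a * (x / a) ^ 2 = n := by
        rw [div_pow, ← hx]
        field_simp
      rw [e]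
      ring
    · have e : a * (x / a) ^ 2 = n := by
        rw [div_pow, ← hx]
        field_simp
      have e' : b * (z / b) ^ 2 = 2 := by
        rw [div_pow, ← hz]
        field_simp
      have e3 : a * b * (z / b * (x / a)) ^ 2 = (b * (z / b) ^ 2) * (a * (x / a) ^ 2) := by ring
      rw [e3, e, e']
      ring
  rcases hZ.lt_or_eq with hZ1 | hZ1
  · -- Z small
    have f1 : w (a * X ^ 2 + n * W ^ 2) < 1 := by
      have h := hadd e2 (hput hab hZ1)
      have e : a * X ^ 2 + n * W ^ 2 - a * b * Z ^ 2 + a * b * Z ^ 2 = a * X ^ 2 + n * W ^ 2 := by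
        ring
      rwa [e] at h
    have hX1 : w X = 1 := by
      refine hX.lt_or_eq.resolve_left fun hX1 => ?_
      have hW1 : w W < 1 := by
        apply hcan hn
        have h := hsub f1 (hput ha hX1)
        have e : a * X ^ 2 + n * W ^ 2 - a * X ^ 2 = n * W ^ 2 := by ring
        rwa [e] at h
      have hY2 : w Y < 1 := by
        apply hcan hb
        have h := hsub (hsub (hput ha hX1) (hput hn hW1)) e1
        have e : a * X ^ 2 - n * W ^ 2 - (a * X ^ 2 - n * W ^ 2 - b * Y ^ 2) = b * Y ^ 2 := by ring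
        rwa [e] at h
      exact absurd hY1 hY2.ne
    have hW1 : w W = 1 := by
      refine hW.lt_or_eq.resolve_left fun hW1 => ?_
      have h := hsub f1 (hput hn hW1)
      have e : a * X ^ 2 + n * W ^ 2 - n * W ^ 2 = a * X ^ 2 := by ring
      rw [e] at h
      exact absurd hX1 (hcan ha h).ne
    have hX0 : X ≠ 0 := (Valuation.ne_zero_iff w).1 (by rw [hX1]; exact one_ne_zero)
    have hW0 : W ≠ 0 := (Valuation.ne_zero_iff w).1 (by rw [hW1]; exact one_ne_zero)
    obtain ⟨x, hx⟩ := hsq (-(n * a)) (a * X / W) (by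
      rw [Valuation.map_neg, map_mul, hn, ha, one_mul]) (by
      have e : -(n * a) - (a * X / W) ^ 2 = (-(a * X ^ 2 + n * W ^ 2) * a) / W ^ 2 := by
        field_simp
        ring
      rw [e]
      refine good1_div w (good1_mul w ?_ ha.le) (by rw [map_pow, hW1, one_pow])
      rw [Valuation.map_neg]
      exact f1)
    obtain ⟨y, hy⟩ := hsq (2 * (a * b)) (b * Y / X) (by rw [map_mul, h2, hab, one_mul]) (by
      have e : 2 * (a * b) - (b * Y / X) ^ 2 = ((((a * X ^ 2 - n * W ^ 2 - b * Y ^ 2) +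
          (a * X ^ 2 + n * W ^ 2)) * b) / (X ^ 2)) := by
        field_simp
        ring
      rw [e]
      refine good1_div w (good1_mul w (hadd e1 f1) hb.le) (by
        rw [map_pow, hX1, one_pow]))
    refine ⟨x / a, y / b * (x / a), 0, 1, Or.inr (Or.inr (Or.inr one_ne_zero)), ?_, ?_⟩
    · have e : (x / a) ^ 2 = -n / a := by
        rw [div_pow, ← hx]
        field_simp
      have e' : b * (y / b) ^ 2 = 2 * a := by
        rw [div_pow, ← hy]
        field_simp
      have e3 : b * (y / b * (x / a)) ^ 2 = (b * (y / b) ^ 2) * ((x / a) ^ 2) := by ring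
      rw [e3, e, e']
      field_simp
      ring
    · have e : a * (x / a) ^ 2 = -n := by
        rw [div_pow, ← hx]
        field_simp
      rw [e]
      ring
  · -- Y and Z units
    have g1 : w ((a * X ^ 2 - n * W ^ 2) / b - Y ^ 2) < 1 := by
      have e : (a * X ^ 2 - n * W ^ 2) / b - Y ^ 2 = (a * X ^ 2 - n * W ^ 2 - b * Y ^ 2) / b := by
        field_simp
      rw [e]
      exact good1_div w e1 hb
    have g2 : w ((a * X ^ 2 + n * W ^ 2) / (a * b) - Z ^ 2) < 1 := by
      have e : (a * X ^ 2 + n * W ^ 2) / (a * b) - Z ^ 2 =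
          (a * X ^ 2 + n * W ^ 2 - a * b * Z ^ 2) / (a * b) := by
        field_simp
      rw [e]
      exact good1_div w e2 hab
    have k1 := good1_of_sub w (by rw [map_pow, hY1, one_pow]) g1
    have k2 := good1_of_sub w (by rw [map_pow, hZ1, one_pow]) g2
    obtain ⟨y, hy⟩ := hsq _ Y k1 g1
    obtain ⟨z, hz⟩ := hsq _ Z k2 g2
    have hy0 : y ≠ 0 := by
      rintro rfl
      rw [hy] at k1
      simp at k1
    refine ⟨X, y, z, W, Or.inr (Or.inl hy0), ?_, ?_⟩
    · rw [← hy]
      field_simp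
    · rw [← hz]
      field_simp

end core

/-- Good places, units. Proof: approximate n, a, b by integers n0, a0, b0 (exists_int_sub_lt), not
in v.asIdeal. The residue field 𝓞 K / v.asIdeal is finite of odd characteristic, hasPoint_finite
gives X, Y, Z, W in 𝓞 K, not all in v.asIdeal, satisfying the two equations modulo v. If Y and Z are
not in v.asIdeal: (a X^2 - n W^2) / b and (a X^2 + n W^2) / (a b) are units close to Y^2, Z^2,
squares by sq_away: point (X, y, z, W). If Y is in v.asIdeal: a X^2 = n W^2 modulo v; then X, W and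
Z are not in v.asIdeal (2 a X^2 = a b Z^2 modulo v); so n a is a unit close to the square
(a X / W)^2: n a = x^2 (sq_away), and 2 b is close to (b Z / X)^2: 2 b = z^2; the point
(x / a, 0, z / b * (x / a), 1): a X^2 = x^2 / a = n, a b Z^2 = 2 n: check. If Z is in v.asIdeal:
a X^2 = - n W^2, so X, W, Y are not in v.asIdeal, - n a = x^2, b Y^2 = 2 a X^2 so 2 a b = y^2: the
point (x / a, y / b * (x / a), 0, 1): a X^2 = -n, b Y^2 = y^2 x^2 / (b a^2) = 2 x^2 / a = -2 n. -/
theorem conv_good_unit (v : HeightOneSpectrum (𝓞 K)) (h2 : (2 : 𝓞 K) ∉ v.asIdeal)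
    (n a b : v.adicCompletion K)
    (hn : (Valued.v : Valuation (v.adicCompletion K) (WithZero (Multiplicative ℤ))) n = 1)
    (ha : (Valued.v : Valuation (v.adicCompletion K) (WithZero (Multiplicative ℤ))) a = 1)
    (hb : (Valued.v : Valuation (v.adicCompletion K) (WithZero (Multiplicative ℤ))) b = 1) :
    HasPoint n a b := by
  have hv2 : (Valued.v : Valuation (v.adicCompletion K) (WithZero (Multiplicative ℤ))) 2 = 1 := by
    have h20 : (algebraMap (𝓞 K) K 2) = 2 := map_ofNat _ _
    rw [← map_ofNat (algebraMap K (v.adicCompletion K)) 2, val_completion, ← h20]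
    exact val_eq_one v h2
  obtain ⟨n0, hn0⟩ := exists_int_sub_lt v n hn.le 1 one_pos
  obtain ⟨a0, ha0⟩ := exists_int_sub_lt v a ha.le 1 one_pos
  obtain ⟨b0, hb0⟩ := exists_int_sub_lt v b hb.le 1 one_pos
  have hnot : ∀ (x : v.adicCompletion K) (m : 𝓞 K),
      (Valued.v : Valuation (v.adicCompletion K) (WithZero (Multiplicative ℤ))) x = 1 →
      Valued.v (x - algebraMap K (v.adicCompletion K) (algebraMap (𝓞 K) K m)) < 1 →
      m ∉ v.asIdeal := by
    intro x m hx hxm hm
    have h1 : (Valued.v : Valuation (v.adicCompletion K) (WithZero (Multiplicative ℤ)))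
        (algebraMap K (v.adicCompletion K) (algebraMap (𝓞 K) K m)) < 1 := by
      rw [val_completion]
      exact (v.valuation_lt_one_iff_mem (K := K) m).2 hm
    have h3 := Valuation.map_add_lt _ hxm h1
    rw [sub_add_cancel, hx] at h3
    exact lt_irrefl _ h3
  have hF : v.asIdeal.IsMaximal := v.isMaximal
  let : Field (𝓞 K ⧸ v.asIdeal) := Ideal.Quotient.field v.asIdeal
  have hfin : Finite (𝓞 K ⧸ v.asIdeal) := Ideal.finiteQuotientOfFreeOfNeBot v.asIdeal v.ne_bot
  have hmk : ∀ m : 𝓞 K, Ideal.Quotient.mk v.asIdeal m ≠ 0 ↔ m ∉ v.asIdeal := fun m =>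
    not_congr Ideal.Quotient.eq_zero_iff_mem
  obtain ⟨X', Y', Z', W', hne', q1, q2⟩ := hasPoint_finite (F := 𝓞 K ⧸ v.asIdeal)
    (by
      have := (hmk 2).2 h2
      rwa [map_ofNat] at this)
    (Ideal.Quotient.mk v.asIdeal n0) (Ideal.Quotient.mk v.asIdeal a0)
    (Ideal.Quotient.mk v.asIdeal b0) ((hmk _).2 (hnot _ _ hn hn0)) ((hmk _).2 (hnot _ _ ha ha0))
    ((hmk _).2 (hnot _ _ hb hb0))
  obtain ⟨X, rfl⟩ := Ideal.Quotient.mk_surjective X'
  obtain ⟨Y, rfl⟩ := Ideal.Quotient.mk_surjective Y'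
  obtain ⟨Z, rfl⟩ := Ideal.Quotient.mk_surjective Z'
  obtain ⟨W, rfl⟩ := Ideal.Quotient.mk_surjective W'
  have r1 : a0 * X ^ 2 - n0 * W ^ 2 - b0 * Y ^ 2 ∈ v.asIdeal := by
    rw [← Ideal.Quotient.eq_zero_iff_mem]
    simp only [map_sub, map_mul, map_pow]
    rw [q1, sub_self]
  have r2 : a0 * X ^ 2 + n0 * W ^ 2 - a0 * b0 * Z ^ 2 ∈ v.asIdeal := by
    rw [← Ideal.Quotient.eq_zero_iff_mem]
    simp only [map_sub, map_add, map_mul, map_pow]
    rw [q2, sub_self]
  have hint : ∀ m ∈ v.asIdeal, (Valued.v : Valuation (v.adicCompletion K)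
      (WithZero (Multiplicative ℤ))) (algebraMap K (v.adicCompletion K) (algebraMap (𝓞 K) K m))
      < 1 := by
    intro m hm
    rw [val_completion]
    exact (v.valuation_lt_one_iff_mem (K := K) m).2 hm
  have hint' : ∀ m : 𝓞 K, (Valued.v : Valuation (v.adicCompletion K)
      (WithZero (Multiplicative ℤ))) (algebraMap K (v.adicCompletion K) (algebraMap (𝓞 K) K m))
      < 1 → m ∈ v.asIdeal := by
    intro m hm
    rw [val_completion] at hm
    exact (v.valuation_lt_one_iff_mem (K := K) m).1 hm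
  have s1 := hint _ r1
  have s2 := hint _ r2
  have hsub : ∀ {x y : v.adicCompletion K},
      (Valued.v : Valuation (v.adicCompletion K) (WithZero (Multiplicative ℤ))) x < 1 →
      (Valued.v : Valuation (v.adicCompletion K) (WithZero (Multiplicative ℤ))) y < 1 →
      (Valued.v : Valuation (v.adicCompletion K) (WithZero (Multiplicative ℤ))) (x - y) < 1 := by
    intro x y hx hy
    exact (Valuation.map_sub _ x y).trans_lt (max_lt hx hy)
  have hpow : ∀ m : 𝓞 K, (Valued.v : Valuation (v.adicCompletion K)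
      (WithZero (Multiplicative ℤ)))
      ((algebraMap K (v.adicCompletion K) (algebraMap (𝓞 K) K m)) ^ 2) ≤ 1 := by
    intro m
    rw [map_pow]
    exact pow_le_one₀ zero_le (val_int_le_one v m)
  refine good1_core Valued.v n a b hn ha hb hv2 (fun d g hd hg => sq_away v hv2 hd hg)
    (algebraMap K (v.adicCompletion K) (algebraMap (𝓞 K) K X))
    (algebraMap K (v.adicCompletion K) (algebraMap (𝓞 K) K Y))
    (algebraMap K (v.adicCompletion K) (algebraMap (𝓞 K) K Z))
    (algebraMap K (v.adicCompletion K) (algebraMap (𝓞 K) K W))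
    (val_int_le_one v X) (val_int_le_one v Y) (val_int_le_one v Z) (val_int_le_one v W) ?_ ?_ ?_
  · rintro ⟨t1, t2, t3, t4⟩
    rcases hne' with h | h | h | h
    · exact (hmk _).1 h (hint' _ t1)
    · exact (hmk _).1 h (hint' _ t2)
    · exact (hmk _).1 h (hint' _ t3)
    · exact (hmk _).1 h (hint' _ t4)
  · simp only [map_sub, map_mul, map_pow] at s1
    have k1 := good1_mul _ ha0 (hpow X)
    have k2 := good1_mul _ hn0 (hpow W)
    have k3 := good1_mul _ hb0 (hpow Y)
    have k4 := hsub (hsub (Valuation.map_add_lt _ s1 k1) k2) k3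
    refine lt_of_eq_of_lt (congrArg _ ?_) k4
    ring
  · simp only [map_sub, map_add, map_mul, map_pow] at s2
    have k1 := good1_mul _ ha0 (hpow X)
    have k2 := good1_mul _ hn0 (hpow W)
    have k3 := good1_mul _ (good1_mul _ ha0 (val_int_le_one v b0)) (hpow Z)
    have k5 := good1_mul _ (good1_mul _ hb0 ha.le) (hpow Z)
    have k4 := hsub (hsub (Valuation.map_add_lt _ (Valuation.map_add_lt _ s2 k1) k2) k3) k5
    refine lt_of_eq_of_lt (congrArg _ ?_) k4
    ring

end Pool.Agent.MP009fd8E
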