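import Pool.Agent.Lib.MP_009fd8_agE.Good1

/-!
MP_009fd8_ag, EveryField: the conditions at the places not above 2 are sufficient.
-/

namespace Pool.Agent.MP009fd8E

open IsDedekindDomain NumberField WithZero Pool.Agent.MP009fd8 Pool.Agent.MP009fd8M

variable {K : Type*} [Field K] [NumberField K]

private theorem good2_val_two (v : HeightOneSpectrum (𝓞 K)) (h2 : (2 : 𝓞 K) ∉ v.asIdeal) :
    (Valued.v : Valuation (v.adicCompletion K) (WithZero (Multiplicative ℤ))) 2 = 1 := by
  have h20 : (algebraMap (𝓞 K) K 2) = 2 := map_ofNat _ _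
  rw [← map_ofNat (algebraMap K (v.adicCompletion K)) 2, val_completion, ← h20]
  exact val_eq_one v h2

private theorem good2_square (v : HeightOneSpectrum (𝓞 K)) (h2 : (2 : 𝓞 K) ∉ v.asIdeal) {a : K}
    (ha0 : a ≠ 0) (ha : NearSq v a) :
    ∃ r : v.adicCompletion K, r ≠ 0 ∧ algebraMap K (v.adicCompletion K) a = r ^ 2 := by
  obtain ⟨g, hg⟩ := ha
  have e1 : v.valuation K (g ^ 2) = v.valuation K a := by
    have := Valuation.map_sub_eq_of_lt_left (v.valuation K) hg
    rwa [sub_sub_cancel] at this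
  have hva : v.valuation K a ≠ 0 := (Valuation.ne_zero_iff _).2 ha0
  have hg0 : g ≠ 0 := by
    rintro rfl
    rw [zero_pow two_ne_zero, map_zero] at e1
    exact hva e1.symm
  have hg2 : g ^ 2 ≠ 0 := pow_ne_zero 2 hg0
  have h3 : v.valuation K (a / g ^ 2) = 1 := by
    rw [map_div₀, e1, div_self hva]
  have h4 : v.valuation K (a / g ^ 2 - 1 ^ 2) < 1 := by
    have e2 : a / g ^ 2 - 1 ^ 2 = (a - g ^ 2) / g ^ 2 := by
      field_simp
    rw [e2, map_div₀, e1]
    calc v.valuation K (a - g ^ 2) / v.valuation K a < v.valuation K a / v.valuation K a :=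
          (div_lt_div_iff_of_pos_right (zero_lt_iff.2 hva)).2 hg
      _ = 1 := div_self hva
  obtain ⟨x, hx⟩ := sq_away v (d := algebraMap K (v.adicCompletion K) (a / g ^ 2)) (g := 1)
    (good2_val_two v h2) (by rw [val_completion]; exact h3)
    (by
      rw [← map_one (algebraMap K (v.adicCompletion K)), ← map_pow, ← map_sub, val_completion]
      exact h4)
  have e3 : algebraMap K (v.adicCompletion K) a = (x * algebraMap K (v.adicCompletion K) g) ^ 2 := by
    rw [mul_pow, ← hx, ← map_pow, ← map_mul, div_mul_cancel₀ _ hg2]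
  refine ⟨_, ?_, e3⟩
  intro h0
  rw [h0, zero_pow two_ne_zero] at e3
  exact (map_ne_zero _).2 ha0 e3

/-- Good places. Proof: exists_scale for n, a, b, conv_good_unit, hasPoint_scale (with the inverse
of the scaling factor) and hasPoint_sq. -/
theorem conv_good (v : HeightOneSpectrum (𝓞 K)) (h2 : (2 : 𝓞 K) ∉ v.asIdeal) {n a b : K}
    (hn0 : n ≠ 0) (ha0 : a ≠ 0) (hb0 : b ≠ 0) (hn : IsSquare (v.valuation K n))
    (ha : IsSquare (v.valuation K a)) (hb : IsSquare (v.valuation K b)) :
    HasPoint (algebraMap K (v.adicCompletion K) n) (algebraMap K (v.adicCompletion K) a)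
      (algebraMap K (v.adicCompletion K) b) := by
  obtain ⟨u, hu0, hu⟩ := exists_scale v hn0 hn
  obtain ⟨r, hr0, hr⟩ := exists_scale v ha0 ha
  obtain ⟨s, hs0, hs⟩ := exists_scale v hb0 hb
  have hu0' : algebraMap K (v.adicCompletion K) u ≠ 0 := (map_ne_zero _).2 hu0
  have hr0' : algebraMap K (v.adicCompletion K) r ≠ 0 := (map_ne_zero _).2 hr0
  have hs0' : algebraMap K (v.adicCompletion K) s ≠ 0 := (map_ne_zero _).2 hs0
  have h1 := conv_good_unit v h2 (algebraMap K (v.adicCompletion K) (n * u ^ 2))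
    (algebraMap K (v.adicCompletion K) (a * r ^ 2)) (algebraMap K (v.adicCompletion K) (b * s ^ 2))
    (by rw [val_completion]; exact hu) (by rw [val_completion]; exact hr)
    (by rw [val_completion]; exact hs)
  simp only [map_mul, map_pow] at h1
  have h3 := hasPoint_scale (inv_ne_zero hu0') (hasPoint_sq _ _ _ _ _ hr0' hs0' h1)
  have e1 : algebraMap K (v.adicCompletion K) n * algebraMap K (v.adicCompletion K) u ^ 2 *
      (algebraMap K (v.adicCompletion K) u)⁻¹ ^ 2 = algebraMap K (v.adicCompletion K) n := by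
    field_simp
  rwa [e1] at h3

/-- Places not above 2 with v(n) odd. Proof: NearSq v a gives g with v(a - g^2) < v(a), so
v(g^2) = v(a), a / g^2 is a unit close to 1 and a square in the completion (sq_away); the same for
b; hasPoint_of_torsionPair. -/
theorem conv_near (v : HeightOneSpectrum (𝓞 K)) (h2 : (2 : 𝓞 K) ∉ v.asIdeal) {n a b : K}
    (ha0 : a ≠ 0) (hb0 : b ≠ 0) (ha : NearSq v a) (hb : NearSq v b) :
    HasPoint (algebraMap K (v.adicCompletion K) n) (algebraMap K (v.adicCompletion K) a)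
      (algebraMap K (v.adicCompletion K) b) := by
  obtain ⟨r, hr0, hr⟩ := good2_square v h2 ha0 ha
  obtain ⟨s, hs0, hs⟩ := good2_square v h2 hb0 hb
  exact hasPoint_of_torsionPair _ _ _ ⟨r, s, hr0, hs0, Or.inl ⟨hr, hs⟩⟩

end Pool.Agent.MP009fd8E
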