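import Pool.Agent.Lib.MP_009fd8_agE.Stable
import Pool.Agent.Lib.MP_009fd8_agE.CaseB
import Pool.Agent.Lib.MP_009fd8_agE.Case2E
import Pool.Agent.Lib.MP_009fd8_agE.Case2O

/-!
MP_009fd8_ag, EveryField: the 2-descent on y^2 = x^3 - n^2 x over every number field in which 2 is
unramified.
-/

namespace Pool.Agent.MP009fd8E

open IsDedekindDomain NumberField WithZero Pool.Agent.MP009fd8

variable {K : Type*} [Field K] [NumberField K]

/-- An everywhere locally soluble covering satisfies the explicit local conditions. -/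
theorem localCond_of_selmer (hunr : ∀ v : HeightOneSpectrum (𝓞 K), (2 : 𝓞 K) ∉ v.asIdeal ^ 2)
    {n a b : K} (hn : n ≠ 0) (ha : a ≠ 0) (hb : b ≠ 0) (h : SelmerPair K n a b) :
    LocalCond n a b := by
  refine ⟨fun v => ?_, fun f => case_real f hn ha hb (h.2 f)⟩
  have hv := h.1 v
  by_cases h2 : (2 : 𝓞 K) ∈ v.asIdeal
  · by_cases hvn : IsSquare (v.valuation K n)
    · obtain ⟨x, y, ht, hc⟩ := case_two_even v h2 (hunr v) hn ha hb hvn hv
      exact ⟨x, y, ht, fun h' => absurd h2 h', fun h' => absurd h2 h', fun _ _ => hc,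
        fun _ h' => absurd hvn h'⟩
    · obtain ⟨x, y, ht, hc⟩ := case_two_odd v h2 (hunr v) hn ha hb hvn hv
      exact ⟨x, y, ht, fun h' => absurd h2 h', fun h' => absurd h2 h', fun _ h' => absurd h' hvn,
        fun _ _ => hc⟩
  · by_cases hvn : IsSquare (v.valuation K n)
    · refine ⟨1, 1, torsion_one n, fun _ _ => ?_, fun _ h' => absurd hvn h',
        fun h' => absurd h' h2, fun h' => absurd h' h2⟩
      rw [mul_one, mul_one]
      exact case_away v h2 hn ha hb hvn hv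
    · obtain ⟨x, y, ht, hc⟩ := case_odd v h2 hn ha hb hvn hv
      exact ⟨x, y, ht, fun _ h' => absurd h' hvn, fun _ _ => hc, fun h' => absurd h' h2,
        fun h' => absurd h' h2⟩

/-- The criterion. -/
theorem criterion (hunr : ∀ v : HeightOneSpectrum (𝓞 K), (2 : 𝓞 K) ∉ v.asIdeal ^ 2)
    {n : K} (hn : n ≠ 0)
    (P : Finset (K × K)) (hP0 : ∀ x ∈ P, x.1 ≠ 0 ∧ x.2 ≠ 0 ∧ HasPoint n x.1 x.2)
    (hP : ∀ x ∈ P, ∀ x' ∈ P, x ≠ x' → ¬ TorsionPair n (x.1 * x'.1) (x.2 * x'.2))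
    (hcount : ∀ T : Finset (K × K), (∀ x ∈ T, x.1 ≠ 0 ∧ x.2 ≠ 0 ∧ LocalCond n x.1 x.2) →
      (∀ x ∈ T, ∀ x' ∈ T, IsSquare (x.1 * x'.1) → IsSquare (x.2 * x'.2) → x = x') →
      T.card ≤ 4 * P.card)
    {a b : K} (ha : a ≠ 0) (hb : b ≠ 0) (h : SelmerPair K n a b) :
    ∃ x ∈ P, TorsionPair n (a * x.1) (b * x.2) := by
  classical
  by_contra hno
  push Not at hno
  obtain ⟨v, hv⟩ := exists_above_two (K := K)
  have hsq2 := two_not_square v hv (hunr v)
  have hsq1 := neg_one_not_square v hv (hunr v)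
  have h20 : (2 : K) ≠ 0 := two_ne_zero
  -- the list of Selmer pairs
  have hab : (a, b) ∉ P := by
    intro hmem
    exact hno _ hmem ⟨a, b, ha, hb, Or.inl ⟨by ring, by ring⟩⟩
  obtain ⟨S, hS⟩ : ∃ S, S = insert (a, b) P := ⟨_, rfl⟩
  have hScard : S.card = P.card + 1 := by rw [hS, Finset.card_insert_of_notMem hab]
  have hS0 : ∀ x ∈ S, x.1 ≠ 0 ∧ x.2 ≠ 0 ∧ SelmerPair K n x.1 x.2 := by
    intro x hx
    rw [hS, Finset.mem_insert] at hx
    rcases hx with rfl | hx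
    · exact ⟨ha, hb, h⟩
    · obtain ⟨h1, h2, h3⟩ := hP0 x hx
      exact ⟨h1, h2, SelmerPair.of_hasPoint h3⟩
  have hSd : ∀ x ∈ S, ∀ x' ∈ S, TorsionPair n (x.1 * x'.1) (x.2 * x'.2) → x = x' := by
    intro x hx x' hx' ht
    rw [hS, Finset.mem_insert] at hx hx'
    by_contra hne
    rcases hx with rfl | hx <;> rcases hx' with rfl | hx'
    · exact hne rfl
    · exact hno x' hx' ht
    · refine hno x hx ?_
      rw [mul_comm a, mul_comm b]; exact ht
    · exact hP x hx x' hx' hne ht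
  -- the translates by the torsion pairs
  obtain ⟨G, hG⟩ : ∃ G : (K × K) × Fin 4 → K × K,
      G = fun z => (z.1.1 * (tau n z.2).1, z.1.2 * (tau n z.2).2) := ⟨_, rfl⟩
  have hG1 : ∀ z, (G z).1 = z.1.1 * (tau n z.2).1 := fun z => by rw [hG]
  have hG2 : ∀ z, (G z).2 = z.1.2 * (tau n z.2).2 := fun z => by rw [hG]
  have hcls : ∀ z z' : (K × K) × Fin 4, z.1 ∈ S → z'.1 ∈ S →
      IsSquare ((G z).1 * (G z').1) → IsSquare ((G z).2 * (G z').2) → z = z' := by
    intro z z' hz hz' hx hy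
    rw [hG1, hG1] at hx
    rw [hG2, hG2] at hy
    obtain ⟨h1, h2, -⟩ := hS0 z.1 hz
    obtain ⟨h1', h2', -⟩ := hS0 z'.1 hz'
    obtain ⟨t1, t2⟩ := TorsionPair.ne_zero h20 hn (tau_torsion n z.2)
    obtain ⟨t1', t2'⟩ := TorsionPair.ne_zero h20 hn (tau_torsion n z'.2)
    obtain ⟨ρ, q1⟩ := hx
    obtain ⟨σ, q2⟩ := hy
    have hρ : ρ ≠ 0 := by
      rintro rfl
      rw [mul_zero] at q1
      exact mul_ne_zero (mul_ne_zero h1 t1) (mul_ne_zero h1' t1') q1
    have hσ : σ ≠ 0 := by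
      rintro rfl
      rw [mul_zero] at q2
      exact mul_ne_zero (mul_ne_zero h2 t2) (mul_ne_zero h2' t2') q2
    have hxx : z.1 = z'.1 := by
      apply hSd _ hz _ hz'
      have ht := (tau_torsion n z.2).mul h20 hn (tau_torsion n z'.2)
      have hs1 : TorsionPair n (ρ ^ 2) (σ ^ 2) := ⟨_, _, hρ, hσ, Or.inl ⟨rfl, rfl⟩⟩
      rw [pow_two, pow_two, ← q1, ← q2] at hs1
      have h6 := hs1.mul h20 hn ht
      refine TorsionPair.of_mul_sq (mul_ne_zero t1 t1') (mul_ne_zero t2 t2') ?_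
      convert h6 using 1 <;> ring
    have hii : z.2 = z'.2 := by
      apply tau_inj hn hsq2 hsq1
      · refine isSquare_of_mul (y := z.1.1 * z.1.1) (mul_ne_zero h1 h1) ?_ ⟨_, rfl⟩
        rw [← hxx] at q1
        refine ⟨ρ, ?_⟩
        linear_combination q1
      · refine isSquare_of_mul (y := z.1.2 * z.1.2) (mul_ne_zero h2 h2) ?_ ⟨_, rfl⟩
        rw [← hxx] at q2
        refine ⟨σ, ?_⟩
        linear_combination q2
    exact Prod.ext hxx hii
  have hself : ∀ x : K, IsSquare (x * x) := fun x => ⟨x, rfl⟩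
  have hTcard : ((S ×ˢ (Finset.univ : Finset (Fin 4))).image G).card = 4 * S.card := by
    rw [Finset.card_image_of_injOn, Finset.card_product, Finset.card_univ, Fintype.card_fin,
      mul_comm]
    intro z hz z' hz' hzz
    rw [Finset.mem_coe, Finset.mem_product] at hz hz'
    refine hcls z z' hz.1 hz'.1 ?_ ?_
    · rw [hzz]; exact hself _
    · rw [hzz]; exact hself _
  have hle := hcount ((S ×ˢ (Finset.univ : Finset (Fin 4))).image G) (by
      intro x hx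
      rw [Finset.mem_image] at hx
      obtain ⟨z, hz, rfl⟩ := hx
      rw [Finset.mem_product] at hz
      obtain ⟨h1, h2, h3⟩ := hS0 z.1 hz.1
      obtain ⟨t1, t2⟩ := TorsionPair.ne_zero h20 hn (tau_torsion n z.2)
      have h4 := SelmerPair.torsion hn h1 h2 h3 (tau_torsion n z.2)
      rw [hG1, hG2]
      exact ⟨mul_ne_zero h1 t1, mul_ne_zero h2 t2,
        localCond_of_selmer hunr hn (mul_ne_zero h1 t1) (mul_ne_zero h2 t2) h4⟩) (by
      intro x hx x' hx' e1 e2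
      rw [Finset.mem_image] at hx hx'
      obtain ⟨z, hz, rfl⟩ := hx
      obtain ⟨z', hz', rfl⟩ := hx'
      rw [Finset.mem_product] at hz hz'
      rw [hcls z z' hz.1 hz'.1 e1 e2])
  rw [hTcard, hScard] at hle
  omega

/-- The theorem. -/
theorem every_field (hunr : ∀ v : HeightOneSpectrum (𝓞 K), (2 : 𝓞 K) ∉ v.asIdeal ^ 2)
    {n : K} (hn : n ≠ 0) :
    (∀ a b : K, a ≠ 0 → b ≠ 0 → SelmerPair K n a b → LocalCond n a b) ∧
    (∀ P : Finset (K × K), (∀ x ∈ P, x.1 ≠ 0 ∧ x.2 ≠ 0 ∧ HasPoint n x.1 x.2) →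
      (∀ x ∈ P, ∀ x' ∈ P, x ≠ x' → ¬ TorsionPair n (x.1 * x'.1) (x.2 * x'.2)) →
      (∀ T : Finset (K × K), (∀ x ∈ T, x.1 ≠ 0 ∧ x.2 ≠ 0 ∧ LocalCond n x.1 x.2) →
        (∀ x ∈ T, ∀ x' ∈ T, IsSquare (x.1 * x'.1) → IsSquare (x.2 * x'.2) → x = x') →
        T.card ≤ 4 * P.card) →
      ∀ a b : K, a ≠ 0 → b ≠ 0 →
        (SelmerPair K n a b ↔ HasPoint n a b) ∧
        (SelmerPair K n a b ↔ ∃ x ∈ P, TorsionPair n (a * x.1) (b * x.2))) := by
  refine ⟨fun a b ha hb h => localCond_of_selmer hunr hn ha hb h, ?_⟩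
  intro P hP0 hP hcount a b ha hb
  have key : SelmerPair K n a b → ∃ x ∈ P, TorsionPair n (a * x.1) (b * x.2) :=
    fun h => criterion hunr hn P hP0 hP hcount ha hb h
  have key2 : (∃ x ∈ P, TorsionPair n (a * x.1) (b * x.2)) → HasPoint n a b := by
    rintro ⟨x, hx, ht⟩
    obtain ⟨h1, h2, h3⟩ := hP0 x hx
    exact hasPoint_of_equiv hn h1 h2 h3 ht
  exact ⟨⟨fun h => key2 (key h), fun h => SelmerPair.of_hasPoint h⟩,
    ⟨key, fun h => SelmerPair.of_hasPoint (key2 h)⟩⟩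

end Pool.Agent.MP009fd8E
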