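import Pool.Agent.Lib.MP_009fd8_agE.Main
import Pool.Agent.Lib.MP_009fd8_agE.Conv2
import Pool.Agent.Lib.MP_009fd8_agE.Good2

/-!
MP_009fd8_ag, EveryField: the local conditions describe the Selmer group exactly.
-/

namespace Pool.Agent.MP009fd8E

open IsDedekindDomain NumberField WithZero Pool.Agent.MP009fd8

variable {K : Type*} [Field K] [NumberField K]

/-- Undoing a torsion translation. -/
theorem HasPoint.of_torsion {F : Type*} [Field F] {n a b x y : F} (h20 : (2 : F) ≠ 0)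
    (hn : n ≠ 0) (ha : a ≠ 0) (hb : b ≠ 0) (ht : TorsionPair n x y)
    (h : HasPoint n (a * x) (b * y)) : HasPoint n a b := by
  obtain ⟨hx, hy⟩ := TorsionPair.ne_zero h20 hn ht
  have h1 := HasPoint.torsion hn (mul_ne_zero ha hx) (mul_ne_zero hb hy) h ht
  refine hasPoint_sq n a b x y hx hy ?_
  convert h1 using 1 <;> ring

/-- Positive pairs have a real point. -/
theorem hasPoint_real {n a b : ℝ} (ha : 0 < a) (hb : 0 < b) : HasPoint n a b := by
  apply hasPoint_of_torsionPair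
  exact ⟨Real.sqrt a, Real.sqrt b, (Real.sqrt_pos.2 ha).ne', (Real.sqrt_pos.2 hb).ne',
    Or.inl ⟨(Real.sq_sqrt ha.le).symm, (Real.sq_sqrt hb.le).symm⟩⟩

/-- The local conditions are sufficient. -/
theorem selmer_of_localCond (hunr : ∀ v : HeightOneSpectrum (𝓞 K), (2 : 𝓞 K) ∉ v.asIdeal ^ 2)
    {n a b : K} (hn : n ≠ 0) (ha : a ≠ 0) (hb : b ≠ 0) (h : LocalCond n a b) :
    SelmerPair K n a b := by
  have h20 : (2 : K) ≠ 0 := two_ne_zero
  constructor
  · intro v
    obtain ⟨x, y, ht, hA, hB, hC, hD⟩ := h.1 v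
    obtain ⟨hx, hy⟩ := TorsionPair.ne_zero h20 hn ht
    have hinj : ∀ z : K, z ≠ 0 → algebraMap K (v.adicCompletion K) z ≠ 0 :=
      fun z hz => (map_ne_zero _).2 hz
    have h2v : (2 : v.adicCompletion K) ≠ 0 := by
      rw [← map_ofNat (algebraMap K (v.adicCompletion K)) 2]
      exact hinj 2 h20
    refine HasPoint.of_torsion h2v (hinj n hn) (hinj a ha) (hinj b hb)
      (TorsionPair.map (algebraMap K (v.adicCompletion K)) ht) ?_
    rw [← map_mul, ← map_mul]
    have hax := mul_ne_zero ha hx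
    have hby := mul_ne_zero hb hy
    by_cases h2 : (2 : 𝓞 K) ∈ v.asIdeal
    · by_cases hvn : IsSquare (v.valuation K n)
      · obtain ⟨e, t, B, hBB, c1, c2, c3⟩ := hC h2 hvn
        exact conv_two_even v h2 (hunr v) hn hax hby e t B hBB c1 c2 c3
      · obtain ⟨m, r, c1, c2, c3⟩ := hD h2 hvn
        exact conv_two_odd v h2 (hunr v) hn hax hby m r c1 c2 c3
    · by_cases hvn : IsSquare (v.valuation K n)
      · obtain ⟨c1, c2⟩ := hA h2 hvn
        exact conv_good v h2 hn hax hby hvn c1 c2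
      · obtain ⟨c1, c2⟩ := hB h2 hvn
        exact conv_near v h2 hax hby c1 c2
  · intro f
    obtain ⟨x, y, ht, c1, c2⟩ := h.2 f
    have hinj : ∀ z : K, z ≠ 0 → f z ≠ 0 := fun z hz => (map_ne_zero _).2 hz
    refine HasPoint.of_torsion two_ne_zero (hinj n hn) (hinj a ha) (hinj b hb)
      (TorsionPair.map f ht) ?_
    rw [← map_mul, ← map_mul]
    exact hasPoint_real c1 c2

/-- The Selmer pairs are exactly the pairs that satisfy the local conditions. -/
theorem selmer_iff_localCond (hunr : ∀ v : HeightOneSpectrum (𝓞 K), (2 : 𝓞 K) ∉ v.asIdeal ^ 2)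
    {n a b : K} (hn : n ≠ 0) (ha : a ≠ 0) (hb : b ≠ 0) :
    SelmerPair K n a b ↔ LocalCond n a b :=
  ⟨localCond_of_selmer hunr hn ha hb, selmer_of_localCond hunr hn ha hb⟩

end Pool.Agent.MP009fd8E
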