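import Pool.Agent.Lib.MP_009fd8_agE.MainC

/-!
MP_009fd8_ag, EveryField: the final form of the theorem.
-/

namespace Pool.Agent.MP009fd8E

open IsDedekindDomain NumberField WithZero Pool.Agent.MP009fd8

variable {K : Type*} [Field K] [NumberField K]

omit [NumberField K] in
/-- A torsion pair is one of the four pairs up to squares. -/
theorem exists_tau {n p q : K} (h : TorsionPair n p q) :
    ∃ i : Fin 4, IsSquare (p * (tau n i).1) ∧ IsSquare (q * (tau n i).2) := by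
  obtain ⟨r, s, hr, hs, h⟩ := h
  rcases h with ⟨rfl, rfl⟩ | ⟨rfl, rfl⟩ | ⟨rfl, rfl⟩ | ⟨rfl, rfl⟩
  · exact ⟨0, ⟨r, by simp [tau]; ring⟩, ⟨s, by simp [tau]; ring⟩⟩
  · exact ⟨1, ⟨r, by simp [tau]; ring⟩, ⟨n * s, by simp [tau]; ring⟩⟩
  · exact ⟨2, ⟨n * r, by simp [tau]; ring⟩, ⟨2 * s, by simp [tau]; ring⟩⟩
  · exact ⟨3, ⟨n * r, by simp [tau]; ring⟩, ⟨2 * n * s, by simp [tau]; ring⟩⟩

/-- The converse of the criterion. -/
theorem card_le_of_all (hunr : ∀ v : HeightOneSpectrum (𝓞 K), (2 : 𝓞 K) ∉ v.asIdeal ^ 2)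
    {n : K} (hn : n ≠ 0)
    (P : Finset (K × K)) (hP0 : ∀ x ∈ P, x.1 ≠ 0 ∧ x.2 ≠ 0 ∧ HasPoint n x.1 x.2)
    (hall : ∀ a b : K, a ≠ 0 → b ≠ 0 → SelmerPair K n a b →
      ∃ x ∈ P, TorsionPair n (a * x.1) (b * x.2))
    (T : Finset (K × K)) (hT : ∀ x ∈ T, x.1 ≠ 0 ∧ x.2 ≠ 0 ∧ LocalCond n x.1 x.2)
    (hT2 : ∀ x ∈ T, ∀ x' ∈ T, IsSquare (x.1 * x'.1) → IsSquare (x.2 * x'.2) → x = x') :
    T.card ≤ 4 * P.card := by
  classical
  have h20 : (2 : K) ≠ 0 := two_ne_zero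
  have hex : ∀ x : K × K, x ∈ T → ∃ z : (K × K) × Fin 4, z.1 ∈ P ∧
      IsSquare (x.1 * z.1.1 * (tau n z.2).1) ∧ IsSquare (x.2 * z.1.2 * (tau n z.2).2) := by
    intro x hx
    obtain ⟨h1, h2, h3⟩ := hT x hx
    obtain ⟨y, hy, ht⟩ := hall x.1 x.2 h1 h2 (selmer_of_localCond hunr hn h1 h2 h3)
    obtain ⟨i, hi1, hi2⟩ := exists_tau ht
    exact ⟨(y, i), hy, hi1, hi2⟩
  obtain ⟨G, hG⟩ : ∃ G : K × K → (K × K) × Fin 4, ∀ x ∈ T, (G x).1 ∈ P ∧
      IsSquare (x.1 * (G x).1.1 * (tau n (G x).2).1) ∧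
      IsSquare (x.2 * (G x).1.2 * (tau n (G x).2).2) := by
    refine ⟨fun x => if hx : x ∈ T then (hex x hx).choose else (0, 0), fun x hx => ?_⟩
    have := (hex x hx).choose_spec
    simpa only [hx, dif_pos] using this
  have hle := Finset.card_le_card_of_injOn (s := T) (t := P ×ˢ (Finset.univ : Finset (Fin 4))) G
    (by
      intro x hx
      rw [Finset.mem_coe, Finset.mem_product]
      exact ⟨(hG x hx).1, Finset.mem_univ _⟩) (by
      intro x hx x' hx' hxx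
      rw [Finset.mem_coe] at hx hx'
      obtain ⟨g1, g2, g3⟩ := hG x hx
      obtain ⟨-, g2', g3'⟩ := hG x' hx'
      rw [← hxx] at g2' g3'
      obtain ⟨p1, p2, -⟩ := hP0 _ g1
      obtain ⟨t1, t2⟩ := TorsionPair.ne_zero h20 hn (tau_torsion n (G x).2)
      apply hT2 x hx x' hx'
      · refine isSquare_of_mul (y := ((G x).1.1 * (tau n (G x).2).1) *
          ((G x).1.1 * (tau n (G x).2).1)) (mul_ne_zero (mul_ne_zero p1 t1)
            (mul_ne_zero p1 t1)) ?_ ⟨_, rfl⟩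
        have e : x.1 * x'.1 * (((G x).1.1 * (tau n (G x).2).1) *
            ((G x).1.1 * (tau n (G x).2).1)) = x.1 * (G x).1.1 * (tau n (G x).2).1 *
            (x'.1 * (G x).1.1 * (tau n (G x).2).1) := by ring
        rw [e]
        exact g2.mul g2'
      · refine isSquare_of_mul (y := ((G x).1.2 * (tau n (G x).2).2) *
          ((G x).1.2 * (tau n (G x).2).2)) (mul_ne_zero (mul_ne_zero p2 t2)
            (mul_ne_zero p2 t2)) ?_ ⟨_, rfl⟩
        have e : x.2 * x'.2 * (((G x).1.2 * (tau n (G x).2).2) *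
            ((G x).1.2 * (tau n (G x).2).2)) = x.2 * (G x).1.2 * (tau n (G x).2).2 *
            (x'.2 * (G x).1.2 * (tau n (G x).2).2) := by ring
        rw [e]
        exact g3.mul g3')
  rw [Finset.card_product, Finset.card_univ, Fintype.card_fin] at hle
  omega

/-- The theorem. -/
theorem every_field_iff (hunr : ∀ v : HeightOneSpectrum (𝓞 K), (2 : 𝓞 K) ∉ v.asIdeal ^ 2)
    {n : K} (hn : n ≠ 0) :
    (∀ a b : K, a ≠ 0 → b ≠ 0 → (SelmerPair K n a b ↔ LocalCond n a b)) ∧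
    (∀ P : Finset (K × K), (∀ x ∈ P, x.1 ≠ 0 ∧ x.2 ≠ 0 ∧ HasPoint n x.1 x.2) →
      (∀ x ∈ P, ∀ x' ∈ P, x ≠ x' → ¬ TorsionPair n (x.1 * x'.1) (x.2 * x'.2)) →
      ((∀ T : Finset (K × K), (∀ x ∈ T, x.1 ≠ 0 ∧ x.2 ≠ 0 ∧ LocalCond n x.1 x.2) →
        (∀ x ∈ T, ∀ x' ∈ T, IsSquare (x.1 * x'.1) → IsSquare (x.2 * x'.2) → x = x') →
        T.card ≤ 4 * P.card) ↔
      ∀ a b : K, a ≠ 0 → b ≠ 0 →
        (SelmerPair K n a b ↔ HasPoint n a b) ∧
        (SelmerPair K n a b ↔ ∃ x ∈ P, TorsionPair n (a * x.1) (b * x.2)))) := by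
  refine ⟨fun a b ha hb => selmer_iff_localCond hunr hn ha hb, ?_⟩
  intro P hP0 hP
  constructor
  · intro hcount
    exact (every_field hunr hn).2 P hP0 hP hcount
  · intro hall T hT hT2
    exact card_le_of_all hunr hn P hP0 (fun a b ha hb h => (hall a b ha hb).2.1 h) T hT hT2

end Pool.Agent.MP009fd8E
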