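import Pool.Agent.Lib.MP_009fd8_ag.Final
import Pool.Agent.Lib.MP_009fd8_agW.Ring2e
import Pool.Agent.Lib.MP_009fd8_agE.Loc

/-!
MP_009fd8_ag, EveryField: the real places, stability of the Selmer pairs, the torsion classes.
-/

namespace Pool.Agent.MP009fd8E

open IsDedekindDomain NumberField WithZero Pool.Agent.MP009fd8

variable {K : Type*} [Field K] [NumberField K]

/-- The real places. -/
theorem case_real (f : K →+* ℝ) {n a b : K} (hn0 : n ≠ 0) (ha : a ≠ 0) (hb : b ≠ 0)
    (h : HasPoint (f n) (f a) (f b)) :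
    ∃ x y : K, TorsionPair n x y ∧ 0 < f (a * x) ∧ 0 < f (b * y) := by
  have fn : f n ≠ 0 := (map_ne_zero f).2 hn0
  have fa : f a ≠ 0 := (map_ne_zero f).2 ha
  have fb : f b ≠ 0 := (map_ne_zero f).2 hb
  rcases lt_or_gt_of_ne fn with hn | hn
  · have hbp := Pool.Agent.MP009fd8W.real_neg (f n) (f a) (f b) hn fa fb h
    rcases lt_or_gt_of_ne fa with hap | hap
    · refine ⟨-1, -n, torsion_zero n, ?_, ?_⟩
      · simp only [map_mul, map_neg, map_one]
        linarith
      · simp only [map_mul, map_neg]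
        nlinarith
    · refine ⟨1, 1, torsion_one n, ?_, ?_⟩
      · rw [mul_one]; exact hap
      · rw [mul_one]; exact hbp
  · have hab := real_pos (f n) (f a) (f b) hn fa fb h
    rcases lt_or_gt_of_ne fa with hap | hap
    · have hbn : f b < 0 := by
        by_contra hb'
        rw [not_lt] at hb'
        nlinarith
      refine ⟨-1, -n, torsion_zero n, ?_, ?_⟩
      · simp only [map_mul, map_neg, map_one]
        linarith
      · simp only [map_mul, map_neg]
        nlinarith
    · have hbp : 0 < f b := by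
        by_contra hb'
        rw [not_lt] at hb'
        nlinarith
      refine ⟨1, 1, torsion_one n, ?_, ?_⟩
      · rw [mul_one]; exact hap
      · rw [mul_one]; exact hbp

/-- The Selmer pairs are stable under torsion. -/
theorem SelmerPair.torsion {n a b x y : K} (hn : n ≠ 0) (ha : a ≠ 0) (hb : b ≠ 0)
    (h : SelmerPair K n a b) (ht : TorsionPair n x y) : SelmerPair K n (a * x) (b * y) := by
  constructor
  · intro v
    have hinj : ∀ z : K, z ≠ 0 → algebraMap K (v.adicCompletion K) z ≠ 0 :=
      fun z hz => (map_ne_zero _).2 hz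
    rw [map_mul, map_mul]
    exact HasPoint.torsion (hinj n hn) (hinj a ha) (hinj b hb) (h.1 v)
      (TorsionPair.map (algebraMap K (v.adicCompletion K)) ht)
  · intro f
    have hinj : ∀ z : K, z ≠ 0 → f z ≠ 0 := fun z hz => (map_ne_zero _).2 hz
    rw [map_mul, map_mul]
    exact HasPoint.torsion (hinj n hn) (hinj a ha) (hinj b hb) (h.2 f) (TorsionPair.map f ht)

/-- The Selmer pairs are stable under division by squares. -/
theorem SelmerPair.of_sq {n a b r s : K} (hr : r ≠ 0) (hs : s ≠ 0)
    (h : SelmerPair K n (a * r ^ 2) (b * s ^ 2)) : SelmerPair K n a b := by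
  constructor
  · intro v
    have h1 := h.1 v
    rw [map_mul, map_mul, map_pow, map_pow] at h1
    exact hasPoint_sq _ _ _ _ _ ((map_ne_zero _).2 hr) ((map_ne_zero _).2 hs) h1
  · intro f
    have h1 := h.2 f
    rw [map_mul, map_mul, map_pow, map_pow] at h1
    exact hasPoint_sq _ _ _ _ _ ((map_ne_zero _).2 hr) ((map_ne_zero _).2 hs) h1

/-- 2 is no square at an unramified place above 2. -/
theorem two_not_square (v : HeightOneSpectrum (𝓞 K)) (h2 : (2 : 𝓞 K) ∈ v.asIdeal)
    (hunr : (2 : 𝓞 K) ∉ v.asIdeal ^ 2) : ¬ IsSquare (2 : K) := by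
  rintro ⟨x, hx⟩
  apply not_isSquare_exp_neg_one
  rw [← val_two v h2 hunr, hx, map_mul]
  exact ⟨_, rfl⟩

/-- -1 is no square if some place above 2 is unramified. -/
theorem neg_one_not_square (v : HeightOneSpectrum (𝓞 K)) (h2 : (2 : 𝓞 K) ∈ v.asIdeal)
    (hunr : (2 : 𝓞 K) ∉ v.asIdeal ^ 2) : ¬ IsSquare (-1 : K) := by
  rintro ⟨x, hx⟩
  apply not_isSquare_exp_neg_one
  rw [← val_two v h2 hunr]
  have hx1 : v.valuation K x * v.valuation K x = 1 := by
    rw [← map_mul, ← hx, Valuation.map_neg, map_one]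
  have hx2 : v.valuation K x = 1 := by
    have : (v.valuation K x) ^ 2 = 1 := by rw [pow_two]; exact hx1
    exact (pow_eq_one_iff_of_nonneg zero_le two_ne_zero).1 this
  refine ⟨v.valuation K (x - 1), ?_⟩
  rw [← map_mul]
  have e : (x - 1) * (x - 1) = -(2 * x) := by linear_combination (-1 : K) * hx
  rw [e, Valuation.map_neg, map_mul, hx2, mul_one]

/-- Some place divides 2. -/
theorem exists_above_two : ∃ v : HeightOneSpectrum (𝓞 K), (2 : 𝓞 K) ∈ v.asIdeal := by
  have hnu : ¬ IsUnit (2 : 𝓞 K) := by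
    intro h
    obtain ⟨y, hy⟩ := h.exists_right_inv
    have h1 : IsIntegral ℤ (algebraMap ℚ K (1 / 2)) := by
      have e : algebraMap ℚ K (1 / 2) = algebraMap (𝓞 K) K y := by
        have e1 := congrArg (algebraMap (𝓞 K) K) hy
        rw [map_mul, map_ofNat, map_one] at e1
        rw [map_div₀, map_one, map_ofNat]
        have h20 : (2 : K) ≠ 0 := two_ne_zero
        field_simp
        linear_combination -e1
      rw [e]
      exact RingOfIntegers.isIntegral_coe y
    rw [isIntegral_algebraMap_iff (algebraMap ℚ K).injective, IsIntegrallyClosed.isIntegral_iff]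
      at h1
    obtain ⟨z, hz⟩ := h1
    have h3 : ((2 * z : ℤ) : ℚ) = 1 := by
      push_cast
      rw [show (z : ℚ) = 1 / 2 from hz]
      norm_num
    have h4 : 2 * z = 1 := by exact_mod_cast h3
    omega
  obtain ⟨m, hm, hle⟩ := Ideal.exists_le_maximal (Ideal.span {(2 : 𝓞 K)})
    (by rwa [Ne, Ideal.span_singleton_eq_top])
  refine ⟨⟨m, hm.isPrime, ?_⟩, hle (Ideal.mem_span_singleton_self 2)⟩
  rintro rfl
  have := hle (Ideal.mem_span_singleton_self (2 : 𝓞 K))
  rw [Ideal.mem_bot] at this
  exact two_ne_zero this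

/-- The four torsion pairs. -/
def tau (n : K) : Fin 4 → K × K :=
  ![(1, 1), (-1, -n), (n, 2), (-n, -2 * n)]

omit [NumberField K] in
theorem tau_torsion (n : K) (i : Fin 4) : TorsionPair n (tau n i).1 (tau n i).2 := by
  fin_cases i
  · exact torsion_one n
  · exact torsion_zero n
  · exact torsion_n n
  · exact torsion_neg n

omit [NumberField K] in
theorem isSquare_of_mul {x y : K} (hy : y ≠ 0) (h1 : IsSquare (x * y)) (h2 : IsSquare y) :
    IsSquare x := by
  have e : x = x * y / y := by field_simp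
  rw [e]
  exact h1.div h2

omit [NumberField K] in
/-- The classes of the four torsion pairs are distinct. -/
theorem tau_inj {n : K} (hn : n ≠ 0) (h2 : ¬ IsSquare (2 : K)) (h1 : ¬ IsSquare (-1 : K))
    (i j : Fin 4) (hx : IsSquare ((tau n i).1 * (tau n j).1))
    (hy : IsSquare ((tau n i).2 * (tau n j).2)) : i = j := by
  have key : ∀ x : K, x ≠ 0 → IsSquare x → ¬ IsSquare (2 * x) :=
    fun x hx0 hx hx2 => h2 (isSquare_of_mul hx0 hx2 hx)
  have key1 : ∀ x : K, x ≠ 0 → IsSquare x → ¬ IsSquare (-x) := by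
    intro x hx0 hx hx2
    apply h1
    apply isSquare_of_mul hx0 _ hx
    rw [neg_one_mul]; exact hx2
  have hnn : IsSquare (n * n) := ⟨n, rfl⟩
  have hnn0 : n * n ≠ 0 := mul_ne_zero hn hn
  have hneg : -n ≠ 0 := neg_ne_zero.2 hn
  fin_cases i <;> fin_cases j <;> simp [tau] at hx hy ⊢
  · exact h1 hx
  · exact h2 hy
  · exact key (-n) hneg hx (by convert hy using 1; ring)
  · exact h1 hx
  · exact key (-n) hneg hx (by convert hy using 1; ring)
  · exact key (n * n) hnn0 hnn (by convert hy using 1; ring)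
  · exact h2 hy
  · exact key (-n) hneg hx (by convert hy using 1; ring)
  · exact key1 (n * n) hnn0 hnn hx
  · exact key (-n) hneg hx (by convert hy using 1; ring)
  · exact key (n * n) hnn0 hnn (by convert hy using 1; ring)
  · exact key1 (n * n) hnn0 hnn hx

end Pool.Agent.MP009fd8E
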